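import Mathlib

/-!
Basic objects for MP_8fbdb2_pr: the group `SL_3(ℤ)`, columns, elementary matrices and the
generating set.
-/

set_option autoImplicit false

namespace Pool.Agent.IRP

open Matrix

/-- The group `SL_3(ℤ)`. -/
abbrev G := Matrix.SpecialLinearGroup (Fin 3) ℤ

/-- Column `j` of `g`. -/
def col (g : G) (j : Fin 3) : Fin 3 → ℤ := fun a => g.1 a j

/-- The elementary matrix `1 + n E_ij` (and `1` if `i = j`). -/
def E (i j : Fin 3) (n : ℤ) : G :=
  if h : i ≠ j then Matrix.SpecialLinearGroup.transvection h n else 1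

theorem E_coe {i j : Fin 3} (h : i ≠ j) (n : ℤ) :
    (E i j n).1 = Matrix.transvection i j n := by
  unfold E
  rw [dif_pos h]
  rfl

theorem ext_col {g h : G} (H : ∀ j, col g j = col h j) : g = h := by
  apply Subtype.ext
  ext a b
  exact congrFun (H b) a

theorem col_mul_E_same {i j : Fin 3} (h : i ≠ j) (g : G) (n : ℤ) :
    col (g * E i j n) j = col g j + n • col g i := by
  funext a
  show (g * E i j n).1 a j = g.1 a j + n • g.1 a i
  rw [Matrix.SpecialLinearGroup.coe_mul, E_coe h, Matrix.mul_transvection_apply_same]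
  simp

theorem col_mul_E_ne {i j k : Fin 3} (h : i ≠ j) (hk : k ≠ j) (g : G) (n : ℤ) :
    col (g * E i j n) k = col g k := by
  funext a
  show (g * E i j n).1 a k = g.1 a k
  rw [Matrix.SpecialLinearGroup.coe_mul, E_coe h, Matrix.mul_transvection_apply_of_ne _ _ _ _ hk]

/-- For pairwise distinct `i j k`, every index is one of them. -/
theorem fin3_cases {i j k : Fin 3} (hij : i ≠ j) (hjk : j ≠ k) (hik : i ≠ k) (l : Fin 3) :
    l = i ∨ l = j ∨ l = k := by
  revert i j k l
  decide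

theorem exists_third (i j : Fin 3) (hij : i ≠ j) : ∃ k : Fin 3, j ≠ k ∧ i ≠ k := by
  revert i j
  decide

theorem exists_other (i : Fin 3) : ∃ j : Fin 3, i ≠ j := by
  revert i
  decide

theorem E_mul_E {i j : Fin 3} (h : i ≠ j) (m n : ℤ) : E i j m * E i j n = E i j (m + n) := by
  apply Subtype.ext
  rw [Matrix.SpecialLinearGroup.coe_mul, E_coe h, E_coe h, E_coe h,
    Matrix.transvection_mul_transvection_same _ _ h]

theorem E_zero (i j : Fin 3) : E i j 0 = 1 := by
  by_cases h : i ≠ j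
  · apply Subtype.ext
    rw [E_coe h, Matrix.transvection_zero]
    rfl
  · unfold E
    rw [dif_neg h]

theorem E_inv (i j : Fin 3) (n : ℤ) : (E i j n)⁻¹ = E i j (-n) := by
  by_cases h : i ≠ j
  · rw [inv_eq_iff_mul_eq_one, E_mul_E h, add_neg_cancel, E_zero]
  · unfold E
    rw [dif_neg h, dif_neg h, inv_one]

theorem E_pow {i j : Fin 3} (h : i ≠ j) (n : ℕ) : (E i j 1) ^ n = E i j n := by
  induction n with
  | zero => simp [E_zero]
  | succ n ih => rw [pow_succ, ih, E_mul_E h]; simp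

theorem E_zpow {i j : Fin 3} (h : i ≠ j) (n : ℤ) : (E i j 1) ^ n = E i j n := by
  induction n using Int.induction_on with
  | zero => simp [E_zero]
  | succ n ih => rw [_root_.zpow_add_one, ih, E_mul_E h]
  | pred n ih => rw [_root_.zpow_sub_one, ih, E_inv, E_mul_E h, sub_eq_add_neg]

/-- same target column -/
theorem E_comm_target {i j k : Fin 3} (hij : i ≠ j) (hkj : k ≠ j) (m n : ℤ) :
    E i j m * E k j n = E k j n * E i j m := by
  apply mul_left_cancel (a := (1 : G))
  rw [← mul_assoc, ← mul_assoc]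
  apply ext_col
  intro l
  by_cases hl : l = j
  · subst hl
    rw [col_mul_E_same hkj, col_mul_E_same hij, col_mul_E_same hij, col_mul_E_same hkj,
      col_mul_E_ne hkj hij, col_mul_E_ne hij hkj]
    abel
  · rw [col_mul_E_ne hkj hl, col_mul_E_ne hij hl, col_mul_E_ne hij hl, col_mul_E_ne hkj hl]

/-- same source column -/
theorem E_comm_source {i j k : Fin 3} (hij : i ≠ j) (hik : i ≠ k) (hjk : j ≠ k) (m n : ℤ) :
    E i j m * E i k n = E i k n * E i j m := by
  apply mul_left_cancel (a := (1 : G))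
  rw [← mul_assoc, ← mul_assoc]
  apply ext_col
  intro l
  rcases fin3_cases hij hjk hik l with rfl | rfl | rfl
  · rw [col_mul_E_ne hik hik, col_mul_E_ne hij hij, col_mul_E_ne hij hij, col_mul_E_ne hik hik]
  · rw [col_mul_E_ne hik hjk, col_mul_E_same hij, col_mul_E_same hij, col_mul_E_ne hik hjk,
      col_mul_E_ne hik hik]
  · rw [col_mul_E_same hik, col_mul_E_ne hij hjk.symm, col_mul_E_ne hij hij,
      col_mul_E_ne hij hjk.symm, col_mul_E_same hik]

/-- The Heisenberg relation. -/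
theorem E_heis {i j k : Fin 3} (hij : i ≠ j) (hjk : j ≠ k) (hik : i ≠ k) (m n : ℤ) :
    E i j m * E j k n = E j k n * E i j m * E i k (m * n) := by
  apply mul_left_cancel (a := (1 : G))
  rw [← mul_assoc, ← mul_assoc, ← mul_assoc]
  apply ext_col
  intro l
  rcases fin3_cases hij hjk hik l with rfl | rfl | rfl
  · rw [col_mul_E_ne hjk hik, col_mul_E_ne hij hij, col_mul_E_ne hik hik, col_mul_E_ne hij hij,
      col_mul_E_ne hjk hik]
  · rw [col_mul_E_ne hjk hjk, col_mul_E_same hij, col_mul_E_ne hik hjk, col_mul_E_same hij,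
      col_mul_E_ne hjk hjk, col_mul_E_ne hjk hik]
  · rw [col_mul_E_same hjk, col_mul_E_ne hij hjk.symm, col_mul_E_same hij, col_mul_E_same hik,
      col_mul_E_ne hij hjk.symm, col_mul_E_same hjk, col_mul_E_ne hij hij, col_mul_E_ne hjk hik,
      smul_add, smul_smul, mul_comm n m]
    abel

/-- The rotation: `g * rot` has columns `(c_2, c_0, c_1)`. -/
def rot : G := ⟨!![0, 1, 0; 0, 0, 1; 1, 0, 0], by simp [Matrix.det_fin_three]⟩

theorem col_rot_zero (g : G) : col (g * rot) 0 = col g 2 := by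
  funext a
  show (g * rot).1 a _ = g.1 a _
  rw [Matrix.SpecialLinearGroup.coe_mul, Matrix.mul_apply, Fin.sum_univ_three]
  simp [rot]

theorem col_rot_one (g : G) : col (g * rot) 1 = col g 0 := by
  funext a
  show (g * rot).1 a _ = g.1 a _
  rw [Matrix.SpecialLinearGroup.coe_mul, Matrix.mul_apply, Fin.sum_univ_three]
  simp [rot]

theorem col_rot_two (g : G) : col (g * rot) 2 = col g 1 := by
  funext a
  show (g * rot).1 a _ = g.1 a _
  rw [Matrix.SpecialLinearGroup.coe_mul, Matrix.mul_apply, Fin.sum_univ_three]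
  simp [rot]

/-- Basic generators (with the identity). -/
@[irreducible] def S0 : Finset G :=
  {1} ∪ (Finset.univ.image fun q : Fin 3 × Fin 3 => E q.1 q.2 1) ∪
    (Finset.univ.image fun q : Fin 3 × Fin 3 => E q.1 q.2 (-1))

open Pointwise in
/-- The generating set used in the construction: all products of twelve basic generators. -/
@[irreducible] def S : Finset G := S0 ^ 12

open Pointwise in
theorem S_eq : S = S0 ^ 12 := by
  unfold S
  rfl

theorem one_mem_S0 : (1 : G) ∈ S0 := by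
  unfold S0
  simp

theorem E_mem_S0 (i j : Fin 3) : E i j 1 ∈ S0 := by
  unfold S0
  rw [Finset.mem_union, Finset.mem_union]
  left; right
  exact Finset.mem_image.2 ⟨(i, j), Finset.mem_univ _, rfl⟩

theorem E_neg_mem_S0 (i j : Fin 3) : E i j (-1) ∈ S0 := by
  unfold S0
  rw [Finset.mem_union]
  right
  exact Finset.mem_image.2 ⟨(i, j), Finset.mem_univ _, rfl⟩

theorem inv_mem_S0 {s : G} (hs : s ∈ S0) : s⁻¹ ∈ S0 := by
  unfold S0 at hs
  rw [Finset.mem_union, Finset.mem_union, Finset.mem_image, Finset.mem_image] at hs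
  rcases hs with (hs | ⟨q, -, hq⟩) | ⟨q, -, hq⟩
  · rw [Finset.mem_singleton] at hs
    subst hs
    rw [inv_one]
    exact one_mem_S0
  · rw [← hq, E_inv]
    exact E_neg_mem_S0 _ _
  · rw [← hq, E_inv, neg_neg]
    exact E_mem_S0 _ _

theorem mem_S0_cases {s : G} (hs : s ∈ S0) :
    s = 1 ∨ ∃ i j : Fin 3, i ≠ j ∧ (s = E i j 1 ∨ s = E i j (-1)) := by
  unfold S0 at hs
  rw [Finset.mem_union, Finset.mem_union, Finset.mem_image, Finset.mem_image] at hs
  rcases hs with (hs | ⟨q, -, hq⟩) | ⟨q, -, hq⟩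
  · left
    exact Finset.mem_singleton.1 hs
  · by_cases h : q.1 ≠ q.2
    · right
      exact ⟨q.1, q.2, h, Or.inl hq.symm⟩
    · left
      rw [← hq]
      unfold E
      rw [dif_neg h]
  · by_cases h : q.1 ≠ q.2
    · right
      exact ⟨q.1, q.2, h, Or.inr hq.symm⟩
    · left
      rw [← hq]
      unfold E
      rw [dif_neg h]


open Pointwise

theorem S0_pow_mono {a b : ℕ} (h : a ≤ b) : S0 ^ a ⊆ S0 ^ b :=
  Finset.pow_subset_pow_right one_mem_S0 h

theorem S0_pow_sub_S {a : ℕ} (h : a ≤ 12) : S0 ^ a ⊆ S := by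
  rw [S_eq]
  exact S0_pow_mono h

theorem one_mem_S : (1 : G) ∈ S := by
  apply S0_pow_sub_S (a := 0) (by norm_num)
  simp

theorem S0_sub_S : S0 ⊆ S := by
  have := S0_pow_sub_S (a := 1) (by norm_num)
  rwa [pow_one] at this

theorem inv_mem_S0_pow {n : ℕ} {s : G} (hs : s ∈ S0 ^ n) : s⁻¹ ∈ S0 ^ n := by
  induction n generalizing s with
  | zero =>
    rw [pow_zero, Finset.mem_one] at hs ⊢
    rw [hs, inv_one]
  | succ n ih =>
    rw [pow_succ] at hs
    rw [pow_succ']
    obtain ⟨a, ha, b, hb, rfl⟩ := Finset.mem_mul.1 hs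
    rw [_root_.mul_inv_rev]
    exact Finset.mul_mem_mul (inv_mem_S0 hb) (ih ha)

theorem inv_mem_S {s : G} (hs : s ∈ S) : s⁻¹ ∈ S := by
  rw [S_eq] at hs ⊢
  exact inv_mem_S0_pow hs

theorem S_pow_mono {a b : ℕ} (h : a ≤ b) : S ^ a ⊆ S ^ b :=
  Finset.pow_subset_pow_right one_mem_S h

theorem E_mem_S (i j : Fin 3) : E i j 1 ∈ S := S0_sub_S (E_mem_S0 i j)

theorem E_neg_mem_S (i j : Fin 3) : E i j (-1) ∈ S := S0_sub_S (E_neg_mem_S0 i j)

end Pool.Agent.IRP
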