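import Pool.Agent.H.MP_8fbdb2_pr.Basic

set_option autoImplicit false

namespace Pool.Agent.IRP

open Pointwise

/-- matrix of the block embedding in the rows and columns `1, 2` -/
def m12 (A : Matrix (Fin 2) (Fin 2) ℤ) : Matrix (Fin 3) (Fin 3) ℤ :=
  !![1, 0, 0; 0, A 0 0, A 0 1; 0, A 1 0, A 1 1]

/-- matrix of the block embedding in the rows and columns `0, 1` -/
def m01 (A : Matrix (Fin 2) (Fin 2) ℤ) : Matrix (Fin 3) (Fin 3) ℤ :=
  !![A 0 0, A 0 1, 0; A 1 0, A 1 1, 0; 0, 0, 1]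

theorem m12_mul (A B : Matrix (Fin 2) (Fin 2) ℤ) : m12 (A * B) = m12 A * m12 B := by
  ext i j
  fin_cases i <;> fin_cases j <;>
    simp [m12, Matrix.mul_apply, Fin.sum_univ_succ]

theorem m01_mul (A B : Matrix (Fin 2) (Fin 2) ℤ) : m01 (A * B) = m01 A * m01 B := by
  ext i j
  fin_cases i <;> fin_cases j <;>
    simp [m01, Matrix.mul_apply, Fin.sum_univ_succ]

/-- block embedding in the rows and columns `1, 2` -/
def i12 : Matrix.SpecialLinearGroup (Fin 2) ℤ →* G where
  toFun A := ⟨m12 A.1, by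
    have := A.2
    rw [Matrix.det_fin_two] at this
    rw [Matrix.det_fin_three]
    simp [m12]
    linarith⟩
  map_one' := by
    apply Subtype.ext
    ext i j
    fin_cases i <;> fin_cases j <;> simp [m12]
  map_mul' A B := Subtype.ext (m12_mul A.1 B.1)

/-- block embedding in the rows and columns `0, 1` -/
def i01 : Matrix.SpecialLinearGroup (Fin 2) ℤ →* G where
  toFun A := ⟨m01 A.1, by
    have := A.2
    rw [Matrix.det_fin_two] at this
    rw [Matrix.det_fin_three]
    simp [m01]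
    linarith⟩
  map_one' := by
    apply Subtype.ext
    ext i j
    fin_cases i <;> fin_cases j <;> simp [m01]
  map_mul' A B := Subtype.ext (m01_mul A.1 B.1)

theorem i12_coe (A : Matrix.SpecialLinearGroup (Fin 2) ℤ) : (i12 A).1 = m12 A.1 := rfl

theorem i01_coe (A : Matrix.SpecialLinearGroup (Fin 2) ℤ) : (i01 A).1 = m01 A.1 := rfl

theorem col_mul (g h : G) (j : Fin 3) :
    col (g * h) j = h.1 0 j • col g 0 + h.1 1 j • col g 1 + h.1 2 j • col g 2 := by
  funext a
  show (g * h).1 a j = _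
  rw [Matrix.SpecialLinearGroup.coe_mul, Matrix.mul_apply, Fin.sum_univ_three]
  simp [col]
  ring

theorem col_mul_i12_zero (g : G) (A : Matrix.SpecialLinearGroup (Fin 2) ℤ) :
    col (g * i12 A) 0 = col g 0 := by
  rw [col_mul, i12_coe]
  simp [m12]

theorem col_mul_i12_one (g : G) (A : Matrix.SpecialLinearGroup (Fin 2) ℤ) :
    col (g * i12 A) 1 = A.1 0 0 • col g 1 + A.1 1 0 • col g 2 := by
  rw [col_mul, i12_coe]
  simp [m12]

theorem col_mul_i12_two (g : G) (A : Matrix.SpecialLinearGroup (Fin 2) ℤ) :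
    col (g * i12 A) 2 = A.1 0 1 • col g 1 + A.1 1 1 • col g 2 := by
  rw [col_mul, i12_coe]
  simp [m12]

theorem col_mul_i01_zero (g : G) (A : Matrix.SpecialLinearGroup (Fin 2) ℤ) :
    col (g * i01 A) 0 = A.1 0 0 • col g 0 + A.1 1 0 • col g 1 := by
  rw [col_mul, i01_coe]
  simp [m01]

theorem col_mul_i01_two (g : G) (A : Matrix.SpecialLinearGroup (Fin 2) ℤ) :
    col (g * i01 A) 2 = col g 2 := by
  rw [col_mul, i01_coe]
  simp [m01]

theorem i12_T : i12 ModularGroup.T = E 1 2 1 := by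
  apply Subtype.ext
  rw [E_coe (by decide), i12_coe, ModularGroup.coe_T]
  decide

theorem i12_S : i12 ModularGroup.S = E 1 2 (-1) * E 2 1 1 * E 1 2 (-1) := by
  apply Subtype.ext
  rw [Matrix.SpecialLinearGroup.coe_mul, Matrix.SpecialLinearGroup.coe_mul,
    E_coe (by decide), E_coe (by decide), i12_coe, ModularGroup.coe_S]
  decide

theorem i12_mem (A : Matrix.SpecialLinearGroup (Fin 2) ℤ) :
    i12 A ∈ Subgroup.closure ({E 1 2 1, E 2 1 1} : Set G) := by
  have hT : E 1 2 1 ∈ Subgroup.closure ({E 1 2 1, E 2 1 1} : Set G) :=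
    Subgroup.subset_closure (by simp)
  have hL : E 2 1 1 ∈ Subgroup.closure ({E 1 2 1, E 2 1 1} : Set G) :=
    Subgroup.subset_closure (by simp)
  have hTi : E 1 2 (-1) ∈ Subgroup.closure ({E 1 2 1, E 2 1 1} : Set G) := by
    rw [← E_inv]
    exact Subgroup.inv_mem _ hT
  have hA : A ∈ Subgroup.closure ({ModularGroup.S, ModularGroup.T} :
      Set (Matrix.SpecialLinearGroup (Fin 2) ℤ)) := by
    rw [SpecialLinearGroup.SL2Z_generators]
    exact Subgroup.mem_top _
  have h1 : Subgroup.closure ({ModularGroup.S, ModularGroup.T} :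
      Set (Matrix.SpecialLinearGroup (Fin 2) ℤ)) ≤
      (Subgroup.closure ({E 1 2 1, E 2 1 1} : Set G)).comap i12 := by
    rw [Subgroup.closure_le]
    rintro x (rfl | rfl)
    · rw [SetLike.mem_coe, Subgroup.mem_comap, i12_S]
      exact Subgroup.mul_mem _ (Subgroup.mul_mem _ hTi hL) hTi
    · rw [SetLike.mem_coe, Subgroup.mem_comap, i12_T]
      exact hT
  exact h1 hA

theorem i01_T : i01 ModularGroup.T = E 0 1 1 := by
  apply Subtype.ext
  rw [E_coe (by decide), i01_coe, ModularGroup.coe_T]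
  decide

theorem i01_S : i01 ModularGroup.S = E 0 1 (-1) * E 1 0 1 * E 0 1 (-1) := by
  apply Subtype.ext
  rw [Matrix.SpecialLinearGroup.coe_mul, Matrix.SpecialLinearGroup.coe_mul,
    E_coe (by decide), E_coe (by decide), i01_coe, ModularGroup.coe_S]
  decide

theorem i01_mem (A : Matrix.SpecialLinearGroup (Fin 2) ℤ) :
    i01 A ∈ Subgroup.closure ({E 0 1 1, E 1 0 1} : Set G) := by
  have hT : E 0 1 1 ∈ Subgroup.closure ({E 0 1 1, E 1 0 1} : Set G) :=
    Subgroup.subset_closure (by simp)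
  have hL : E 1 0 1 ∈ Subgroup.closure ({E 0 1 1, E 1 0 1} : Set G) :=
    Subgroup.subset_closure (by simp)
  have hTi : E 0 1 (-1) ∈ Subgroup.closure ({E 0 1 1, E 1 0 1} : Set G) := by
    rw [← E_inv]
    exact Subgroup.inv_mem _ hT
  have hA : A ∈ Subgroup.closure ({ModularGroup.S, ModularGroup.T} :
      Set (Matrix.SpecialLinearGroup (Fin 2) ℤ)) := by
    rw [SpecialLinearGroup.SL2Z_generators]
    exact Subgroup.mem_top _
  have h1 : Subgroup.closure ({ModularGroup.S, ModularGroup.T} :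
      Set (Matrix.SpecialLinearGroup (Fin 2) ℤ)) ≤
      (Subgroup.closure ({E 0 1 1, E 1 0 1} : Set G)).comap i01 := by
    rw [Subgroup.closure_le]
    rintro x (rfl | rfl)
    · rw [SetLike.mem_coe, Subgroup.mem_comap, i01_S]
      exact Subgroup.mul_mem _ (Subgroup.mul_mem _ hTi hL) hTi
    · rw [SetLike.mem_coe, Subgroup.mem_comap, i01_T]
      exact hT
  exact h1 hA

theorem E_mem_closure {s : Set G} {i j : Fin 3} (hij : i ≠ j)
    (h : E i j 1 ∈ Subgroup.closure s) (n : ℤ) : E i j n ∈ Subgroup.closure s := by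
  rw [← E_zpow hij]
  exact Subgroup.zpow_mem _ h n

theorem stab_gen (p : G) (hp : col p 0 = col 1 0) :
    p ∈ Subgroup.closure ({E 0 1 1, E 0 2 1, E 1 2 1, E 2 1 1} : Set G) := by
  have h00 : p.1 0 0 = 1 := by
    have := congrFun hp 0
    simpa [col] using this
  have h10 : p.1 1 0 = 0 := by
    have := congrFun hp 1
    simpa [col] using this
  have h20 : p.1 2 0 = 0 := by
    have := congrFun hp 2
    simpa [col] using this
  have hdet : p.1 1 1 * p.1 2 2 - p.1 1 2 * p.1 2 1 = 1 := by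
    have := p.2
    rw [Matrix.det_fin_three, h00, h10, h20] at this
    linarith
  let A : Matrix.SpecialLinearGroup (Fin 2) ℤ :=
    ⟨!![p.1 1 1, p.1 1 2; p.1 2 1, p.1 2 2], by rw [Matrix.det_fin_two_of]; linarith⟩
  have hpe : p = i12 A * (E 0 1 (p.1 0 1) * E 0 2 (p.1 0 2)) := by
    apply Subtype.ext
    rw [Matrix.SpecialLinearGroup.coe_mul, Matrix.SpecialLinearGroup.coe_mul,
      E_coe (by decide), E_coe (by decide), i12_coe]
    ext i j
    fin_cases i <;> fin_cases j <;>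
      simp [m12, A, Matrix.transvection, Matrix.mul_apply,
        Fin.sum_univ_three, Matrix.single_apply, Matrix.one_apply, h00, h10, h20]
  rw [hpe]
  refine Subgroup.mul_mem _ ?_ (Subgroup.mul_mem _ ?_ ?_)
  · exact Subgroup.closure_mono (by
      rintro x (rfl | rfl) <;> simp) (i12_mem A)
  · exact E_mem_closure (by decide) (Subgroup.subset_closure (by simp)) _
  · exact E_mem_closure (by decide) (Subgroup.subset_closure (by simp)) _

/-- a vector of two integers is a multiple of a primitive one -/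
theorem exists_prim (y z : ℤ) : ∃ e y' z' : ℤ, IsCoprime y' z' ∧ y = e * y' ∧ z = e * z' := by
  by_cases h : Int.gcd y z = 0
  · rw [Int.gcd_eq_zero_iff] at h
    exact ⟨0, 1, 0, isCoprime_one_left, by simp [h.1], by simp [h.2]⟩
  · have hpos : 0 < Int.gcd y z := Nat.pos_of_ne_zero h
    obtain ⟨y', z', hc, hy, hz⟩ := Int.exists_gcd_one hpos
    refine ⟨Int.gcd y z, y', z', Int.isCoprime_iff_gcd_eq_one.2 hc, ?_, ?_⟩
    · rw [mul_comm]; exact hy
    · rw [mul_comm]; exact hz

theorem closure_E :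
    Subgroup.closure {g : G | ∃ i j : Fin 3, i ≠ j ∧ g = E i j 1} = ⊤ := by
  rw [eq_top_iff]
  intro g _
  have hE : ∀ (i j : Fin 3), i ≠ j → ∀ n : ℤ,
      E i j n ∈ Subgroup.closure {g : G | ∃ i j : Fin 3, i ≠ j ∧ g = E i j 1} := by
    intro i j hij n
    refine E_mem_closure hij (Subgroup.subset_closure ?_) n
    exact ⟨i, j, hij, rfl⟩
  have h4 : Subgroup.closure ({E 0 1 1, E 0 2 1, E 1 2 1, E 2 1 1} : Set G) ≤
      Subgroup.closure {g : G | ∃ i j : Fin 3, i ≠ j ∧ g = E i j 1} := by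
    rw [Subgroup.closure_le]
    rintro x (rfl | rfl | rfl | rfl)
    · exact hE _ _ (by decide) _
    · exact hE _ _ (by decide) _
    · exact hE _ _ (by decide) _
    · exact hE _ _ (by decide) _
  have h12 : ∀ A, i12 A ∈ Subgroup.closure {g : G | ∃ i j : Fin 3, i ≠ j ∧ g = E i j 1} := by
    intro A
    refine (Subgroup.closure_le _).2 ?_ (i12_mem A)
    rintro x (rfl | rfl)
    · exact hE _ _ (by decide) _
    · exact hE _ _ (by decide) _
  have h01 : ∀ A, i01 A ∈ Subgroup.closure {g : G | ∃ i j : Fin 3, i ≠ j ∧ g = E i j 1} := by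
    intro A
    refine (Subgroup.closure_le _).2 ?_ (i01_mem A)
    rintro x (rfl | rfl)
    · exact hE _ _ (by decide) _
    · exact hE _ _ (by decide) _
  obtain ⟨e, y', z', ⟨u, v, huv⟩, hy, hz⟩ := exists_prim (g.1 0 1) (g.1 0 2)
  let C : Matrix.SpecialLinearGroup (Fin 2) ℤ :=
    ⟨!![u, -z'; v, y'], by rw [Matrix.det_fin_two_of]; linarith⟩
  set g1 : G := g * i12 C with hg1
  have a0 : g1.1 0 0 = g.1 0 0 := congrFun (col_mul_i12_zero g C) 0
  have a1 : g1.1 0 1 = e := by
    have := congrFun (col_mul_i12_one g C) 0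
    simp only [col, Pi.add_apply, Pi.smul_apply, smul_eq_mul] at this
    rw [this, hy, hz]
    show u * (e * y') + v * (e * z') = e
    linear_combination e * huv
  have a2 : g1.1 0 2 = 0 := by
    have := congrFun (col_mul_i12_two g C) 0
    simp only [col, Pi.add_apply, Pi.smul_apply, smul_eq_mul] at this
    rw [this, hy, hz]
    show -z' * (e * y') + y' * (e * z') = 0
    ring
  obtain ⟨u2, v2, huv2⟩ : IsCoprime (g1.1 0 0) e := by
    have hdet := g1.2
    rw [Matrix.det_fin_three, a1, a2] at hdet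
    exact ⟨g1.1 1 1 * g1.1 2 2 - g1.1 1 2 * g1.1 2 1,
      -(g1.1 1 0 * g1.1 2 2) + g1.1 1 2 * g1.1 2 0, by linarith⟩
  let D : Matrix.SpecialLinearGroup (Fin 2) ℤ :=
    ⟨!![u2, -e; v2, g1.1 0 0], by rw [Matrix.det_fin_two_of]; linarith⟩
  set g2 : G := g1 * i01 D with hg2
  have b0 : g2.1 0 0 = 1 := by
    have := congrFun (col_mul g1 (i01 D) 0) 0
    simp only [col, Pi.add_apply, Pi.smul_apply, smul_eq_mul] at this
    rw [this, a1, a2, i01_coe]
    show u2 * _ + v2 * e + 0 * 0 = 1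
    linarith
  have b1 : g2.1 0 1 = 0 := by
    have := congrFun (col_mul g1 (i01 D) 1) 0
    simp only [col, Pi.add_apply, Pi.smul_apply, smul_eq_mul] at this
    rw [this, a1, a2, i01_coe]
    show -e * _ + g1.1 0 0 * e + 0 * 0 = 0
    ring
  have b2 : g2.1 0 2 = 0 := by
    have := congrFun (col_mul g1 (i01 D) 2) 0
    simp only [col, Pi.add_apply, Pi.smul_apply, smul_eq_mul] at this
    rw [this, a1, a2, i01_coe]
    show 0 * _ + 0 * e + 1 * 0 = 0
    ring
  have hdet := g2.2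
  rw [Matrix.det_fin_three, b0, b1, b2] at hdet
  set n : ℤ := -(g2.1 2 2 * g2.1 1 0 - g2.1 1 2 * g2.1 2 0) with hn
  set k : ℤ := g2.1 2 1 * g2.1 1 0 - g2.1 1 1 * g2.1 2 0 with hk
  have hp : col (g2 * E 1 0 n * E 2 0 k) 0 = col 1 0 := by
    rw [col_mul_E_same (by decide), col_mul_E_same (by decide), col_mul_E_ne (by decide) (by decide)]
    funext a
    fin_cases a
    · show g2.1 0 0 + n * g2.1 0 1 + k * g2.1 0 2 = 1
      rw [b0, b1, b2]; ring
    · show g2.1 1 0 + n * g2.1 1 1 + k * g2.1 1 2 = 0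
      rw [hn, hk]
      linear_combination (-(g2.1 1 0)) * hdet
    · show g2.1 2 0 + n * g2.1 2 1 + k * g2.1 2 2 = 0
      rw [hn, hk]
      linear_combination (-(g2.1 2 0)) * hdet
  have hmem := h4 (stab_gen _ hp)
  rw [Subgroup.mul_mem_cancel_right _ (hE 2 0 (by decide) k),
    Subgroup.mul_mem_cancel_right _ (hE 1 0 (by decide) n), hg2,
    Subgroup.mul_mem_cancel_right _ (h01 D), hg1,
    Subgroup.mul_mem_cancel_right _ (h12 C)] at hmem
  exact hmem

theorem link_lemma (g h : G) : ∃ (g' B : G) (a e : ℤ), col g' 0 = col g 0 ∧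
    (∀ y, col (y * B) 0 = a • col y 0 + e • col y 1) ∧ (∀ y, col (y * B) 2 = col y 2) ∧
    col (g' * B) 0 = col h 0 := by
  have hx : col h 0 = (g⁻¹ * h).1 0 0 • col g 0 + (g⁻¹ * h).1 1 0 • col g 1 +
      (g⁻¹ * h).1 2 0 • col g 2 := by
    rw [← col_mul]
    congr 1
    group
  set k := g⁻¹ * h with hk
  obtain ⟨e, y', z', hc, hy, hz⟩ := exists_prim (k.1 1 0) (k.1 2 0)
  obtain ⟨A, hA0, hA1⟩ := IsCoprime.exists_SL2_col hc 0
  have hcop : IsCoprime (k.1 0 0) e := by
    have hdet := k.2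
    rw [Matrix.det_fin_three, hy, hz] at hdet
    refine ⟨k.1 1 1 * k.1 2 2 - k.1 1 2 * k.1 2 1,
      -(k.1 0 1 * y' * k.1 2 2) + k.1 0 1 * k.1 1 2 * z' + k.1 0 2 * y' * k.1 2 1
        - k.1 0 2 * k.1 1 1 * z', ?_⟩
    linarith
  obtain ⟨B, hB0, hB1⟩ := IsCoprime.exists_SL2_col hcop 0
  refine ⟨g * i12 A, i01 B, k.1 0 0, e, col_mul_i12_zero _ _, ?_, ?_, ?_⟩
  · intro y
    rw [col_mul_i01_zero, hB0, hB1]
  · intro y
    exact col_mul_i01_two _ _
  · rw [col_mul_i01_zero, col_mul_i12_zero, col_mul_i12_one, hB0, hB1, hA0, hA1, hx, hy, hz,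
      smul_add, smul_smul, smul_smul, add_assoc]

theorem rot_mem : rot ∈ S0 ^ 6 := by
  have h : rot = E 0 1 1 * E 1 0 (-1) * E 0 1 1 * E 2 0 1 * E 0 2 (-1) * E 2 0 1 := by
    apply Subtype.ext
    rw [Matrix.SpecialLinearGroup.coe_mul, Matrix.SpecialLinearGroup.coe_mul,
      Matrix.SpecialLinearGroup.coe_mul, Matrix.SpecialLinearGroup.coe_mul,
      Matrix.SpecialLinearGroup.coe_mul,
      E_coe (by decide), E_coe (by decide), E_coe (by decide), E_coe (by decide)]
    show !![(0 : ℤ), 1, 0; 0, 0, 1; 1, 0, 0] = _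
    decide
  rw [h]
  simp only [pow_succ, pow_zero, one_mul]
  exact Finset.mul_mem_mul (Finset.mul_mem_mul (Finset.mul_mem_mul (Finset.mul_mem_mul
    (Finset.mul_mem_mul (E_mem_S0 _ _) (E_neg_mem_S0 _ _)) (E_mem_S0 _ _)) (E_mem_S0 _ _))
    (E_neg_mem_S0 _ _)) (E_mem_S0 _ _)

/-- Columns of an element of `G` span: a homomorphism vanishing on all columns is zero. -/
theorem hom_eq_zero_of_col {F : Type*} [AddCommGroup F] (χ : (Fin 3 → ℤ) →+ F) (g : G)
    (h : ∀ i, χ (col g i) = 0) : χ = 0 := by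
  have h1 : ∀ j, χ (col 1 j) = 0 := by
    intro j
    have : (1 : G) = g * g⁻¹ := by group
    rw [this, col_mul, map_add, map_add, map_zsmul, map_zsmul, map_zsmul, h, h, h]
    simp
  refine DFunLike.ext _ _ fun v => ?_
  have hv : v = v 0 • col 1 0 + v 1 • col 1 1 + v 2 • col 1 2 := by
    funext a
    fin_cases a <;> simp [col]
  rw [hv, map_add, map_add, map_zsmul, map_zsmul, map_zsmul, h1, h1, h1]
  simp

/-- Columns of an element of `G` are linearly independent. -/
theorem col_indep (g : G) (a b c : ℤ) (h : a • col g 0 + b • col g 1 + c • col g 2 = 0) :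
    a = 0 ∧ b = 0 ∧ c = 0 := by
  have h1 : g.1.mulVec ![a, b, c] = 0 := by
    rw [← h]
    funext i
    simp [Matrix.mulVec, dotProduct, Fin.sum_univ_three, col]
    ring
  have h2 : (g⁻¹).1.mulVec (g.1.mulVec ![a, b, c]) = 0 := by
    rw [h1, Matrix.mulVec_zero]
  rw [Matrix.mulVec_mulVec, ← Matrix.SpecialLinearGroup.coe_mul, inv_mul_cancel,
    Matrix.SpecialLinearGroup.coe_one, Matrix.one_mulVec] at h2
  refine ⟨congrFun h2 0, congrFun h2 1, congrFun h2 2⟩

end Pool.Agent.IRP
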