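import Pool.Agent.H.MP_8fbdb2_pr.Defs
import Pool.Agent.H.MP_8fbdb2_pr.Gen

set_option autoImplicit false

namespace Pool.Agent.IRP

open Pointwise

theorem rot_mem_S : rot ∈ S := S0_pow_sub_S (by norm_num) rot_mem

theorem col_mul_vec (g h : G) (j : Fin 3) : col (g * h) j = g.1.mulVec (col h j) := by
  funext a
  show (g * h).1 a j = _
  rw [Matrix.SpecialLinearGroup.coe_mul, Matrix.mul_apply]
  rfl

section

variable {R : (Fin 3 → ℤ) → (Fin 3 → ℤ) → Prop} {q : G → Prop}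

/-- Line moves changing a column outside of an edge. -/
theorem line_move (hq : ∀ x ∈ edgeSet R, ∀ s ∈ S, x * s ∈ edgeSet R → (q x ↔ q (x * s)))
    {k l j a : Fin 3} (hkl : k ≠ l) (hkj : k ≠ j) (hlj : l ≠ j) (haj : a ≠ j) (g : G)
    (hR : R (col g k) (col g l)) (n : ℤ) : q g ↔ q (g * E a j n) := by
  have key : ∀ m : ℤ, g * E a j m ∈ edgeSet R := by
    intro m
    refine ⟨k, l, hkl, ?_⟩
    rw [col_mul_E_ne haj hkj, col_mul_E_ne haj hlj]
    exact hR
  induction n using Int.induction_on with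
  | zero => rw [E_zero, mul_one]
  | succ n ih =>
    refine ih.trans ?_
    rw [hq _ (key n) _ (E_mem_S a j)]
    · rw [mul_assoc, E_mul_E haj]
    · rw [mul_assoc, E_mul_E haj]
      exact key _
  | pred n ih =>
    refine ih.trans ?_
    rw [hq _ (key _) _ (E_neg_mem_S a j)]
    · rw [mul_assoc, E_mul_E haj, sub_eq_add_neg]
    · rw [mul_assoc, E_mul_E haj]
      exact key _

/-- The extension of `q` to all elements with prescribed first column. -/
def qt (R : (Fin 3 → ℤ) → (Fin 3 → ℤ) → Prop) (q : G → Prop) (g : G) : Prop :=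
  ∃ n : ℤ, R (col g 0) (col g 1 + n • col g 0) ∧ q (g * E 0 1 n)

theorem h01 : (0 : Fin 3) ≠ 1 := by decide
theorem h02 : (0 : Fin 3) ≠ 2 := by decide
theorem h12 : (1 : Fin 3) ≠ 2 := by decide

theorem qt_pair (hq : ∀ x ∈ edgeSet R, ∀ s ∈ S, x * s ∈ edgeSet R → (q x ↔ q (x * s)))
    (g : G) (n m : ℤ) (hn : R (col g 0) (col g 1 + n • col g 0))
    (hm : R (col g 0) (col g 2 + m • col g 0)) : q (g * E 0 1 n) ↔ q (g * E 0 2 m) := by
  have h1 := line_move hq (k := 0) (l := 1) (j := 2) (a := 0) h01 h02 h12 h02 (g * E 0 1 n)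
    (by rw [col_mul_E_ne h01 h01, col_mul_E_same h01]; exact hn) m
  have h2 := line_move hq (k := 0) (l := 2) (j := 1) (a := 0) h02 h01 h12.symm h01 (g * E 0 2 m)
    (by rw [col_mul_E_ne h02 h02, col_mul_E_same h02]; exact hm) n
  have h3 : g * E 0 1 n * E 0 2 m = g * E 0 2 m * E 0 1 n := by
    rw [mul_assoc, mul_assoc, E_comm_source h01 h02 h12]
  rw [h1, h2, h3]

variable (hsymm : ∀ v w, R v w → R w v)
    (hyp : ∀ v w c : Fin 3 → ℤ, (∃ x, R v x) → (∃ x, R w x) →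
      (∀ a b d : ℤ, a • v + b • w + d • c = 0 → d = 0) →
      ∃ n : ℤ, R v (c + n • v) ∧ R w (c + n • v))

include hyp in
theorem exists_n1 (g : G) (hv : ∃ x, R (col g 0) x) :
    ∃ n : ℤ, R (col g 0) (col g 1 + n • col g 0) := by
  obtain ⟨n, hn, -⟩ := hyp (col g 0) (col g 0) (col g 1) hv hv (by
    intro a b d h
    have := col_indep g (a + b) d 0 (by rw [add_smul, h.symm]; simp)
    exact this.2.1)
  exact ⟨n, hn⟩

include hyp in
theorem exists_n2 (g : G) (hv : ∃ x, R (col g 0) x) :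
    ∃ n : ℤ, R (col g 0) (col g 2 + n • col g 0) := by
  obtain ⟨n, hn, -⟩ := hyp (col g 0) (col g 0) (col g 2) hv hv (by
    intro a b d h
    have := col_indep g (a + b) 0 d (by rw [add_smul, h.symm]; simp)
    exact this.2.2)
  exact ⟨n, hn⟩

include hyp in
theorem qt_iff1 (hq : ∀ x ∈ edgeSet R, ∀ s ∈ S, x * s ∈ edgeSet R → (q x ↔ q (x * s)))
    (g : G) (n : ℤ) (hn : R (col g 0) (col g 1 + n • col g 0)) :
    qt R q g ↔ q (g * E 0 1 n) := by
  obtain ⟨m, hm⟩ := exists_n2 hyp g ⟨_, hn⟩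
  constructor
  · rintro ⟨n', hn', h⟩
    rw [qt_pair hq g n m hn hm, ← qt_pair hq g n' m hn' hm]
    exact h
  · intro h
    exact ⟨n, hn, h⟩

include hyp in
theorem qt_iff2 (hq : ∀ x ∈ edgeSet R, ∀ s ∈ S, x * s ∈ edgeSet R → (q x ↔ q (x * s)))
    (g : G) (m : ℤ) (hm : R (col g 0) (col g 2 + m • col g 0)) :
    qt R q g ↔ q (g * E 0 2 m) := by
  obtain ⟨n, hn⟩ := exists_n1 hyp g ⟨_, hm⟩
  rw [qt_iff1 hyp hq g n hn, qt_pair hq g n m hn hm]

include hyp in
theorem qt_E01 (hq : ∀ x ∈ edgeSet R, ∀ s ∈ S, x * s ∈ edgeSet R → (q x ↔ q (x * s)))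
    (g : G) (hv : ∃ x, R (col g 0) x) : qt R q g ↔ qt R q (g * E 0 1 1) := by
  obtain ⟨n, hn⟩ := exists_n1 hyp g hv
  rw [qt_iff1 hyp hq g n hn, qt_iff1 hyp hq (g * E 0 1 1) (n - 1)]
  · rw [mul_assoc, E_mul_E h01, add_sub_cancel]
  · rw [col_mul_E_ne h01 h01, col_mul_E_same h01, add_assoc, ← add_smul, add_sub_cancel]
    exact hn

include hyp in
theorem qt_E02 (hq : ∀ x ∈ edgeSet R, ∀ s ∈ S, x * s ∈ edgeSet R → (q x ↔ q (x * s)))
    (g : G) (hv : ∃ x, R (col g 0) x) : qt R q g ↔ qt R q (g * E 0 2 1) := by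
  obtain ⟨n, hn⟩ := exists_n2 hyp g hv
  rw [qt_iff2 hyp hq g n hn, qt_iff2 hyp hq (g * E 0 2 1) (n - 1)]
  · rw [mul_assoc, E_mul_E h02, add_sub_cancel]
  · rw [col_mul_E_ne h02 h02, col_mul_E_same h02, add_assoc, ← add_smul, add_sub_cancel]
    exact hn

include hyp in
theorem qt_E12 (hq : ∀ x ∈ edgeSet R, ∀ s ∈ S, x * s ∈ edgeSet R → (q x ↔ q (x * s)))
    (g : G) (hv : ∃ x, R (col g 0) x) : qt R q g ↔ qt R q (g * E 1 2 1) := by
  obtain ⟨n, hn⟩ := exists_n1 hyp g hv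
  rw [qt_iff1 hyp hq g n hn, qt_iff1 hyp hq (g * E 1 2 1) n]
  · have h1 := line_move hq (k := 0) (l := 1) (j := 2) (a := 1) h01 h02 h12 h12 (g * E 0 1 n)
      (by rw [col_mul_E_ne h01 h01, col_mul_E_same h01]; exact hn) 1
    have h2 := line_move hq (k := 0) (l := 1) (j := 2) (a := 0) h01 h02 h12 h02
      (g * E 1 2 1 * E 0 1 n)
      (by rw [col_mul_E_ne h01 h01, col_mul_E_same h01, col_mul_E_ne h12 h02,
            col_mul_E_ne h12 h12]; exact hn) n
    have h3 : g * E 0 1 n * E 1 2 1 = g * E 1 2 1 * E 0 1 n * E 0 2 n := by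
      rw [mul_assoc, E_heis h01 h12 h02 n 1, mul_one]
      simp only [mul_assoc]
    rw [h1, h2, h3]
  · rw [col_mul_E_ne h12 h02, col_mul_E_ne h12 h12]
    exact hn

include hyp in
theorem qt_E21 (hq : ∀ x ∈ edgeSet R, ∀ s ∈ S, x * s ∈ edgeSet R → (q x ↔ q (x * s)))
    (g : G) (hv : ∃ x, R (col g 0) x) : qt R q g ↔ qt R q (g * E 2 1 1) := by
  obtain ⟨n, hn⟩ := exists_n2 hyp g hv
  rw [qt_iff2 hyp hq g n hn, qt_iff2 hyp hq (g * E 2 1 1) n]
  · have h1 := line_move hq (k := 0) (l := 2) (j := 1) (a := 2) h02 h01 h12.symm h12.symm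
      (g * E 0 2 n)
      (by rw [col_mul_E_ne h02 h02, col_mul_E_same h02]; exact hn) 1
    have h2 := line_move hq (k := 0) (l := 2) (j := 1) (a := 0) h02 h01 h12.symm h01
      (g * E 2 1 1 * E 0 2 n)
      (by rw [col_mul_E_ne h02 h02, col_mul_E_same h02, col_mul_E_ne h12.symm h01,
            col_mul_E_ne h12.symm h12.symm]; exact hn) n
    have h3 : g * E 0 2 n * E 2 1 1 = g * E 2 1 1 * E 0 2 n * E 0 1 n := by
      rw [mul_assoc, E_heis h02 h12.symm h01 n 1, mul_one]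
      simp only [mul_assoc]
    rw [h1, h2, h3]
  · rw [col_mul_E_ne h12.symm h01, col_mul_E_ne h12.symm h12.symm]
    exact hn

theorem col_zero_closure (p : G)
    (hp : p ∈ Subgroup.closure ({E 0 1 1, E 0 2 1, E 1 2 1, E 2 1 1} : Set G)) :
    ∀ g : G, col (g * p) 0 = col g 0 := by
  induction hp using Subgroup.closure_induction with
  | mem x hx =>
    intro g
    rcases hx with rfl | rfl | rfl | rfl
    · exact col_mul_E_ne h01 h01 g 1
    · exact col_mul_E_ne h02 h02 g 1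
    · exact col_mul_E_ne h12 h02 g 1
    · exact col_mul_E_ne h12.symm h01 g 1
  | one => intro g; rw [mul_one]
  | mul x y _ _ hx hy => intro g; rw [← mul_assoc, hy, hx]
  | inv x _ hx =>
    intro g
    have := hx (g * x⁻¹)
    rw [inv_mul_cancel_right] at this
    exact this.symm

include hyp in
theorem qt_closure (hq : ∀ x ∈ edgeSet R, ∀ s ∈ S, x * s ∈ edgeSet R → (q x ↔ q (x * s)))
    (p : G) (hp : p ∈ Subgroup.closure ({E 0 1 1, E 0 2 1, E 1 2 1, E 2 1 1} : Set G)) :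
    ∀ g : G, (∃ x, R (col g 0) x) → (qt R q g ↔ qt R q (g * p)) := by
  induction hp using Subgroup.closure_induction with
  | mem x hx =>
    intro g hg
    rcases hx with rfl | rfl | rfl | rfl
    · exact qt_E01 hyp hq g hg
    · exact qt_E02 hyp hq g hg
    · exact qt_E12 hyp hq g hg
    · exact qt_E21 hyp hq g hg
  | one => intro g _; rw [mul_one]
  | mul x y hx' hy' hx hy =>
    intro g hg
    rw [← mul_assoc, hx g hg, hy (g * x) (by rw [col_zero_closure x hx' g]; exact hg)]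
  | inv x hx' hx =>
    intro g hg
    have h1 := col_zero_closure x⁻¹ (Subgroup.inv_mem _ hx') g
    have := hx (g * x⁻¹) (by rw [h1]; exact hg)
    rw [inv_mul_cancel_right] at this
    exact this.symm

include hyp in
theorem q_same_vertex (hq : ∀ x ∈ edgeSet R, ∀ s ∈ S, x * s ∈ edgeSet R → (q x ↔ q (x * s)))
    (g h : G) (hgh : col g 0 = col h 0) (hg : R (col g 0) (col g 1) ∨ R (col g 0) (col g 2))
    (hh : R (col h 0) (col h 1) ∨ R (col h 0) (col h 2)) : q g ↔ q h := by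
  have key : ∀ g : G, (R (col g 0) (col g 1) ∨ R (col g 0) (col g 2)) → (q g ↔ qt R q g) := by
    intro g hg
    rcases hg with hg | hg
    · rw [qt_iff1 hyp hq g 0 (by rw [zero_smul, add_zero]; exact hg), E_zero, mul_one]
    · rw [qt_iff2 hyp hq g 0 (by rw [zero_smul, add_zero]; exact hg), E_zero, mul_one]
  rw [key g hg, key h hh]
  have hp : g⁻¹ * h ∈ Subgroup.closure ({E 0 1 1, E 0 2 1, E 1 2 1, E 2 1 1} : Set G) := by
    apply stab_gen
    rw [col_mul_vec, ← hgh, ← col_mul_vec, inv_mul_cancel]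
  have := qt_closure hyp hq _ hp g (by
    rcases hg with hg | hg
    · exact ⟨_, hg⟩
    · exact ⟨_, hg⟩)
  rw [mul_inv_cancel_left] at this
  exact this

include hsymm hyp in
theorem q_first_edge (hq : ∀ x ∈ edgeSet R, ∀ s ∈ S, x * s ∈ edgeSet R → (q x ↔ q (x * s)))
    (g h : G) (hg : R (col g 0) (col g 1)) (hh : R (col h 0) (col h 1)) : q g ↔ q h := by
  obtain ⟨g', B, a, e, h1, h2, h3, h4⟩ := link_lemma g h
  have hB : col h 0 = a • col g' 0 + e • col g' 1 := by rw [← h4, h2]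
  obtain ⟨n, hn1, hn2⟩ := hyp (col g 0) (col h 0) (col g' 2) ⟨_, hg⟩ ⟨_, hh⟩ (by
    intro x y d hd
    rw [hB, ← h1] at hd
    have := col_indep g' (x + y * a) (y * e) d (by
      rw [← hd, smul_add, add_smul, smul_smul, smul_smul]
      abel)
    exact this.2.2)
  have c0 : col (g' * E 0 2 n) 0 = col g 0 := by rw [col_mul_E_ne h02 h02, h1]
  have c2 : col (g' * E 0 2 n) 2 = col g' 2 + n • col g 0 := by rw [col_mul_E_same h02, h1]
  have d0 : col (g' * E 0 2 n * B) 0 = col h 0 := by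
    rw [h2, hB, col_mul_E_ne h02 h02, col_mul_E_ne h02 h12]
  have d2 : col (g' * E 0 2 n * B) 2 = col g' 2 + n • col g 0 := by rw [h3, c2]
  have r1 : R (col (g' * E 0 2 n) 0) (col (g' * E 0 2 n) 2) := by
    rw [c0, c2]
    exact hn1
  have r2 : R (col (g' * E 0 2 n * B) 0) (col (g' * E 0 2 n * B) 2) := by
    rw [d0, d2]
    exact hn2
  -- chain
  have s1 : q g ↔ q (g' * E 0 2 n) := q_same_vertex hyp hq _ _ c0.symm (Or.inl hg) (Or.inr r1)
  have s2 : q h ↔ q (g' * E 0 2 n * B) :=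
    q_same_vertex hyp hq _ _ d0.symm (Or.inl hh) (Or.inr r2)
  have s3 : q (g' * E 0 2 n) ↔ q (g' * E 0 2 n * rot) :=
    hq _ ⟨0, 2, h02, r1⟩ _ rot_mem_S ⟨0, 1, h01, by
      rw [col_rot_zero, col_rot_one]; exact hsymm _ _ r1⟩
  have s4 : q (g' * E 0 2 n * B) ↔ q (g' * E 0 2 n * B * rot) :=
    hq _ ⟨0, 2, h02, r2⟩ _ rot_mem_S ⟨0, 1, h01, by
      rw [col_rot_zero, col_rot_one]; exact hsymm _ _ r2⟩
  have s5 : q (g' * E 0 2 n * rot) ↔ q (g' * E 0 2 n * B * rot) := by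
    apply q_same_vertex hyp hq
    · rw [col_rot_zero, col_rot_zero, c2, d2]
    · left
      rw [col_rot_zero, col_rot_one]
      exact hsymm _ _ r1
    · left
      rw [col_rot_zero, col_rot_one]
      exact hsymm _ _ r2
  rw [s1, s2, s3, s4, s5]

include hsymm in
theorem exists_first_edge
    (hq : ∀ x ∈ edgeSet R, ∀ s ∈ S, x * s ∈ edgeSet R → (q x ↔ q (x * s)))
    (g : G) (hg : g ∈ edgeSet R) :
    ∃ g', R (col g' 0) (col g' 1) ∧ (q g ↔ q g') := by
  have main : R (col g 0) (col g 1) ∨ R (col g 1) (col g 2) ∨ R (col g 2) (col g 0) := by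
    obtain ⟨i, j, hij, h⟩ := hg
    fin_cases i <;> fin_cases j
    · exact absurd rfl hij
    · exact Or.inl h
    · exact Or.inr (Or.inr (hsymm _ _ h))
    · exact Or.inl (hsymm _ _ h)
    · exact absurd rfl hij
    · exact Or.inr (Or.inl h)
    · exact Or.inr (Or.inr h)
    · exact Or.inr (Or.inl (hsymm _ _ h))
    · exact absurd rfl hij
  rcases main with h | h | h
  · exact ⟨g, h, Iff.rfl⟩
  · have m1 : g * rot ∈ edgeSet R := ⟨2, 0, h02.symm, by rw [col_rot_two, col_rot_zero]; exact h⟩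
    have r : R (col (g * rot * rot) 0) (col (g * rot * rot) 1) := by
      rw [col_rot_zero, col_rot_one, col_rot_two, col_rot_zero]
      exact h
    refine ⟨g * rot * rot, r, ?_⟩
    rw [hq g hg _ rot_mem_S m1, hq _ m1 _ rot_mem_S ⟨0, 1, h01, r⟩]
  · have r : R (col (g * rot) 0) (col (g * rot) 1) := by
      rw [col_rot_zero, col_rot_one]
      exact h
    exact ⟨g * rot, r, hq g hg _ rot_mem_S ⟨0, 1, h01, r⟩⟩

end

/-- Unions of planes over a rich set of edges are connected. -/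
theorem conn_edgeSet (R : (Fin 3 → ℤ) → (Fin 3 → ℤ) → Prop) (hsymm : ∀ v w, R v w → R w v)
    (hyp : ∀ v w c : Fin 3 → ℤ, (∃ x, R v x) → (∃ x, R w x) →
      (∀ a b d : ℤ, a • v + b • w + d • c = 0 → d = 0) →
      ∃ n : ℤ, R v (c + n • v) ∧ R w (c + n • v)) :
    ConnS (edgeSet R) := by
  intro q hq x hx y hy hqx
  obtain ⟨x', hx', h1⟩ := exists_first_edge hsymm hq x hx
  obtain ⟨y', hy', h2⟩ := exists_first_edge hsymm hq y hy
  rw [h2, ← q_first_edge hsymm hyp hq x' y' hx' hy', ← h1]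
  exact hqx

end Pool.Agent.IRP
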