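import Pool.Agent.H.MP_8fbdb2_pr.Basic

/-!
Definitions for MP_8fbdb2_pr: connectedness of sets, unions of planes, thickenings and the
partition.
-/

set_option autoImplicit false

namespace Pool.Agent.IRP

open Pointwise

/-- `A` is connected with respect to right multiplication by elements of `S`
(no nontrivial locally constant predicate). -/
def ConnS (A : Set G) : Prop :=
  ∀ q : G → Prop, (∀ x ∈ A, ∀ s ∈ S, x * s ∈ A → (q x ↔ q (x * s))) →
    ∀ x ∈ A, ∀ y ∈ A, q x → q y

/-- Elements having two distinct columns related by `R`. -/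
def edgeSet (R : (Fin 3 → ℤ) → (Fin 3 → ℤ) → Prop) : Set G :=
  {g | ∃ i j, i ≠ j ∧ R (col g i) (col g j)}

/-- The thickened union of the `U0 m`, `m ≥ k`. -/
def thick (U0 : ℕ → Set G) (k : ℕ) : Set G :=
  {g | ∃ m, k ≤ m ∧ ∃ y ∈ U0 m, ∃ b ∈ S ^ (m - k), g = y * b}

/-- Elements reachable from `M` in at most `n` steps outside of `thick U0 k`. -/
def reach (M : Set G) (U0 : ℕ → Set G) (k : ℕ) : ℕ → Set G
  | 0 => M
  | n + 1 => {g | g ∈ reach M U0 k n ∨ (g ∉ thick U0 k ∧ ∃ s ∈ S, g * s ∈ reach M U0 k n)}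

/-- The component of the complement of `thick U0 k` containing `M`. -/
def comp (M : Set G) (U0 : ℕ → Set G) (k : ℕ) : Set G :=
  {g | ∃ n, g ∈ reach M U0 k n}

open Classical in
/-- The partition, as an equivalence relation. -/
noncomputable def part (M : Set G) (U0 : ℕ → Set G) (g h : G) : Bool :=
  decide (∀ k, g ∈ comp M U0 k ↔ h ∈ comp M U0 k)

/-- The Cayley graph. -/
abbrev cay : SimpleGraph G := SimpleGraph.fromRel (fun a b : G => a⁻¹ * b ∈ S)

/-- Countably quantified form of the properties required of the partition. -/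
def Nice (r : G → G → Bool) : Prop :=
  (∀ g, r g g = true) ∧ (∀ g h, r g h = true → r h g = true) ∧
  (∀ g h l, r g h = true → r h l = true → r g l = true) ∧
  (∀ F : Finset G, ∃ g, ∀ x ∈ F, r x g = false) ∧
  (∀ g, ∀ F : Finset G, ∃ h, h ∉ F ∧ r g h = true) ∧
  (∀ g h, r g h = true → ∃ F : Finset G, (cay.induce (F : Set G)).Preconnected ∧
    g ∈ F ∧ h ∈ F ∧ ∀ x ∈ F, r g x = true) ∧
  (∀ g, ∃ F : Finset G, ∀ x y, r g x = true → cay.Adj x y → ∃ z ∈ F, r z y = true)

end Pool.Agent.IRP
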