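import Pool.Agent.H.MP_8fbdb2_pr.Basic

set_option autoImplicit false

namespace Pool.Agent.IRP

section Abstract

variable {Γ : Type*} [Group Γ]

/-- Sum of `w` along `n` steps in direction `s` starting at `g`. -/
def lsum (w : Γ → ℤ) (s : Γ) (g : Γ) (n : ℕ) : ℤ := ∑ t ∈ Finset.range n, w (g * s ^ t)

theorem lsum_zero (w : Γ → ℤ) (s g : Γ) : lsum w s g 0 = 0 := by
  unfold lsum
  simp

theorem lsum_succ (w : Γ → ℤ) (s g : Γ) (n : ℕ) :
    lsum w s g (n + 1) = lsum w s g n + w (g * s ^ n) := by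
  unfold lsum
  rw [Finset.sum_range_succ]

theorem lsum_one (w : Γ → ℤ) (s g : Γ) : lsum w s g 1 = w g := by
  rw [lsum_succ, lsum_zero, pow_zero, mul_one, zero_add]

theorem lsum_add (w : Γ → ℤ) (s g : Γ) (m n : ℕ) :
    lsum w s g (m + n) = lsum w s g m + lsum w s (g * s ^ m) n := by
  induction n with
  | zero => rw [add_zero, lsum_zero, add_zero]
  | succ n ih => rw [← add_assoc, lsum_succ, ih, lsum_succ, pow_add, mul_assoc, add_assoc]

/-- strip for commuting directions -/
theorem strip_comm (w w' : Γ → ℤ) (s s' : Γ) (hc : s * s' = s' * s)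
    (h : ∀ g, w g + w' (g * s) = w' g + w (g * s')) (g : Γ) (n : ℕ) :
    w g + lsum w' s' (g * s) n = lsum w' s' g n + w (g * s' ^ n) := by
  induction n with
  | zero => rw [lsum_zero, lsum_zero, pow_zero, mul_one, add_zero, zero_add]
  | succ n ih =>
    have h1 := h (g * s' ^ n)
    have h2 : g * s * s' ^ n = g * s' ^ n * s := by
      rw [mul_assoc, mul_assoc]
      congr 1
      exact (Commute.pow_right (show Commute s s' from hc) n)
    have h3 : g * s' ^ n * s' = g * s' ^ (n + 1) := by rw [pow_succ, mul_assoc]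
    rw [lsum_succ, lsum_succ, h2]
    rw [h3] at h1
    linarith

/-- rectangle for commuting directions -/
theorem rect_comm (w w' : Γ → ℤ) (s s' : Γ) (hc : s * s' = s' * s)
    (h : ∀ g, w g + w' (g * s) = w' g + w (g * s')) (g : Γ) (a b : ℕ) :
    lsum w s g a + lsum w' s' (g * s ^ a) b = lsum w' s' g b + lsum w s (g * s' ^ b) a := by
  induction a with
  | zero => rw [lsum_zero, lsum_zero, pow_zero, mul_one, add_zero, zero_add]
  | succ a ih =>
    have h1 := strip_comm w w' s s' hc h (g * s ^ a) b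
    have h2 : g * s ^ a * s' ^ b = g * s' ^ b * s ^ a := by
      rw [mul_assoc, mul_assoc]
      congr 1
      exact ((Commute.pow_pow (show Commute s s' from hc) a b))
    have h3 : g * s ^ (a + 1) = g * s ^ a * s := by rw [pow_succ, mul_assoc]
    rw [lsum_succ, lsum_succ, h3]
    rw [h2] at h1
    linarith

variable (x y z : Γ) (wx wy wz : Γ → ℤ)

theorem heis_pow (hxy : x * y = y * x * z) (hyz : y * z = z * y) (n : ℕ) :
    x * y ^ n = y ^ n * x * z ^ n := by
  induction n with
  | zero => simp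
  | succ n ih =>
    have h1 : z ^ n * y = y * z ^ n := (Commute.pow_right (show Commute y z from hyz) n).symm
    calc x * y ^ (n + 1) = x * y ^ n * y := by rw [pow_succ, mul_assoc]
      _ = y ^ n * x * (z ^ n * y) := by rw [ih, mul_assoc]
      _ = y ^ n * (x * y) * z ^ n := by rw [h1, mul_assoc, mul_assoc, mul_assoc]
      _ = y ^ (n + 1) * x * z ^ (n + 1) := by
        rw [hxy, pow_succ, pow_succ']
        simp only [mul_assoc]

theorem heis_pow_pow (hxy : x * y = y * x * z) (hyz : y * z = z * y) (hxz : x * z = z * x)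
    (a n : ℕ) : x ^ a * y ^ n = y ^ n * x ^ a * z ^ (a * n) := by
  induction a with
  | zero => simp
  | succ a ih =>
    have h1 : x * z ^ (a * n) = z ^ (a * n) * x := (Commute.pow_right (show Commute x z from hxz) _)
    calc x ^ (a + 1) * y ^ n = x * (x ^ a * y ^ n) := by rw [pow_succ', mul_assoc]
      _ = (x * y ^ n) * (x ^ a * z ^ (a * n)) := by rw [ih]; simp only [mul_assoc]
      _ = y ^ n * x * (z ^ n * (x ^ a * z ^ (a * n))) := by
        rw [heis_pow x y z hxy hyz n]; simp only [mul_assoc]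
      _ = y ^ n * x * (x ^ a * z ^ (n + a * n)) := by
        congr 1
        rw [← mul_assoc, (Commute.pow_pow (show Commute x z from hxz) a n).symm.eq, mul_assoc,
          ← pow_add]
      _ = y ^ n * x ^ (a + 1) * z ^ ((a + 1) * n) := by
        rw [show n + a * n = (a + 1) * n by ring, pow_succ']
        simp only [mul_assoc]

theorem heis_strip (hxy : x * y = y * x * z) (hyz : y * z = z * y)
    (h : ∀ g, wx g + wy (g * x) = wy g + wx (g * y) + wz (g * y * x))
    (hcyz : ∀ g, wy g + wz (g * y) = wz g + wy (g * z)) (g : Γ) (n : ℕ) :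
    wx g + lsum wy y (g * x) n = lsum wy y g n + wx (g * y ^ n) + lsum wz z (g * y ^ n * x) n := by
  induction n with
  | zero => simp [lsum_zero]
  | succ n ih =>
    have h1 := h (g * y ^ n)
    have h2 := strip_comm wy wz y z hyz hcyz (g * y ^ n * x) n
    have e1 : g * x * y ^ n = g * y ^ n * x * z ^ n := by
      rw [mul_assoc, heis_pow x y z hxy hyz n]
      simp only [mul_assoc]
    have e2 : g * y ^ n * x * y = g * y ^ (n + 1) * x * z := by
      rw [pow_succ]
      rw [mul_assoc (g * y ^ n), hxy]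
      simp only [mul_assoc]
    have e3 : g * y ^ n * y = g * y ^ (n + 1) := by rw [pow_succ, mul_assoc]
    have h3 : lsum wz z (g * y ^ (n + 1) * x) (n + 1) =
        wz (g * y ^ (n + 1) * x) + lsum wz z (g * y ^ (n + 1) * x * z) n := by
      rw [add_comm n 1, lsum_add, lsum_one, pow_one]
    rw [lsum_succ, lsum_succ, h3, e1]
    rw [e2] at h2
    rw [e3] at h1
    linarith

/-- the Heisenberg rectangle -/
theorem heis_rect (hxy : x * y = y * x * z) (hyz : y * z = z * y) (hxz : x * z = z * x)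
    (h : ∀ g, wx g + wy (g * x) = wy g + wx (g * y) + wz (g * y * x))
    (hcyz : ∀ g, wy g + wz (g * y) = wz g + wy (g * z))
    (hcxz : ∀ g, wx g + wz (g * x) = wz g + wx (g * z)) (g : Γ) (a n : ℕ) :
    lsum wy y g n + lsum wx x (g * y ^ n) a + lsum wz z (g * y ^ n * x ^ a) (a * n) =
      lsum wx x g a + lsum wy y (g * x ^ a) n := by
  induction a with
  | zero => simp [lsum_zero]
  | succ a ih =>
    have h1 := heis_strip x y z wx wy wz hxy hyz h hcyz (g * x ^ a) n
    have e1 : g * x ^ a * y ^ n = g * y ^ n * x ^ a * z ^ (a * n) := by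
      rw [mul_assoc, heis_pow_pow x y z hxy hyz hxz a n]
      simp only [mul_assoc]
    have h2 := strip_comm wx wz x z hxz hcxz (g * y ^ n * x ^ a) (a * n)
    have e2 : g * x ^ a * y ^ n * x = g * y ^ n * x ^ a * x * z ^ (a * n) := by
      rw [e1, mul_assoc, mul_assoc (g * y ^ n * x ^ a)]
      congr 1
      exact (Commute.pow_right (show Commute x z from hxz) (a * n)).symm
    have e3 : g * x ^ a * x = g * x ^ (a + 1) := by rw [pow_succ, mul_assoc]
    have e4 : g * y ^ n * x ^ a * x = g * y ^ n * x ^ (a + 1) := by rw [pow_succ, mul_assoc]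
    have h3 : lsum wz z (g * y ^ n * x ^ (a + 1)) ((a + 1) * n) =
        lsum wz z (g * y ^ n * x ^ (a + 1)) (a * n) +
          lsum wz z (g * y ^ n * x ^ (a + 1) * z ^ (a * n)) n := by
      rw [← lsum_add]
      congr 1
      ring
    rw [e2, e1, e3, e4] at h1
    rw [e4] at h2
    rw [lsum_succ, lsum_succ, h3]
    linarith

/-- A potential on `Z` along a line inside `Z`. -/
theorem pot_line (Z : Set Γ) (f0 : Γ → ℤ) (w : Γ → ℤ) (s : Γ)
    (hf : ∀ g ∈ Z, g * s ∈ Z → f0 (g * s) - f0 g = w g) (g : Γ) (n : ℕ)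
    (hZ : ∀ t ≤ n, g * s ^ t ∈ Z) : f0 (g * s ^ n) = f0 g + lsum w s g n := by
  induction n with
  | zero => simp [lsum_zero]
  | succ n ih =>
    have h1 := ih (fun t ht => hZ t (by omega))
    have h2 := hf (g * s ^ n) (hZ n (by omega)) (by
      have := hZ (n + 1) le_rfl
      rwa [pow_succ, ← mul_assoc] at this)
    have h3 : g * s ^ (n + 1) = g * s ^ n * s := by rw [pow_succ, mul_assoc]
    rw [h3, lsum_succ]
    linarith

end Abstract

/-- Data of the extension lemma. -/
structure Ext (p : ℕ) [Fact p.Prime] where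
  χ : (Fin 3 → ℤ) →+ ZMod p
  w : Fin 3 → Fin 3 → G → ℤ
  hC1 : ∀ i j k : Fin 3, i ≠ j → j ≠ k → i ≠ k → ∀ g,
      w i j g + w i k (g * E i j 1) = w i k g + w i j (g * E i k 1)
  hC2 : ∀ i j k : Fin 3, i ≠ j → j ≠ k → i ≠ k → ∀ g,
      w i j g + w k j (g * E i j 1) = w k j g + w i j (g * E k j 1)
  hH : ∀ i j k : Fin 3, i ≠ j → j ≠ k → i ≠ k → ∀ g,
      w i j g + w j k (g * E i j 1) =
        w j k g + w i j (g * E j k 1) + w i k (g * E j k 1 * E i j 1)
  A : ZMod p → Prop
  hA0 : ∀ x, A x → x ≠ 0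
  hA1 : ∀ x y, A y → A (y + x) → ¬ A x → x = 0
  Z : Set G
  f0 : G → ℤ
  hf0 : ∀ g ∈ Z, ∀ i j : Fin 3, i ≠ j → g * E i j 1 ∈ Z →
      f0 (g * E i j 1) - f0 g = w i j g
  hZ : ∀ (g : G) (i j : Fin 3), i ≠ j → A (χ (col g i)) → χ (col g j) = 1 → g ∈ Z

namespace Ext

variable {p : ℕ} [Fact p.Prime] (D : Ext p)

/-- the state -/
def st (g : G) (l : Fin 3) : ZMod p := D.χ (col g l)

theorem st_same {i j : Fin 3} (h : i ≠ j) (g : G) (n : ℕ) :
    D.st (g * (E i j 1) ^ n) j = D.st g j + n * D.st g i := by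
  unfold st
  rw [E_pow h, col_mul_E_same h, map_add, map_zsmul, zsmul_eq_mul]
  simp

theorem st_ne {i j k : Fin 3} (h : i ≠ j) (hk : k ≠ j) (g : G) (n : ℕ) :
    D.st (g * (E i j 1) ^ n) k = D.st g k := by
  unfold st
  rw [E_pow h, col_mul_E_ne h hk]

theorem st_same1 {i j : Fin 3} (h : i ≠ j) (g : G) :
    D.st (g * E i j 1) j = D.st g j + D.st g i := by
  have := D.st_same h g 1
  simpa using this

theorem st_ne1 {i j k : Fin 3} (h : i ≠ j) (hk : k ≠ j) (g : G) :
    D.st (g * E i j 1) k = D.st g k := by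
  have := D.st_ne h hk g 1
  simpa using this

theorem mem_Z {g : G} {i j : Fin 3} (h : i ≠ j) (hi : D.A (D.st g i)) (hj : D.st g j = 1) :
    g ∈ D.Z := D.hZ g i j h hi hj

theorem exists_valid {g : G} {i : Fin 3} (hi : D.A (D.st g i)) (j : Fin 3) :
    ∃ n : ℕ, D.st g j + n * D.st g i = 1 := by
  have h0 := D.hA0 _ hi
  haveI : NeZero p := ⟨(Fact.out : p.Prime).ne_zero⟩
  refine ⟨((1 - D.st g j) / D.st g i).val, ?_⟩
  rw [ZMod.natCast_zmod_val, div_mul_cancel₀ _ h0]
  ring

/-- the candidate value -/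
def val (i j : Fin 3) (n : ℕ) (g : G) : ℤ :=
  D.f0 (g * (E i j 1) ^ n) - lsum (D.w i j) (E i j 1) g n

theorem comm_source {i j k : Fin 3} (hij : i ≠ j) (hik : i ≠ k) (hjk : j ≠ k) :
    E i j 1 * E i k 1 = E i k 1 * E i j 1 := E_comm_source hij hik hjk 1 1

theorem comm_target {i j k : Fin 3} (hij : i ≠ j) (hkj : k ≠ j) :
    E i j 1 * E k j 1 = E k j 1 * E i j 1 := E_comm_target hij hkj 1 1

theorem heis {i j k : Fin 3} (hij : i ≠ j) (hjk : j ≠ k) (hik : i ≠ k) :
    E i j 1 * E j k 1 = E j k 1 * E i j 1 * E i k 1 := by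
  have := E_heis hij hjk hik 1 1
  rwa [mul_one] at this

theorem W {g : G} {i j k : Fin 3} (hij : i ≠ j) (hik : i ≠ k) (hjk : j ≠ k)
    (hi : D.A (D.st g i)) {n m : ℕ} (hn : D.st g j + n * D.st g i = 1)
    (hm : D.st g k + m * D.st g i = 1) : D.val i j n g = D.val i k m g := by
  have h1 := pot_line D.Z D.f0 (D.w i k) (E i k 1)
    (fun g hg hg' => D.hf0 g hg i k hik hg') (g * (E i j 1) ^ n) m (by
      intro t _
      apply D.mem_Z hij
      · rw [D.st_ne hik hik, D.st_ne hij hij]
        exact hi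
      · rw [D.st_ne hik hjk, D.st_same hij]
        exact hn)
  have h2 := pot_line D.Z D.f0 (D.w i j) (E i j 1)
    (fun g hg hg' => D.hf0 g hg i j hij hg') (g * (E i k 1) ^ m) n (by
      intro t _
      apply D.mem_Z hik
      · rw [D.st_ne hij hij, D.st_ne hik hik]
        exact hi
      · rw [D.st_ne hij hjk.symm, D.st_same hik]
        exact hm)
  have h3 := rect_comm (D.w i j) (D.w i k) (E i j 1) (E i k 1) (comm_source hij hik hjk)
    (D.hC1 i j k hij hjk hik) g n m
  have h4 : g * (E i j 1) ^ n * (E i k 1) ^ m = g * (E i k 1) ^ m * (E i j 1) ^ n := by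
    rw [mul_assoc, mul_assoc]
    congr 1
    exact Commute.pow_pow (show Commute _ _ from comm_source hij hik hjk) n m
  rw [h4] at h1
  unfold val
  linarith

theorem W' {g : G} {i j k : Fin 3} (hij : i ≠ j) (hik : i ≠ k)
    (hi : D.A (D.st g i)) {n m : ℕ} (hn : D.st g j + n * D.st g i = 1)
    (hm : D.st g k + m * D.st g i = 1) : D.val i j n g = D.val i k m g := by
  by_cases hjk : j = k
  · subst hjk
    obtain ⟨l, hl1, hl2⟩ := exists_third i j hij
    obtain ⟨t, ht⟩ := D.exists_valid hi l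
    rw [D.W hij hl2 hl1 hi hn ht, D.W hij hl2 hl1 hi hm ht]
  · exact D.W hij hik hjk hi hn hm

theorem W2 {g : G} {i j k : Fin 3} (hij : i ≠ j) (hjk : j ≠ k) (hik : i ≠ k)
    (hi : D.A (D.st g i)) {a n : ℕ}
    (ha : D.st g j + a * D.st g i = 1) (hn : D.st g k + n * D.st g j = 1) :
    D.val i j a g = D.val j k n g := by
  have hr := heis_rect (E i j 1) (E j k 1) (E i k 1) (D.w i j) (D.w j k) (D.w i k)
    (heis hij hjk hik) (comm_target hjk hik) (comm_source hij hik hjk)
    (D.hH i j k hij hjk hik) (D.hC2 j k i hjk hik.symm hij.symm) (D.hC1 i j k hij hjk hik) g a n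
  have e1 : g * (E i j 1) ^ a * (E j k 1) ^ n =
      g * (E j k 1) ^ n * (E i j 1) ^ a * (E i k 1) ^ (a * n) := by
    rw [mul_assoc, heis_pow_pow (E i j 1) (E j k 1) (E i k 1) (heis hij hjk hik)
      (comm_target hjk hik) (comm_source hij hik hjk) a n]
    simp only [mul_assoc]
  -- along `E i j` from `g y^n`
  have h1 := pot_line D.Z D.f0 (D.w i j) (E i j 1)
    (fun g hg hg' => D.hf0 g hg i j hij hg') (g * (E j k 1) ^ n) a (by
      intro t _
      apply D.mem_Z hik
      · rw [D.st_ne hij hij, D.st_ne hjk hik]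
        exact hi
      · rw [D.st_ne hij hjk.symm, D.st_same hjk]
        exact hn)
  have h2 := pot_line D.Z D.f0 (D.w i k) (E i k 1)
    (fun g hg hg' => D.hf0 g hg i k hik hg') (g * (E j k 1) ^ n * (E i j 1) ^ a) (a * n) (by
      intro t _
      apply D.mem_Z hij
      · rw [D.st_ne hik hik, D.st_ne hij hij, D.st_ne hjk hik]
        exact hi
      · rw [D.st_ne hik hjk, D.st_same hij, D.st_ne hjk hjk, D.st_ne hjk hik]
        exact ha)
  have h3 := pot_line D.Z D.f0 (D.w j k) (E j k 1)
    (fun g hg hg' => D.hf0 g hg j k hjk hg') (g * (E i j 1) ^ a) n (by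
      intro t _
      apply D.mem_Z hij
      · rw [D.st_ne hjk hik, D.st_ne hij hij]
        exact hi
      · rw [D.st_ne hjk hjk, D.st_same hij]
        exact ha)
  rw [e1] at h3
  unfold val
  linarith

/-- `v` is an admissible value at `g`. -/
def IsV (g : G) (v : ℤ) : Prop :=
  ∃ (i j : Fin 3) (n : ℕ), i ≠ j ∧ D.A (D.st g i) ∧ D.st g j + n * D.st g i = 1 ∧
    v = D.val i j n g

theorem IsV_unique {g : G} {v v' : ℤ} (h : D.IsV g v) (h' : D.IsV g v') : v = v' := by
  obtain ⟨i, j, n, hij, hi, hn, rfl⟩ := h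
  obtain ⟨i', j', n', hij', hi', hn', rfl⟩ := h'
  by_cases hii : i = i'
  · subst hii
    exact D.W' hij hij' hi hn hn'
  · obtain ⟨k, hk1, hk2⟩ := exists_third i i' hii
    obtain ⟨a, ha⟩ := D.exists_valid hi i'
    obtain ⟨m, hm⟩ := D.exists_valid hi' k
    rw [D.W' hij hii hi hn ha, D.W' hij' hk1 hi' hn' hm]
    exact D.W2 hii hk1 hk2 hi ha hm

theorem IsV_exists {g : G} (h : ∃ l, D.A (D.st g l)) : ∃ v, D.IsV g v := by
  obtain ⟨i, hi⟩ := h
  obtain ⟨j, hij⟩ := exists_other i
  obtain ⟨n, hn⟩ := D.exists_valid hi j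
  exact ⟨_, i, j, n, hij, hi, hn, rfl⟩

theorem IsV_of_one {g : G} {i j : Fin 3} (hij : i ≠ j) (hi : D.A (D.st g i))
    (hj : D.st g j = 1) : D.IsV g (D.f0 g) := by
  refine ⟨i, j, 0, hij, hi, by simpa using hj, ?_⟩
  unfold val
  rw [lsum_zero, pow_zero, mul_one, sub_zero]

theorem IsV_step {g : G} {i j : Fin 3} (hij : i ≠ j) (h : ∃ l, D.A (D.st g l))
    (h' : ∃ l, D.A (D.st (g * E i j 1) l)) :
    ∃ v v', D.IsV g v ∧ D.IsV (g * E i j 1) v' ∧ v' - v = D.w i j g := by
  obtain ⟨k, hjk, hik⟩ := exists_third i j hij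
  by_cases hi : D.A (D.st g i)
  · -- case a
    obtain ⟨m, hm⟩ := D.exists_valid hi k
    refine ⟨D.val i k m g, D.val i k m (g * E i j 1), ⟨i, k, m, hik, hi, hm, rfl⟩,
      ⟨i, k, m, hik, ?_, ?_, rfl⟩, ?_⟩
    · rw [D.st_ne1 hij hij]
      exact hi
    · rw [D.st_ne1 hij hij, D.st_ne1 hij hjk.symm]
      exact hm
    · have h1 := strip_comm (D.w i j) (D.w i k) (E i j 1) (E i k 1) (comm_source hij hik hjk)
        (D.hC1 i j k hij hjk hik) g m
      have e1 : g * E i j 1 * (E i k 1) ^ m = g * (E i k 1) ^ m * E i j 1 := by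
        rw [mul_assoc, mul_assoc]
        congr 1
        exact Commute.pow_right (show Commute _ _ from comm_source hij hik hjk) m
      have h2 := D.hf0 (g * (E i k 1) ^ m)
        (D.mem_Z hik (by rw [D.st_ne hik hik]; exact hi) (by rw [D.st_same hik]; exact hm)) i j hij
        (D.mem_Z hik (by rw [D.st_ne1 hij hij, D.st_ne hik hik]; exact hi)
          (by rw [D.st_ne1 hij hjk.symm, D.st_same hik]; exact hm))
      unfold val
      rw [e1]
      linarith
  · by_cases hk : D.A (D.st g k)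
    · -- case b
      obtain ⟨a, ha⟩ := D.exists_valid hk i
      have hki := hik.symm
      have hkj := hjk.symm
      refine ⟨D.val k i a g, D.val k i a (g * E i j 1), ⟨k, i, a, hki, hk, ha, rfl⟩,
        ⟨k, i, a, hki, ?_, ?_, rfl⟩, ?_⟩
      · rw [D.st_ne1 hij hkj]
        exact hk
      · rw [D.st_ne1 hij hkj, D.st_ne1 hij hij]
        exact ha
      · have hr := heis_rect (E k i 1) (E i j 1) (E k j 1) (D.w k i) (D.w i j) (D.w k j)
          (heis hki hij hkj) (comm_target hij hkj) (comm_source hki hkj hij)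
          (D.hH k i j hki hij hkj) (D.hC2 i j k hij hjk hik) (D.hC1 k i j hki hij hkj) g a 1
        rw [mul_one, pow_one, lsum_one, lsum_one] at hr
        have e1 : g * (E k i 1) ^ a * E i j 1 =
            g * E i j 1 * (E k i 1) ^ a * (E k j 1) ^ a := by
          have := heis_pow_pow (E k i 1) (E i j 1) (E k j 1) (heis hki hij hkj)
            (comm_target hij hkj) (comm_source hki hkj hij) a 1
          rw [pow_one, mul_one] at this
          rw [mul_assoc, this]
          simp only [mul_assoc]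
        have h2 := D.hf0 (g * (E k i 1) ^ a)
          (D.mem_Z hki (by rw [D.st_ne hki hki]; exact hk) (by rw [D.st_same hki]; exact ha))
          i j hij
          (D.mem_Z hki (by rw [D.st_ne1 hij hkj, D.st_ne hki hki]; exact hk)
            (by rw [D.st_ne1 hij hij, D.st_same hki]; exact ha))
        have h3 := pot_line D.Z D.f0 (D.w k j) (E k j 1)
          (fun g hg hg' => D.hf0 g hg k j hkj hg') (g * E i j 1 * (E k i 1) ^ a) a (by
            intro t _
            apply D.mem_Z hki
            · rw [D.st_ne hkj hkj, D.st_ne hki hki, D.st_ne1 hij hkj]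
              exact hk
            · rw [D.st_ne hkj hij, D.st_same hki, D.st_ne1 hij hij, D.st_ne1 hij hkj]
              exact ha)
        rw [e1] at h2
        unfold val
        linarith
    · -- case c
      have hj : D.A (D.st g j) := by
        obtain ⟨l, hl⟩ := h
        rcases fin3_cases hij hjk hik l with rfl | rfl | rfl
        · exact absurd hl hi
        · exact hl
        · exact absurd hl hk
      have hj' : D.A (D.st (g * E i j 1) j) := by
        obtain ⟨l, hl⟩ := h'
        rcases fin3_cases hij hjk hik l with rfl | rfl | rfl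
        · rw [D.st_ne1 hij hij] at hl
          exact absurd hl hi
        · exact hl
        · rw [D.st_ne1 hij hjk.symm] at hl
          exact absurd hl hk
      have hi0 : D.st g i = 0 := by
        rw [D.st_same1 hij] at hj'
        exact D.hA1 _ _ hj hj' hi
      obtain ⟨n, hn⟩ := D.exists_valid hj k
      refine ⟨D.val j k n g, D.val j k n (g * E i j 1), ⟨j, k, n, hjk, hj, hn, rfl⟩,
        ⟨j, k, n, hjk, hj', ?_, rfl⟩, ?_⟩
      · rw [D.st_ne1 hij hjk.symm, D.st_same1 hij, hi0, add_zero]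
        exact hn
      · have hr := heis_strip (E i j 1) (E j k 1) (E i k 1) (D.w i j) (D.w j k) (D.w i k)
          (heis hij hjk hik) (comm_target hjk hik)
          (D.hH i j k hij hjk hik) (D.hC2 j k i hjk hik.symm hij.symm) g n
        have e1 : g * E i j 1 * (E j k 1) ^ n =
            g * (E j k 1) ^ n * E i j 1 * (E i k 1) ^ n := by
          rw [mul_assoc, heis_pow (E i j 1) (E j k 1) (E i k 1) (heis hij hjk hik)
            (comm_target hjk hik) n]
          simp only [mul_assoc]
        have h2 := D.hf0 (g * (E j k 1) ^ n)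
          (D.mem_Z hjk (by rw [D.st_ne hjk hjk]; exact hj) (by rw [D.st_same hjk]; exact hn))
          i j hij
          (D.mem_Z hjk (by
              rw [D.st_same1 hij, D.st_ne hjk hjk, D.st_ne hjk hik, hi0, add_zero]; exact hj)
            (by rw [D.st_ne1 hij hjk.symm, D.st_same hjk]; exact hn))
        have h3 := pot_line D.Z D.f0 (D.w i k) (E i k 1)
          (fun g hg hg' => D.hf0 g hg i k hik hg') (g * (E j k 1) ^ n * E i j 1) n (by
            intro t _
            apply D.mem_Z hjk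
            · rw [D.st_ne hik hjk, D.st_same1 hij, D.st_ne hjk hjk, D.st_ne hjk hik, hi0,
                add_zero]
              exact hj
            · rw [D.st_same hik, D.st_ne1 hij hjk.symm, D.st_same hjk, D.st_ne1 hij hij,
                D.st_ne hjk hik, hi0, mul_zero, add_zero]
              exact hn)
        unfold val
        rw [e1]
        linarith

end Ext

/-- Extension of a potential for the Steinberg cocycle `w` from `Z` to the set where some
coordinate is active. -/
theorem extend {p : ℕ} [Fact p.Prime] (D : Ext p) :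
    ∃ f : G → ℤ,
      (∀ (g : G) (i j : Fin 3), i ≠ j → (∃ l, D.A (D.χ (col g l))) →
        (∃ l, D.A (D.χ (col (g * E i j 1) l))) → f (g * E i j 1) - f g = D.w i j g) ∧
      (∀ (g : G) (i j : Fin 3), i ≠ j → D.A (D.χ (col g i)) → D.χ (col g j) = 1 →
        f g = D.f0 g) := by
  classical
  let f : G → ℤ := fun g => if h : ∃ v, D.IsV g v then h.choose else 0
  have hf : ∀ g v, D.IsV g v → f g = v := by
    intro g v hv
    have h : ∃ v, D.IsV g v := ⟨v, hv⟩
    have h1 : f g = h.choose := dif_pos h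
    rw [h1]
    exact D.IsV_unique h.choose_spec hv
  refine ⟨f, ?_, ?_⟩
  · intro g i j hij h h'
    obtain ⟨v, v', hv, hv', hw⟩ := D.IsV_step hij h h'
    rw [hf _ _ hv, hf _ _ hv', hw]
  · intro g i j hij hi hj
    exact hf _ _ (D.IsV_of_one hij hi hj)

/-- Every Steinberg cocycle vanishing on the set where two coordinates are `1` is exact. -/
theorem exact_of_vanish {p : ℕ} [Fact p.Prime] (χ : (Fin 3 → ℤ) →+ ZMod p)
    (hχ : ∀ g : G, ∃ l, χ (col g l) ≠ 0) (w : Fin 3 → Fin 3 → G → ℤ)
    (hC1 : ∀ i j k : Fin 3, i ≠ j → j ≠ k → i ≠ k → ∀ g,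
      w i j g + w i k (g * E i j 1) = w i k g + w i j (g * E i k 1))
    (hC2 : ∀ i j k : Fin 3, i ≠ j → j ≠ k → i ≠ k → ∀ g,
      w i j g + w k j (g * E i j 1) = w k j g + w i j (g * E k j 1))
    (hH : ∀ i j k : Fin 3, i ≠ j → j ≠ k → i ≠ k → ∀ g,
      w i j g + w j k (g * E i j 1) =
        w j k g + w i j (g * E j k 1) + w i k (g * E j k 1 * E i j 1))
    (hV : ∀ (g : G) (i j : Fin 3), i ≠ j →
      (∃ a b : Fin 3, a ≠ b ∧ χ (col g a) = 1 ∧ χ (col g b) = 1) →
      (∃ a b : Fin 3, a ≠ b ∧ χ (col (g * E i j 1) a) = 1 ∧ χ (col (g * E i j 1) b) = 1) →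
      w i j g = 0) :
    ∃ f : G → ℤ, ∀ (g : G) (i j : Fin 3), i ≠ j → f (g * E i j 1) - f g = w i j g := by
  obtain ⟨f1, h1, -⟩ := extend
    { χ := χ, w := w, hC1 := hC1, hC2 := hC2, hH := hH, A := fun x => x = 1,
      hA0 := by rintro x rfl; exact one_ne_zero
      hA1 := by intro x y hy hyx _; rw [hy] at hyx; simpa using hyx
      Z := {g | ∃ a b : Fin 3, a ≠ b ∧ χ (col g a) = 1 ∧ χ (col g b) = 1}
      f0 := fun _ => 0
      hf0 := by
        intro g hg i j hij hg'
        rw [hV g i j hij hg hg']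
        rfl
      hZ := by
        intro g i j hij hi hj
        exact ⟨i, j, hij, hi, hj⟩ }
  obtain ⟨f2, h2, -⟩ := extend
    { χ := χ, w := w, hC1 := hC1, hC2 := hC2, hH := hH, A := fun x => x ≠ 0,
      hA0 := fun x hx => hx
      hA1 := by intro x y _ _ hx; exact not_not.1 hx
      Z := {g | ∃ l, χ (col g l) = 1}
      f0 := f1
      hf0 := by
        intro g hg i j hij hg'
        exact h1 g i j hij hg hg'
      hZ := by
        intro g i j hij _ hj
        exact ⟨j, hj⟩ }
  exact ⟨f2, fun g i j hij => h2 g i j hij (hχ g) (hχ _)⟩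

end Pool.Agent.IRP
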