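import Pool.Agent.H.MP_8fbdb2_pr.Meas

set_option autoImplicit false

namespace Pool.Agent.IRP

open MeasureTheory

open Pointwise

theorem countable_G : Countable G := by
  have h : Function.Injective (fun g : G => (fun i j => g.1 i j : Fin 3 → Fin 3 → ℤ)) := by
    intro a b hab
    apply Subtype.ext
    ext i j
    exact congrFun (congrFun hab i) j
  exact h.countable

instance instCountableG : Countable G := countable_G

theorem meas_coord (m : ℕ) (p : Row m → Prop) : Measurable (fun ω : Om => p (ω m)) := by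
  have h : Measurable (fun ω : Om => ω m) := measurable_pi_apply m
  have hp : Measurable p := measurable_from_top
  exact hp.comp h

theorem meas_chi (m : ℕ) (v : Fin 3 → ℤ) (c : ZMod (pr m)) :
    Measurable (fun ω : Om => chi ω m v = c) :=
  meas_coord m (fun r => ∑ i, r.1 i * (v i : ZMod (pr m)) = c)

theorem meas_good (v w : Fin 3 → ℤ) : Measurable (fun ω : Om => good ω v w) := by
  unfold good
  refine Measurable.forall fun m => Measurable.forall fun a => Measurable.forall fun b =>
    Measurable.forall fun c => Measurable.imp measurable_const (Measurable.imp measurable_const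
      (Measurable.imp measurable_const (Measurable.imp measurable_const ?_)))
  exact (meas_chi m _ _).not

theorem meas_edge (R : Om → (Fin 3 → ℤ) → (Fin 3 → ℤ) → Prop)
    (hR : ∀ v w, Measurable (fun ω => R ω v w)) (g : G) :
    Measurable (fun ω : Om => g ∈ edgeSet (R ω)) := by
  show Measurable (fun ω : Om => ∃ i j, i ≠ j ∧ R ω (col g i) (col g j))
  exact Measurable.exists fun i => Measurable.exists fun j => measurable_const.and (hR _ _)

theorem meas_Msk (g : G) : Measurable (fun ω : Om => g ∈ Msk ω) :=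
  meas_edge good meas_good g

theorem meas_Usk (m : ℕ) (g : G) : Measurable (fun ω : Om => g ∈ Usk ω m) :=
  meas_edge (fun ω v w => chi ω m v = 1 ∧ chi ω m w = 1)
    (fun v w => (meas_chi m v 1).and (meas_chi m w 1)) g

theorem meas_thick (k : ℕ) (g : G) : Measurable (fun ω : Om => g ∈ thick (Usk ω) k) := by
  show Measurable (fun ω : Om => ∃ m, k ≤ m ∧ ∃ y, y ∈ Usk ω m ∧ ∃ b, b ∈ S ^ (m - k) ∧ g = y * b)
  exact Measurable.exists fun m => measurable_const.and (Measurable.exists fun y =>
    (meas_Usk m y).and (Measurable.exists fun b => measurable_const.and measurable_const))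

theorem meas_reach (k n : ℕ) (g : G) :
    Measurable (fun ω : Om => g ∈ reach (Msk ω) (Usk ω) k n) := by
  induction n generalizing g with
  | zero => exact meas_Msk g
  | succ n ih =>
    show Measurable (fun ω : Om => g ∈ reach (Msk ω) (Usk ω) k n ∨
      (¬ (g ∈ thick (Usk ω) k) ∧ ∃ s, s ∈ S ∧ g * s ∈ reach (Msk ω) (Usk ω) k n))
    exact (ih g).or ((meas_thick k g).not.and (Measurable.exists fun s =>
      measurable_const.and (ih (g * s))))

theorem meas_comp (k : ℕ) (g : G) :
    Measurable (fun ω : Om => g ∈ comp (Msk ω) (Usk ω) k) := by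
  show Measurable (fun ω : Om => ∃ n, g ∈ reach (Msk ω) (Usk ω) k n)
  exact Measurable.exists fun n => meas_reach k n g

theorem measurable_part : Measurable (fun ω : Om => part (Msk ω) (Usk ω)) := by
  refine measurable_pi_iff.2 fun g => measurable_pi_iff.2 fun h => ?_
  refine measurable_to_bool ?_
  have h1 : ((fun ω : Om => part (Msk ω) (Usk ω) g h) ⁻¹' {true}) =
      {ω : Om | ∀ k, (g ∈ comp (Msk ω) (Usk ω) k ↔ h ∈ comp (Msk ω) (Usk ω) k)} := by
    ext ω
    simp [part]
  rw [h1]
  exact measurableSet_setOfPred.2 (Measurable.forall fun k => (meas_comp k g).iff (meas_comp k h))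

theorem chi_act' (γ : G) (ω : Om) (m : ℕ) (g : G) (j : Fin 3) :
    chi (act γ ω) m (col g j) = chi ω m (col (γ⁻¹ * g) j) := by
  have h := chi_act γ (γ⁻¹ * g) ω m j
  rwa [mul_inv_cancel_left] at h

theorem good_act (γ : G) (ω : Om) (g : G) (i j : Fin 3) :
    good (act γ ω) (col g i) (col g j) ↔ good ω (col (γ⁻¹ * g) i) (col (γ⁻¹ * g) j) := by
  unfold good
  refine forall_congr' fun m => forall_congr' fun a => forall_congr' fun b =>
    forall_congr' fun c => ?_
  rw [map_add, map_zsmul, map_zsmul, map_add, map_zsmul, map_zsmul, chi_act', chi_act']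

theorem Msk_act (γ : G) (ω : Om) (g : G) : g ∈ Msk (act γ ω) ↔ γ⁻¹ * g ∈ Msk ω := by
  show (∃ i j, i ≠ j ∧ good (act γ ω) (col g i) (col g j)) ↔
    (∃ i j, i ≠ j ∧ good ω (col (γ⁻¹ * g) i) (col (γ⁻¹ * g) j))
  refine exists_congr fun i => exists_congr fun j => and_congr_right fun _ => good_act γ ω g i j

theorem Usk_act (γ : G) (ω : Om) (m : ℕ) (g : G) :
    g ∈ Usk (act γ ω) m ↔ γ⁻¹ * g ∈ Usk ω m := by
  show (∃ i j, i ≠ j ∧ (chi (act γ ω) m (col g i) = 1 ∧ chi (act γ ω) m (col g j) = 1)) ↔
    (∃ i j, i ≠ j ∧ (chi ω m (col (γ⁻¹ * g) i) = 1 ∧ chi ω m (col (γ⁻¹ * g) j) = 1))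
  refine exists_congr fun i => exists_congr fun j => and_congr_right fun _ => ?_
  rw [chi_act', chi_act']

theorem thick_act (γ : G) (ω : Om) (k : ℕ) (g : G) :
    g ∈ thick (Usk (act γ ω)) k ↔ γ⁻¹ * g ∈ thick (Usk ω) k := by
  show (∃ m, k ≤ m ∧ ∃ y ∈ Usk (act γ ω) m, ∃ b ∈ S ^ (m - k), g = y * b) ↔
    (∃ m, k ≤ m ∧ ∃ y ∈ Usk ω m, ∃ b ∈ S ^ (m - k), γ⁻¹ * g = y * b)
  refine exists_congr fun m => and_congr_right fun _ => ?_
  constructor
  · rintro ⟨y, hy, b, hb, rfl⟩
    exact ⟨γ⁻¹ * y, (Usk_act γ ω m y).1 hy, b, hb, by rw [mul_assoc]⟩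
  · rintro ⟨y, hy, b, hb, h⟩
    refine ⟨γ * y, (Usk_act γ ω m _).2 (by rwa [inv_mul_cancel_left]), b, hb, ?_⟩
    rw [mul_assoc, ← h, mul_inv_cancel_left]

theorem reach_act (γ : G) (ω : Om) (k n : ℕ) (g : G) :
    g ∈ reach (Msk (act γ ω)) (Usk (act γ ω)) k n ↔
      γ⁻¹ * g ∈ reach (Msk ω) (Usk ω) k n := by
  induction n generalizing g with
  | zero => exact Msk_act γ ω g
  | succ n ih =>
    show (g ∈ reach (Msk (act γ ω)) (Usk (act γ ω)) k n ∨
      (g ∉ thick (Usk (act γ ω)) k ∧ ∃ s ∈ S, g * s ∈ reach (Msk (act γ ω)) (Usk (act γ ω)) k n)) ↔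
      (γ⁻¹ * g ∈ reach (Msk ω) (Usk ω) k n ∨
      (γ⁻¹ * g ∉ thick (Usk ω) k ∧ ∃ s ∈ S, γ⁻¹ * g * s ∈ reach (Msk ω) (Usk ω) k n))
    refine or_congr (ih g) (and_congr (not_congr (thick_act γ ω k g)) ?_)
    refine exists_congr fun s => and_congr_right fun _ => ?_
    rw [ih (g * s), mul_assoc]

theorem comp_act (γ : G) (ω : Om) (k : ℕ) (g : G) :
    g ∈ comp (Msk (act γ ω)) (Usk (act γ ω)) k ↔ γ⁻¹ * g ∈ comp (Msk ω) (Usk ω) k := by
  show (∃ n, g ∈ reach (Msk (act γ ω)) (Usk (act γ ω)) k n) ↔
    (∃ n, γ⁻¹ * g ∈ reach (Msk ω) (Usk ω) k n)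
  exact exists_congr fun n => reach_act γ ω k n g

theorem part_act (γ : G) (ω : Om) (g h : G) :
    part (Msk (act γ ω)) (Usk (act γ ω)) g h = part (Msk ω) (Usk ω) (γ⁻¹ * g) (γ⁻¹ * h) := by
  unfold part
  congr 1
  refine propext (forall_congr' fun k => ?_)
  rw [comp_act, comp_act]

theorem meas_r (g h : G) (b : Bool) : Measurable (fun r : G → G → Bool => r g h = b) := by
  have h1 : Measurable (fun r : G → G → Bool => r g h) :=
    (measurable_pi_apply h).comp (measurable_pi_apply g)
  have h2 : Measurable (fun x : Bool => x = b) := measurable_from_top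
  exact h2.comp h1

theorem measurableSet_nice : MeasurableSet {r : G → G → Bool | Nice r} := by
  refine measurableSet_setOfPred.2 ?_
  unfold Nice
  refine Measurable.and (Measurable.forall fun g => meas_r g g true) ?_
  refine Measurable.and (Measurable.forall fun g => Measurable.forall fun h =>
    (meas_r g h true).imp (meas_r h g true)) ?_
  refine Measurable.and (Measurable.forall fun g => Measurable.forall fun h =>
    Measurable.forall fun l => (meas_r g h true).imp ((meas_r h l true).imp (meas_r g l true))) ?_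
  refine Measurable.and (Measurable.forall fun F => Measurable.exists fun g =>
    Measurable.forall fun x => measurable_const.imp (meas_r x g false)) ?_
  refine Measurable.and (Measurable.forall fun g => Measurable.forall fun F =>
    Measurable.exists fun h => measurable_const.and (meas_r g h true)) ?_
  refine Measurable.and (Measurable.forall fun g => Measurable.forall fun h =>
    (meas_r g h true).imp (Measurable.exists fun F => measurable_const.and
      (measurable_const.and (measurable_const.and
        (Measurable.forall fun x => measurable_const.imp (meas_r g x true)))))) ?_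
  refine Measurable.forall fun g => Measurable.exists fun F => Measurable.forall fun x =>
    Measurable.forall fun y => (meas_r g x true).imp (measurable_const.imp
      (Measurable.exists fun z => measurable_const.and (meas_r z y true)))

end Pool.Agent.IRP
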