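import Pool.Agent.H.MP_8fbdb2_pr.MeasA
import Pool.Agent.H.MP_8fbdb2_pr.MeasB

set_option autoImplicit false

namespace Pool.Agent.IRP

open MeasureTheory

/-- Conversion of `Nice` to the form of the frozen statement. -/
theorem Nice.frozen {r : G → G → Bool} (h : Nice r) :
    Equivalence (fun g h => r g h = true) ∧
    (Set.range (fun g : G => {h : G | r g h = true})).Infinite ∧
    (∀ g : G, {h : G | r g h = true}.Infinite) ∧
    (∀ g : G, ((SimpleGraph.fromRel (fun a b : G => a⁻¹ * b ∈ S)).induce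
        {h : G | r g h = true}).Connected) ∧
    (∀ g : G, ((fun y : G => {h : G | r y h = true}) ''
        {y : G | ∃ x : G, r g x = true ∧
          (SimpleGraph.fromRel (fun a b : G => a⁻¹ * b ∈ S)).Adj x y}).Finite) := by
  obtain ⟨hrefl, hsymm, htrans, hinf, hcl, hconn, hnb⟩ := h
  have heq : ∀ x y : G, r x y = true → {h : G | r x h = true} = {h : G | r y h = true} := by
    intro x y hxy
    ext z
    exact ⟨fun hz => htrans y x z (hsymm x y hxy) hz, fun hz => htrans x y z hxy hz⟩
  refine ⟨⟨hrefl, fun {x y} => hsymm x y, fun {x y z} => htrans x y z⟩, ?_, ?_, ?_, ?_⟩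
  · intro hfin
    classical
    obtain ⟨F, hF⟩ : ∃ F : Finset G, ∀ g : G, ∃ x ∈ F, {h : G | r x h = true} = {h : G | r g h = true} := by
      have hc : ∀ A ∈ hfin.toFinset, ∃ x : G, {h : G | r x h = true} = A := by
        intro A hA
        rw [Set.Finite.mem_toFinset] at hA
        obtain ⟨x, hx⟩ := hA
        exact ⟨x, hx⟩
      choose! f hf using hc
      refine ⟨hfin.toFinset.image f, fun g => ?_⟩
      have hg : {h : G | r g h = true} ∈ hfin.toFinset := by
        rw [Set.Finite.mem_toFinset]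
        exact ⟨g, rfl⟩
      exact ⟨f _, Finset.mem_image_of_mem f hg, hf _ hg⟩
    obtain ⟨g, hg⟩ := hinf F
    obtain ⟨x, hx, hxg⟩ := hF g
    have h1 : g ∈ {h : G | r g h = true} := hrefl g
    rw [← hxg] at h1
    have h2 : r x g = true := h1
    rw [hg x hx] at h2
    exact Bool.false_ne_true h2
  · intro g hfin
    obtain ⟨h, hh, hgh⟩ := hcl g hfin.toFinset
    apply hh
    rw [Set.Finite.mem_toFinset]
    exact hgh
  · intro g
    have : Nonempty {h : G | r g h = true} := ⟨⟨g, hrefl g⟩⟩
    refine SimpleGraph.Connected.mk ?_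
    rintro ⟨x, hx⟩ ⟨y, hy⟩
    have hx' : r g x = true := hx
    have hy' : r g y = true := hy
    obtain ⟨F, hF, hxF, hyF, hall⟩ := hconn x y (htrans x g y (hsymm g x hx') hy')
    have hsub : (F : Set G) ≤ {h : G | r g h = true} := by
      intro z hz
      exact htrans g x z hx' (hall z hz)
    have h1 := hF ⟨x, hxF⟩ ⟨y, hyF⟩
    exact h1.map (SimpleGraph.induceHomOfLE cay hsub).toHom
  · intro g
    obtain ⟨F, hF⟩ := hnb g
    refine Set.Finite.subset (F.finite_toSet.image (fun y : G => {h : G | r y h = true})) ?_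
    rintro _ ⟨y, ⟨x, hx, hxy⟩, rfl⟩
    obtain ⟨z, hz, hzy⟩ := hF x y hx hxy
    exact ⟨z, hz, heq z y hzy⟩

end Pool.Agent.IRP
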