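import Pool.Agent.H.MP_8fbdb2_pr.Defs

set_option autoImplicit false

namespace Pool.Agent.IRP

open Pointwise

theorem exists_beta : ∃ B : ℕ, 1 ≤ B ∧ ∀ s ∈ S, ∀ i j, |s.1 i j| ≤ (B : ℤ) := by
  generalize S = T
  classical
  induction T using Finset.induction_on with
  | empty => exact ⟨1, le_refl 1, by simp⟩
  | insert s T _ ih =>
    obtain ⟨B, hB, h⟩ := ih
    refine ⟨B + ∑ i, ∑ j, (s.1 i j).natAbs, by omega, ?_⟩
    intro t ht i j
    rcases Finset.mem_insert.1 ht with rfl | ht
    · have h1 : (t.1 i j).natAbs ≤ ∑ j, (t.1 i j).natAbs :=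
        Finset.single_le_sum (f := fun j => (t.1 i j).natAbs) (fun _ _ => Nat.zero_le _)
          (Finset.mem_univ j)
      have h2 : ∑ j, (t.1 i j).natAbs ≤ ∑ i, ∑ j, (t.1 i j).natAbs :=
        Finset.single_le_sum (f := fun i => ∑ j, (t.1 i j).natAbs) (fun _ _ => Nat.zero_le _)
          (Finset.mem_univ i)
      rw [Int.abs_eq_natAbs]
      have h3 : (t.1 i j).natAbs ≤ B + ∑ i, ∑ j, (t.1 i j).natAbs := by omega
      exact_mod_cast h3
    · have h1 := h t ht i j
      have h2 : (B : ℤ) ≤ ((B + ∑ i, ∑ j, (s.1 i j).natAbs : ℕ) : ℤ) := by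
        exact_mod_cast Nat.le_add_right _ _
      exact h1.trans h2

/-- A common bound for the entries of the elements of `S` (defined by choice, so that the
kernel never evaluates the finset `S`). -/
noncomputable def beta : ℕ := exists_beta.choose

theorem beta_pos : 1 ≤ beta := exists_beta.choose_spec.1

theorem entry_le_beta (s : G) (hs : s ∈ S) (i j : Fin 3) : |s.1 i j| ≤ beta :=
  exists_beta.choose_spec.2 s hs i j

noncomputable def rho (m : ℕ) : ℕ := 4 * (3 * beta) ^ (2 * m)

noncomputable def KK (m : ℕ) : ℕ := 2 * (2 * rho m + 1) ^ 3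

noncomputable def LL (m : ℕ) : ℕ := 4 * (∑ j ∈ Finset.range m, KK j) + 1

noncomputable def RR (m : ℕ) : ℕ := m * rho m * (LL m + 1)

noncomputable def QQ (m : ℕ) : ℕ := 2 ^ (m + 3) * (KK m + (2 * RR m + 1) ^ 4) + rho m + 1

/-- The primes of the construction. -/
noncomputable def pr : ℕ → ℕ
  | 0 => (Nat.exists_infinite_primes (QQ 0)).choose
  | m + 1 => (Nat.exists_infinite_primes (QQ (m + 1) + pr m + 1)).choose

theorem pr_prime (m : ℕ) : (pr m).Prime := by
  cases m with
  | zero => exact (Nat.exists_infinite_primes (QQ 0)).choose_spec.2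
  | succ m => exact (Nat.exists_infinite_primes (QQ (m + 1) + pr m + 1)).choose_spec.2

instance (m : ℕ) : Fact (pr m).Prime := ⟨pr_prime m⟩

theorem QQ_le_pr (m : ℕ) : QQ m ≤ pr m := by
  cases m with
  | zero => exact (Nat.exists_infinite_primes (QQ 0)).choose_spec.1
  | succ m =>
    have := (Nat.exists_infinite_primes (QQ (m + 1) + pr m + 1)).choose_spec.1
    have h2 : pr (m + 1) = (Nat.exists_infinite_primes (QQ (m + 1) + pr m + 1)).choose := rfl
    omega

theorem pr_strictMono : StrictMono pr := by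
  apply strictMono_nat_of_lt_succ
  intro m
  have := (Nat.exists_infinite_primes (QQ (m + 1) + pr m + 1)).choose_spec.1
  have h2 : pr (m + 1) = (Nat.exists_infinite_primes (QQ (m + 1) + pr m + 1)).choose := rfl
  omega

/-- The sample space at level `m`: nonzero row vectors modulo `pr m`. -/
def Row (m : ℕ) : Type := {r : Fin 3 → ZMod (pr m) // r ≠ 0}

/-- The sample space. -/
abbrev Om := ∀ m, Row m

/-- The character at level `m`. -/
noncomputable def chi (ω : Om) (m : ℕ) : (Fin 3 → ℤ) →+ ZMod (pr m) where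
  toFun v := ∑ i, (ω m).1 i * (v i : ZMod (pr m))
  map_zero' := by simp
  map_add' v w := by
    simp [mul_add, Finset.sum_add_distrib]

/-- `v w` admit no small relation at any level. -/
def good (ω : Om) (v w : Fin 3 → ℤ) : Prop :=
  ∀ m, ∀ a b c : ℤ, |a| ≤ rho m → |b| ≤ rho m → |c| ≤ rho m → (a ≠ 0 ∨ b ≠ 0) →
    chi ω m (a • v + b • w) ≠ (c : ZMod (pr m))

/-- The skeleton of the first part. -/
def Msk (ω : Om) : Set G := edgeSet (good ω)

/-- The obstacles of level `m`. -/
def Usk (ω : Om) (m : ℕ) : Set G := edgeSet (fun v w => chi ω m v = 1 ∧ chi ω m w = 1)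

/-- The almost sure genericity event. -/
def Gen (ω : Om) : Prop :=
  ∃ m0, ∀ m ≥ m0, ∀ z : Fin 3 → ℤ, z ≠ 0 → (∀ i, |z i| ≤ RR m) → ∀ c : ℤ, |c| ≤ RR m →
    chi ω m z ≠ (c : ZMod (pr m))

end Pool.Agent.IRP
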