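import Pool.Agent.H.MP_8fbdb2_pr.Levels
import Pool.Agent.H.MP_8fbdb2_pr.Gen

set_option autoImplicit false

namespace Pool.Agent.IRP

open Pointwise

private theorem chi_apply (ω : Om) (m : ℕ) (v : Fin 3 → ℤ) :
    chi ω m v = ∑ i, (ω m).1 i * (v i : ZMod (pr m)) := rfl

theorem chi_ne_zero (ω : Om) (m : ℕ) : chi ω m ≠ 0 := by
  intro h
  apply (ω m).2
  funext i
  have h1 : chi ω m (Pi.single i 1) = 0 := by rw [h]; rfl
  rw [chi_apply, Finset.sum_eq_single i] at h1
  · simpa using h1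
  · intro j _ hj
    simp [Pi.single_eq_of_ne hj]
  · intro hi
    exact absurd (Finset.mem_univ i) hi

private theorem KK_mul_le_pr (m : ℕ) : 2 ^ (m + 3) * KK m ≤ pr m := by
  have h := QQ_le_pr m
  unfold QQ at h
  rw [Nat.mul_add] at h
  omega

private theorem rho_lt_pr (m : ℕ) : rho m < pr m := by
  have h := QQ_le_pr m
  unfold QQ at h
  omega

private theorem one_le_rho (m : ℕ) : 1 ≤ rho m :=
  Nat.mul_pos (Nat.succ_pos 3) (Nat.pow_pos (Nat.mul_pos (Nat.succ_pos 2) beta_pos))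

private theorem LL_mono {m m' : ℕ} (h : m ≤ m') : LL m ≤ LL m' := by
  unfold LL
  have := Finset.sum_le_sum_of_subset (f := KK) (Finset.range_mono h)
  omega

private theorem card_residue (p X : ℕ) (b : ZMod p) :
    ((Finset.range X).filter fun n : ℕ => (n : ZMod p) = b).card ≤ X / p + 1 := by
  rw [← Finset.card_range (X / p + 1)]
  apply Finset.card_le_card_of_injOn (fun n => n / p)
  · intro n hn
    simp only [Finset.coe_filter, Finset.mem_range, Set.mem_ofPred_eq] at hn
    simp only [Finset.coe_range, Set.mem_Iio]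
    exact Nat.lt_succ_of_le (Nat.div_le_div_right hn.1.le)
  · intro n hn n' hn' h
    simp only [Finset.coe_filter, Finset.mem_range, Set.mem_ofPred_eq] at hn hn'
    have h2 : (n : ZMod p) = (n' : ZMod p) := hn.2.trans hn'.2.symm
    rw [ZMod.natCast_eq_natCast_iff'] at h2
    have h3 : n / p = n' / p := h
    rw [← Nat.div_add_mod n p, ← Nat.div_add_mod n' p, h2, h3]

private theorem sum_geom_le (X M : ℕ) :
    ∑ m ∈ Finset.range M, ((X : ℚ) / 2 ^ (m + 3)) ≤ X / 4 := by
  have h : ∑ m ∈ Finset.range M, ((X : ℚ) / 2 ^ (m + 3)) = X / 4 - X / (4 * 2 ^ M) := by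
    induction M with
    | zero => simp
    | succ M ih =>
      rw [Finset.sum_range_succ, ih]
      field_simp
      ring
  rw [h]
  have : (0 : ℚ) ≤ X / (4 * 2 ^ M) := by positivity
  linarith

/-- The sieve. -/
theorem sieve (Bad : ∀ m, Finset (ZMod (pr m))) (hcard : ∀ m, (Bad m).card ≤ KK m) (m0 : ℕ)
    (hlate : ∀ m ≥ m0, ∀ n < LL m, (n : ZMod (pr m)) ∉ Bad m) :
    ∃ n : ℕ, ∀ m, (n : ZMod (pr m)) ∉ Bad m := by
  classical
  by_contra hcon
  push Not at hcon
  have hsub : Finset.range (LL m0) ⊆ (Finset.range m0).biUnion fun m =>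
      (Finset.range (LL m0)).filter fun n : ℕ => (n : ZMod (pr m)) ∈ Bad m := by
    intro n hn
    obtain ⟨m, hm⟩ := hcon n
    rw [Finset.mem_range] at hn
    rw [Finset.mem_biUnion]
    refine ⟨m, ?_, ?_⟩
    · rw [Finset.mem_range]
      by_contra hmm
      push Not at hmm
      exact hlate m hmm n (lt_of_lt_of_le hn (LL_mono hmm)) hm
    · rw [Finset.mem_filter, Finset.mem_range]
      exact ⟨hn, hm⟩
  have hc := Finset.card_le_card hsub
  rw [Finset.card_range] at hc
  have hc2 : LL m0 ≤ ∑ m ∈ Finset.range m0, (KK m * (LL m0 / pr m) + KK m) := by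
    refine hc.trans (Finset.card_biUnion_le.trans (Finset.sum_le_sum ?_))
    intro m _
    have h1 : ((Finset.range (LL m0)).filter fun n : ℕ => (n : ZMod (pr m)) ∈ Bad m) ⊆
        (Bad m).biUnion fun b => (Finset.range (LL m0)).filter fun n : ℕ =>
          (n : ZMod (pr m)) = b := by
      intro n hn
      rw [Finset.mem_filter] at hn
      rw [Finset.mem_biUnion]
      exact ⟨_, hn.2, Finset.mem_filter.2 ⟨hn.1, rfl⟩⟩
    refine (Finset.card_le_card h1).trans (Finset.card_biUnion_le.trans ?_)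
    refine (Finset.sum_le_card_nsmul _ _ (LL m0 / pr m + 1) ?_).trans ?_
    · intro b _
      exact card_residue _ _ b
    · rw [smul_eq_mul]
      calc (Bad m).card * (LL m0 / pr m + 1) ≤ KK m * (LL m0 / pr m + 1) :=
            Nat.mul_le_mul_right _ (hcard m)
        _ = KK m * (LL m0 / pr m) + KK m := by ring
  rw [Finset.sum_add_distrib] at hc2
  have hc3 : (LL m0 : ℚ) ≤ LL m0 / 4 + ∑ m ∈ Finset.range m0, (KK m : ℚ) := by
    have h5 : ((∑ m ∈ Finset.range m0, KK m * (LL m0 / pr m) : ℕ) : ℚ) ≤ LL m0 / 4 := by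
      refine le_trans ?_ (sum_geom_le (LL m0) m0)
      rw [Nat.cast_sum]
      apply Finset.sum_le_sum
      intro m _
      rw [le_div_iff₀ (by positivity)]
      have h6 : KK m * (LL m0 / pr m) * 2 ^ (m + 3) ≤ LL m0 := by
        calc KK m * (LL m0 / pr m) * 2 ^ (m + 3) = (2 ^ (m + 3) * KK m) * (LL m0 / pr m) := by ring
          _ ≤ pr m * (LL m0 / pr m) := Nat.mul_le_mul_right _ (KK_mul_le_pr m)
          _ ≤ LL m0 := Nat.mul_div_le _ _
      exact_mod_cast h6
    have h7 : (LL m0 : ℚ) ≤ ((∑ m ∈ Finset.range m0, KK m * (LL m0 / pr m) : ℕ) : ℚ) +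
        ((∑ m ∈ Finset.range m0, KK m : ℕ) : ℚ) := by
      exact_mod_cast hc2
    push_cast at h7 h5
    linarith
  have h8 : (LL m0 : ℚ) = 4 * (∑ m ∈ Finset.range m0, (KK m : ℚ)) + 1 := by
    unfold LL
    push_cast
    ring
  have h9 : (0 : ℚ) ≤ ∑ m ∈ Finset.range m0, (KK m : ℚ) :=
    Finset.sum_nonneg fun m _ => by positivity
  linarith

/-- Existence of a shift avoiding all small relations with `u1` and `u2`. -/
theorem exists_shift (ω : Om) (hω : Gen ω) (x c u1 u2 : Fin 3 → ℤ)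
    (hx : ∀ m, chi ω m x ≠ 0)
    (h1 : ∀ a b n : ℤ, a • u1 + b • (c + n • x) = 0 → b = 0)
    (h2 : ∀ a b n : ℤ, a • u2 + b • (c + n • x) = 0 → b = 0) :
    ∃ n : ℤ, ∀ m, ∀ a b d : ℤ, |a| ≤ rho m → |b| ≤ rho m → |d| ≤ rho m → b ≠ 0 →
      chi ω m (a • u1 + b • (c + n • x)) ≠ (d : ZMod (pr m)) ∧
      chi ω m (a • u2 + b • (c + n • x)) ≠ (d : ZMod (pr m)) := by
  classical
  obtain ⟨m1, hm1⟩ := hω
  -- the bad residues
  let box : ∀ m : ℕ, Finset (ℤ × ℤ × ℤ) := fun m =>
    Finset.Icc (-(rho m : ℤ)) (rho m) ×ˢ Finset.Icc (-(rho m : ℤ)) (rho m) ×ˢ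
      Finset.Icc (-(rho m : ℤ)) (rho m)
  let fn : ∀ m : ℕ, (Fin 3 → ℤ) → ℤ × ℤ × ℤ → ZMod (pr m) := fun m u q =>
    ((q.2.2 : ZMod (pr m)) - (q.1 : ZMod (pr m)) * chi ω m u - (q.2.1 : ZMod (pr m)) * chi ω m c) /
      ((q.2.1 : ZMod (pr m)) * chi ω m x)
  let Bad : ∀ m : ℕ, Finset (ZMod (pr m)) := fun m =>
    (((box m).filter fun q => q.2.1 ≠ 0).image (fn m u1)) ∪
      (((box m).filter fun q => q.2.1 ≠ 0).image (fn m u2))
  have hboxcard : ∀ m, (box m).card = (2 * rho m + 1) ^ 3 := by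
    intro m
    have h : (Finset.Icc (-(rho m : ℤ)) (rho m)).card = 2 * rho m + 1 := by
      rw [Int.card_Icc]
      omega
    show (Finset.Icc (-(rho m : ℤ)) (rho m) ×ˢ Finset.Icc (-(rho m : ℤ)) (rho m) ×ˢ
      Finset.Icc (-(rho m : ℤ)) (rho m)).card = _
    rw [Finset.card_product, Finset.card_product, h]
    ring
  have hcard : ∀ m, (Bad m).card ≤ KK m := by
    intro m
    refine (Finset.card_union_le _ _).trans ?_
    have h : ∀ u, (((box m).filter fun q => q.2.1 ≠ 0).image (fn m u)).card ≤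
        (2 * rho m + 1) ^ 3 := fun u =>
      Finset.card_image_le.trans ((Finset.card_filter_le _ _).trans (hboxcard m).le)
    show _ ≤ 2 * (2 * rho m + 1) ^ 3
    have e1 := h u1
    have e2 := h u2
    generalize (2 * rho m + 1) ^ 3 = y at *
    omega
  -- small nonzero integers are nonzero mod `pr m`
  have hb0 : ∀ m : ℕ, ∀ b : ℤ, |b| ≤ rho m → b ≠ 0 → (b : ZMod (pr m)) ≠ 0 := by
    intro m b hb hb1 h
    rw [ZMod.intCast_zmod_eq_zero_iff_dvd] at h
    have h3 := Int.le_of_dvd (abs_pos.2 hb1) ((dvd_abs _ _).2 h)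
    have h4 := rho_lt_pr m
    have h5 : ((rho m : ℕ) : ℤ) < ((pr m : ℕ) : ℤ) := by exact_mod_cast h4
    linarith
  -- the characterization of bad residues
  have key : ∀ m : ℕ, ∀ u : Fin 3 → ℤ, ∀ a b d n : ℤ, b ≠ 0 → |b| ≤ rho m →
      (chi ω m (a • u + b • (c + n • x)) = (d : ZMod (pr m)) ↔
        (n : ZMod (pr m)) = fn m u (a, b, d)) := by
    intro m u a b d n hb hb2
    have hb3 := hb0 m b hb2 hb
    show _ ↔ (n : ZMod (pr m)) = ((d : ZMod (pr m)) - (a : ZMod (pr m)) * chi ω m u -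
      (b : ZMod (pr m)) * chi ω m c) / ((b : ZMod (pr m)) * chi ω m x)
    rw [eq_div_iff (mul_ne_zero hb3 (hx m)), map_add, map_zsmul, map_zsmul, map_add, map_zsmul,
      zsmul_eq_mul, zsmul_eq_mul, zsmul_eq_mul]
    constructor
    · intro h
      rw [← h]
      ring
    · intro h
      linear_combination h
  -- the starting level
  let m0 : ℕ := m1 + (∑ i, ((u1 i).natAbs + (u2 i).natAbs + (c i).natAbs + (x i).natAbs)) + 1
  have hbound : ∀ i, |u1 i| + |u2 i| + |c i| + |x i| ≤ (m0 : ℤ) := by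
    intro i
    have h : (u1 i).natAbs + (u2 i).natAbs + (c i).natAbs + (x i).natAbs ≤
        ∑ i, ((u1 i).natAbs + (u2 i).natAbs + (c i).natAbs + (x i).natAbs) :=
      Finset.single_le_sum (f := fun i => (u1 i).natAbs + (u2 i).natAbs + (c i).natAbs +
        (x i).natAbs) (fun _ _ => Nat.zero_le _) (Finset.mem_univ i)
    have h2 : ((u1 i).natAbs + (u2 i).natAbs + (c i).natAbs + (x i).natAbs : ℕ) ≤ m0 := by
      omega
    have h3 : (((u1 i).natAbs + (u2 i).natAbs + (c i).natAbs + (x i).natAbs : ℕ) : ℤ) ≤ m0 := by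
      exact_mod_cast h2
    push_cast at h3
    simpa only [Int.natCast_natAbs] using h3
  have hlate1 : ∀ m ≥ m0, ∀ n < LL m, ∀ u : Fin 3 → ℤ, (∀ i, |u i| + |c i| + |x i| ≤ (m0 : ℤ)) →
      (∀ a b n : ℤ, a • u + b • (c + n • x) = 0 → b = 0) →
      (n : ZMod (pr m)) ∉ ((box m).filter fun q => q.2.1 ≠ 0).image (fn m u) := by
    intro m hm n hn u hu hind hmem
    rw [Finset.mem_image] at hmem
    obtain ⟨⟨a, b, d⟩, hq, hq2⟩ := hmem
    rw [Finset.mem_filter] at hq
    obtain ⟨hq1, hb⟩ := hq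
    have hq1' : (a, b, d) ∈ Finset.Icc (-(rho m : ℤ)) (rho m) ×ˢ
      Finset.Icc (-(rho m : ℤ)) (rho m) ×ˢ Finset.Icc (-(rho m : ℤ)) (rho m) := hq1
    simp only [Finset.mem_product, Finset.mem_Icc] at hq1'
    obtain ⟨ha1, hb1, hd1⟩ := hq1'
    rw [← abs_le] at ha1 hb1 hd1
    have hb' : b ≠ 0 := hb
    have hn1 : ((n : ℤ) : ZMod (pr m)) = fn m u (a, b, d) := by
      rw [Int.cast_natCast, hq2]
    have h5 := (key m u a b d n hb' hb1).2 hn1
    have hm1' : m1 ≤ m := by omega
    have hm2 : ((m0 : ℕ) : ℤ) ≤ m := by exact_mod_cast hm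
    have hm3 : (1 : ℤ) ≤ m := by
      have : 1 ≤ m := by omega
      exact_mod_cast this
    have hrho0 : (0 : ℤ) ≤ rho m := by positivity
    have hn2 : (n : ℤ) ≤ LL m := by exact_mod_cast hn.le
    have hn0 : (0 : ℤ) ≤ n := by positivity
    refine hm1 m hm1' (a • u + b • (c + (n : ℤ) • x)) ?_ ?_ d ?_ h5
    · intro h0
      exact hb' (hind a b n h0)
    · intro i
      have hRR : ((RR m : ℕ) : ℤ) = m * rho m * (LL m + 1) := by
        show ((m * rho m * (LL m + 1) : ℕ) : ℤ) = _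
        push_cast
        ring
      rw [hRR]
      have e1 : (a • u + b • (c + (n : ℤ) • x)) i = a * u i + b * (c i + n * x i) := by
        simp [mul_add]
      rw [e1]
      have hui := hu i
      have p1 : |a * u i| ≤ rho m * |u i| := by
        rw [abs_mul]
        exact mul_le_mul_of_nonneg_right ha1 (abs_nonneg _)
      have p2 : |c i + n * x i| ≤ |c i| + LL m * |x i| := by
        refine (abs_add_le _ _).trans ?_
        rw [abs_mul, abs_of_nonneg hn0]
        have := mul_le_mul_of_nonneg_right hn2 (abs_nonneg (x i))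
        linarith
      have p3 : |b * (c i + n * x i)| ≤ rho m * (|c i| + LL m * |x i|) := by
        rw [abs_mul]
        exact mul_le_mul hb1 p2 (abs_nonneg _) hrho0
      have p4 : |u i| + (|c i| + LL m * |x i|) ≤ m * (LL m + 1) := by
        have hL0 : (0 : ℤ) ≤ LL m := by positivity
        have q1 : |u i| + |c i| + |x i| ≤ m := hui.trans hm2
        have q2 : |x i| ≤ m := by
          have := abs_nonneg (u i)
          have := abs_nonneg (c i)
          linarith
        have q3 : LL m * |x i| ≤ LL m * (m : ℤ) := mul_le_mul_of_nonneg_left q2 hL0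
        have := abs_nonneg (x i)
        nlinarith
      calc |a * u i + b * (c i + n * x i)| ≤ |a * u i| + |b * (c i + n * x i)| := abs_add_le _ _
        _ ≤ rho m * |u i| + rho m * (|c i| + LL m * |x i|) := add_le_add p1 p3
        _ = rho m * (|u i| + (|c i| + LL m * |x i|)) := by ring
        _ ≤ rho m * (m * (LL m + 1)) := mul_le_mul_of_nonneg_left p4 hrho0
        _ = m * rho m * (LL m + 1) := by ring
    · have hRR : ((RR m : ℕ) : ℤ) = m * rho m * (LL m + 1) := by
        show ((m * rho m * (LL m + 1) : ℕ) : ℤ) = _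
        push_cast
        ring
      rw [hRR]
      have hL0 : (0 : ℤ) ≤ LL m := by positivity
      have q1 : (rho m : ℤ) * 1 ≤ rho m * (m * (LL m + 1)) := by
        apply mul_le_mul_of_nonneg_left _ hrho0
        nlinarith
      calc |d| ≤ rho m * 1 := by rw [mul_one]; exact hd1
        _ ≤ rho m * (m * (LL m + 1)) := q1
        _ = m * rho m * (LL m + 1) := by ring
  obtain ⟨n, hn⟩ := sieve Bad hcard m0 (by
    intro m hm n hn hmem
    have hmem' : (n : ZMod (pr m)) ∈ (((box m).filter fun q => q.2.1 ≠ 0).image (fn m u1)) ∪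
      (((box m).filter fun q => q.2.1 ≠ 0).image (fn m u2)) := hmem
    rw [Finset.mem_union] at hmem'
    rcases hmem' with h | h
    · refine hlate1 m hm n hn u1 (fun i => ?_) h1 h
      have := hbound i
      have := abs_nonneg (u2 i)
      linarith
    · refine hlate1 m hm n hn u2 (fun i => ?_) h2 h
      have := hbound i
      have := abs_nonneg (u1 i)
      linarith)
  have hmem : ∀ m : ℕ, ∀ a b d : ℤ, |a| ≤ rho m → |b| ≤ rho m → |d| ≤ rho m → b ≠ 0 →
      (a, b, d) ∈ (box m).filter fun q => q.2.1 ≠ 0 := by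
    intro m a b d ha hb hd hb1
    rw [Finset.mem_filter]
    refine ⟨?_, hb1⟩
    show (a, b, d) ∈ Finset.Icc (-(rho m : ℤ)) (rho m) ×ˢ
      Finset.Icc (-(rho m : ℤ)) (rho m) ×ˢ Finset.Icc (-(rho m : ℤ)) (rho m)
    simp only [Finset.mem_product, Finset.mem_Icc]
    exact ⟨abs_le.1 ha, abs_le.1 hb, abs_le.1 hd⟩
  refine ⟨(n : ℤ), ?_⟩
  intro m a b d ha hb hd hb1
  constructor
  · intro h
    apply hn m
    have h3 := (key m u1 a b d n hb1 hb).1 h
    rw [Int.cast_natCast] at h3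
    rw [h3]
    exact Finset.mem_union_left _ (Finset.mem_image_of_mem _ (hmem m a b d ha hb hd hb1))
  · intro h
    apply hn m
    have h3 := (key m u2 a b d n hb1 hb).1 h
    rw [Int.cast_natCast] at h3
    rw [h3]
    exact Finset.mem_union_right _ (Finset.mem_image_of_mem _ (hmem m a b d ha hb hd hb1))

theorem good_symm (ω : Om) (v w : Fin 3 → ℤ) (h : good ω v w) : good ω w v := by
  intro m a b c ha hb hc hab
  rw [add_comm]
  exact h m b a c hb ha hc hab.symm

private theorem good.left_ne {ω : Om} {v w : Fin 3 → ℤ} (h : good ω v w) (m : ℕ) (a d : ℤ)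
    (ha : |a| ≤ rho m) (hd : |d| ≤ rho m) (ha0 : a ≠ 0) :
    chi ω m (a • v) ≠ (d : ZMod (pr m)) := by
  have := h m a 0 d ha (by simp) hd (Or.inl ha0)
  rwa [zero_smul, add_zero] at this

private theorem good.chi_ne {ω : Om} {v w : Fin 3 → ℤ} (h : good ω v w) (m : ℕ) : chi ω m v ≠ 0 := by
  have := h.left_ne m 1 0 (by simpa using one_le_rho m) (by simp) one_ne_zero
  rwa [one_smul, Int.cast_zero] at this

theorem good_hyp (ω : Om) (hω : Gen ω) (v w c : Fin 3 → ℤ) (hv : ∃ x, good ω v x)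
    (hw : ∃ x, good ω w x) (hind : ∀ a b d : ℤ, a • v + b • w + d • c = 0 → d = 0) :
    ∃ n : ℤ, good ω v (c + n • v) ∧ good ω w (c + n • v) := by
  obtain ⟨x, hx⟩ := hv
  obtain ⟨y, hy⟩ := hw
  obtain ⟨n, hn⟩ := exists_shift ω hω v c v w (fun m => hx.chi_ne m)
    (fun a b n h => hind (a + b * n) 0 b (by rw [← h]; module))
    (fun a b n h => hind (b * n) a b (by rw [← h]; module))
  refine ⟨n, ?_, ?_⟩
  · intro m a b d ha hb hd hab
    by_cases hb0 : b = 0
    · subst hb0
      rw [zero_smul, add_zero]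
      exact hx.left_ne m a d ha hd (hab.resolve_right (fun h => h rfl))
    · exact (hn m a b d ha hb hd hb0).1
  · intro m a b d ha hb hd hab
    by_cases hb0 : b = 0
    · subst hb0
      rw [zero_smul, add_zero]
      exact hy.left_ne m a d ha hd (hab.resolve_right (fun h => h rfl))
    · exact (hn m a b d ha hb hd hb0).2

end Pool.Agent.IRP
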