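import Pool.Agent.H.MP_8fbdb2_pr.LevelsA
import Pool.Agent.H.MP_8fbdb2_pr.Gen

set_option autoImplicit false

namespace Pool.Agent.IRP

open Pointwise

/-! ### Columns of products -/

theorem col_mul_sum (g h : G) (j : Fin 3) : col (g * h) j = ∑ i, h.1 i j • col g i := by
  funext a
  show (g * h).1 a j = _
  rw [Matrix.SpecialLinearGroup.coe_mul, Matrix.mul_apply, Finset.sum_apply]
  apply Finset.sum_congr rfl
  intro i _
  show g.1 a i * h.1 i j = h.1 i j • g.1 a i
  rw [smul_eq_mul, mul_comm]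

theorem chi_col_mul (ω : Om) (m : ℕ) (g h : G) (j : Fin 3) :
    chi ω m (col (g * h) j) = ∑ i, (h.1 i j : ZMod (pr m)) * chi ω m (col g i) := by
  rw [col_mul_sum, map_sum]
  apply Finset.sum_congr rfl
  intro i _
  rw [map_zsmul, zsmul_eq_mul]

/-! ### Coboundedness -/

theorem Usk_of_state (ω : Om) (m : ℕ) (g h : G) (hst : ∀ i, chi ω m (col g i) = chi ω m (col h i))
    (hg : g ∈ Usk ω m) : h ∈ Usk ω m := by
  obtain ⟨i, j, hij, h1, h2⟩ := hg
  refine ⟨i, j, hij, ?_, ?_⟩
  · show chi ω m (col h i) = 1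
    rw [← hst]; exact h1
  · show chi ω m (col h j) = 1
    rw [← hst]; exact h2

/-! ### Intersections -/

theorem exists_crt (ω : Om) (m m' : ℕ) (x u : Fin 3 → ℤ) (h : chi ω m x ≠ 0)
    (h' : chi ω m' x ≠ 0) : ∃ n : ℤ, chi ω m (u + n • x) = 1 ∧ chi ω m' (u + n • x) = 1 := by
  by_cases hm : m = m'
  · subst hm
    obtain ⟨n, hn⟩ := ZMod.intCast_surjective ((1 - chi ω m u) / chi ω m x)
    have : chi ω m (u + n • x) = 1 := by
      rw [map_add, map_zsmul, zsmul_eq_mul, hn, div_mul_cancel₀ _ h]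
      ring
    exact ⟨n, this, this⟩
  · have hcop : Nat.Coprime (pr m) (pr m') := by
      rw [Nat.coprime_primes (pr_prime m) (pr_prime m')]
      intro h
      exact hm (pr_strictMono.injective h)
    obtain ⟨n1, hn1⟩ := ZMod.natCast_zmod_surjective ((1 - chi ω m u) / chi ω m x)
    obtain ⟨n2, hn2⟩ := ZMod.natCast_zmod_surjective ((1 - chi ω m' u) / chi ω m' x)
    obtain ⟨k, hk1, hk2⟩ := Nat.chineseRemainder hcop n1 n2
    have e1 : (k : ZMod (pr m)) = n1 := (ZMod.natCast_eq_natCast_iff _ _ _).2 hk1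
    have e2 : (k : ZMod (pr m')) = n2 := (ZMod.natCast_eq_natCast_iff _ _ _).2 hk2
    refine ⟨k, ?_, ?_⟩
    · rw [map_add, map_zsmul, zsmul_eq_mul, Int.cast_natCast, e1, hn1, div_mul_cancel₀ _ h]
      ring
    · rw [map_add, map_zsmul, zsmul_eq_mul, Int.cast_natCast, e2, hn2, div_mul_cancel₀ _ h']
      ring

theorem Usk_int_aux (ω : Om) (m m' : ℕ) (g : G) (k : Fin 3) (h : chi ω m (col g k) ≠ 0)
    (h' : chi ω m' (col g k) ≠ 0) : (Usk ω m ∩ Usk ω m').Nonempty := by
  obtain ⟨i, hki⟩ := exists_other k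
  obtain ⟨j, hij, hkj⟩ := exists_third k i hki
  obtain ⟨n1, a1, a2⟩ := exists_crt ω m m' (col g k) (col g i) h h'
  obtain ⟨n2, b1, b2⟩ := exists_crt ω m m' (col g k) (col g j) h h'
  have c1 : col (g * E k i n1 * E k j n2) i = col g i + n1 • col g k := by
    rw [col_mul_E_ne hkj hij, col_mul_E_same hki]
  have c2 : col (g * E k i n1 * E k j n2) j = col g j + n2 • col g k := by
    rw [col_mul_E_same hkj, col_mul_E_ne hki hij.symm, col_mul_E_ne hki hki]
  refine ⟨g * E k i n1 * E k j n2, ⟨i, j, hij, ?_, ?_⟩, ⟨i, j, hij, ?_, ?_⟩⟩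
  · show chi ω m _ = 1
    rw [c1]; exact a1
  · show chi ω m _ = 1
    rw [c2]; exact b1
  · show chi ω m' _ = 1
    rw [c1]; exact a2
  · show chi ω m' _ = 1
    rw [c2]; exact b2

theorem exists_col_ne (ω : Om) (m : ℕ) : ∃ i, chi ω m (col 1 i) ≠ 0 := by
  by_contra hcon
  push Not at hcon
  exact chi_ne_zero ω m (hom_eq_zero_of_col _ 1 hcon)

theorem Usk_int (ω : Om) (m m' : ℕ) : (Usk ω m ∩ Usk ω m').Nonempty := by
  obtain ⟨i, hi⟩ := exists_col_ne ω m
  obtain ⟨j, hj⟩ := exists_col_ne ω m'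
  by_cases h1 : chi ω m' (col 1 i) ≠ 0
  · exact Usk_int_aux ω m m' 1 i hi h1
  by_cases h2 : chi ω m (col 1 j) ≠ 0
  · exact Usk_int_aux ω m m' 1 j h2 hj
  push Not at h1 h2
  have hij : j ≠ i := by
    rintro rfl
    exact hi h2
  apply Usk_int_aux ω m m' (1 * E j i 1) i
  · rw [col_mul_E_same hij, map_add, one_smul, h2, add_zero]
    exact hi
  · rw [col_mul_E_same hij, map_add, one_smul, h1, zero_add]
    exact hj

theorem Usk_cob (ω : Om) (m : ℕ) : ∃ F : Finset G, ∀ g, ∃ h ∈ F, g * h ∈ Usk ω m := by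
  classical
  obtain ⟨y, hy, -⟩ := Usk_int ω m m
  let st : G → (Fin 3 → ZMod (pr m)) := fun g i => chi ω m (col g i)
  let H : (Fin 3 → ZMod (pr m)) → G := fun s =>
    if hs : ∃ g0, st g0 = s then hs.choose⁻¹ * y else 1
  refine ⟨Finset.univ.image H, ?_⟩
  intro g
  refine ⟨H (st g), Finset.mem_image_of_mem _ (Finset.mem_univ _), ?_⟩
  have hs : ∃ g0, st g0 = st g := ⟨g, rfl⟩
  have hH : H (st g) = hs.choose⁻¹ * y := dif_pos hs
  have hg0 : ∀ i, chi ω m (col hs.choose i) = chi ω m (col g i) :=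
    fun i => congrFun hs.choose_spec i
  rw [hH]
  apply Usk_of_state ω m y _ _ hy
  intro j
  rw [chi_col_mul]
  have : chi ω m (col y j) = chi ω m (col (hs.choose * (hs.choose⁻¹ * y)) j) := by
    rw [mul_inv_cancel_left]
  rw [this, chi_col_mul]
  apply Finset.sum_congr rfl
  intro i _
  rw [hg0]

/-! ### Entries of products -/

theorem entry_pow_le (m : ℕ) : ∀ b ∈ S ^ m, ∀ i j, |b.1 i j| ≤ ((3 * beta) ^ m : ℕ) := by
  induction m with
  | zero =>
    intro b hb i j
    rw [pow_zero, Finset.mem_one] at hb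
    subst hb
    rw [Matrix.SpecialLinearGroup.coe_one, Matrix.one_apply]
    split_ifs <;> simp
  | succ m ih =>
    intro b hb i j
    rw [pow_succ] at hb
    obtain ⟨c, hc, s, hs, rfl⟩ := Finset.mem_mul.1 hb
    rw [Matrix.SpecialLinearGroup.coe_mul, Matrix.mul_apply]
    calc |∑ k, c.1 i k * s.1 k j| ≤ ∑ k : Fin 3, |c.1 i k * s.1 k j| := Finset.abs_sum_le_sum_abs _ _
      _ ≤ ∑ k : Fin 3, (((3 * beta) ^ m : ℕ) : ℤ) * beta := by
        apply Finset.sum_le_sum
        intro k _
        rw [abs_mul]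
        exact mul_le_mul (ih c hc i k) (entry_le_beta s hs k j) (abs_nonneg _) (by positivity)
      _ = (((3 * beta) ^ (m + 1) : ℕ) : ℤ) := by
        rw [Finset.sum_const, Finset.card_univ, Fintype.card_fin]
        push_cast
        rw [nsmul_eq_mul]
        push_cast
        ring

theorem Msk_disj (ω : Om) : ∀ g ∈ Msk ω, g ∉ thick (Usk ω) 0 := by
  rintro g ⟨l, l', hll, hgood⟩ ⟨m, -, y, ⟨i, j, hij, hi, hj⟩, b, hb, rfl⟩
  rw [Nat.sub_zero] at hb
  obtain ⟨k, hjk, hik⟩ := exists_third i j hij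
  have hchi : ∀ l, chi ω m (col (y * b) l) =
      ((b.1 i l + b.1 j l : ℤ) : ZMod (pr m)) + (b.1 k l : ZMod (pr m)) * chi ω m (col y k) := by
    intro l
    have hsum : ∀ f : Fin 3 → ZMod (pr m), ∑ t, f t = f i + f j + f k := by
      intro f
      have hu : (Finset.univ : Finset (Fin 3)) = {i, j, k} := by
        ext t
        simp only [Finset.mem_univ, Finset.mem_insert, Finset.mem_singleton, true_iff]
        exact fin3_cases hij hjk hik t
      rw [hu, Finset.sum_insert (by simp [hij, hik]), Finset.sum_insert (by simp [hjk]),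
        Finset.sum_singleton]
      ring
    have hi' : chi ω m (col y i) = 1 := hi
    have hj' : chi ω m (col y j) = 1 := hj
    rw [chi_col_mul, hsum, hi', hj']
    push_cast
    ring
  set P : ℤ := (((3 * beta) ^ m : ℕ) : ℤ) with hP
  have hP1 : 1 ≤ P := by
    rw [hP]
    have : 1 ≤ (3 * beta) ^ m := Nat.one_le_pow _ _ (by have := beta_pos; omega)
    exact_mod_cast this
  have hrho : ((rho m : ℕ) : ℤ) = 4 * P ^ 2 := by
    rw [hP]
    unfold rho
    push_cast
    rw [pow_mul']
    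
  have hPr : P ≤ rho m := by
    rw [hrho]; nlinarith
  have he : ∀ i j, |b.1 i j| ≤ P := entry_pow_le m b hb
  by_cases h0 : b.1 k l' = 0 ∧ b.1 k l = 0
  · apply hgood m 1 0 (b.1 i l + b.1 j l) (by rw [abs_one]; linarith) (by rw [abs_zero]; linarith)
      ?_ (Or.inl one_ne_zero)
    · rw [one_smul, zero_smul, add_zero, hchi l, h0.2]
      push_cast
      ring
    · calc |b.1 i l + b.1 j l| ≤ |b.1 i l| + |b.1 j l| := abs_add_le _ _
        _ ≤ P + P := add_le_add (he _ _) (he _ _)
        _ ≤ rho m := by rw [hrho]; nlinarith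
  · have hne : b.1 k l' ≠ 0 ∨ -b.1 k l ≠ 0 := by
      by_contra hcon
      push Not at hcon
      exact h0 ⟨hcon.1, by have := hcon.2; omega⟩
    apply hgood m (b.1 k l') (-b.1 k l)
      (b.1 k l' * (b.1 i l + b.1 j l) - b.1 k l * (b.1 i l' + b.1 j l'))
      ((he _ _).trans hPr) (by rw [abs_neg]; exact (he _ _).trans hPr) ?_ hne
    · rw [map_add, map_zsmul, map_zsmul, hchi l, hchi l', zsmul_eq_mul, zsmul_eq_mul]
      push_cast
      ring
    · have hb1 : |b.1 i l + b.1 j l| ≤ 2 * P := by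
        calc |b.1 i l + b.1 j l| ≤ |b.1 i l| + |b.1 j l| := abs_add_le _ _
          _ ≤ P + P := add_le_add (he _ _) (he _ _)
          _ = 2 * P := by ring
      have hb2 : |b.1 i l' + b.1 j l'| ≤ 2 * P := by
        calc |b.1 i l' + b.1 j l'| ≤ |b.1 i l'| + |b.1 j l'| := abs_add_le _ _
          _ ≤ P + P := add_le_add (he _ _) (he _ _)
          _ = 2 * P := by ring
      calc |b.1 k l' * (b.1 i l + b.1 j l) - b.1 k l * (b.1 i l' + b.1 j l')|
          ≤ |b.1 k l' * (b.1 i l + b.1 j l)| + |b.1 k l * (b.1 i l' + b.1 j l')| := abs_sub _ _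
        _ ≤ P * (2 * P) + P * (2 * P) := by
          rw [abs_mul, abs_mul]
          exact add_le_add
            (mul_le_mul (he _ _) hb1 (abs_nonneg _) (by linarith))
            (mul_le_mul (he _ _) hb2 (abs_nonneg _) (by linarith))
        _ = rho m := by rw [hrho]; ring

/-! ### Nonemptiness -/

theorem one_le_rho (m : ℕ) : 1 ≤ rho m := by
  unfold rho
  have : 1 ≤ (3 * beta) ^ (2 * m) := Nat.one_le_pow _ _ (by have := beta_pos; omega)
  omega

theorem exists_nonvanishing (ω : Om) (hω : Gen ω) (u x : Fin 3 → ℤ)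
    (hind : ∀ n : ℤ, u + n • x ≠ 0) :
    ∃ n : ℕ, ∀ m, (chi ω m u ≠ 0 ∨ chi ω m x ≠ 0) → chi ω m (u + (n : ℤ) • x) ≠ 0 := by
  classical
  obtain ⟨m0, hm0⟩ := hω
  set N : ℕ := ∑ i, (u i).natAbs + ∑ i, (x i).natAbs with hN
  let Bad : ∀ m, Finset (ZMod (pr m)) := fun m =>
    Finset.univ.filter fun r => (chi ω m u ≠ 0 ∨ chi ω m x ≠ 0) ∧ chi ω m u + r * chi ω m x = 0
  have hcard : ∀ m, (Bad m).card ≤ KK m := by
    intro m
    have h1 : (Bad m).card ≤ 1 := by
      apply Finset.card_le_one.2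
      intro a ha b hb
      rw [Finset.mem_filter] at ha hb
      obtain ⟨-, h0, ha⟩ := ha
      obtain ⟨-, -, hb⟩ := hb
      have hx : chi ω m x ≠ 0 := by
        intro hx
        rw [hx, mul_zero, add_zero] at ha
        rcases h0 with h0 | h0
        · exact h0 ha
        · exact h0 hx
      have : (a - b) * chi ω m x = 0 := by
        linear_combination ha - hb
      rcases mul_eq_zero.1 this with h | h
      · exact sub_eq_zero.1 h
      · exact absurd h hx
    have h2 : 1 ≤ KK m := by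
      unfold KK
      have : 1 ≤ (2 * rho m + 1) ^ 3 := Nat.one_le_pow _ _ (by omega)
      omega
    omega
  obtain ⟨n, hn⟩ := sieve Bad hcard (m0 + N + 1) (by
    intro m hm n hnL hmem
    rw [Finset.mem_filter] at hmem
    obtain ⟨-, -, h⟩ := hmem
    apply hm0 m (by omega) (u + (n : ℤ) • x) (hind n) ?_ 0 (by rw [abs_zero]; positivity)
    · rw [map_add, map_zsmul, zsmul_eq_mul]
      push_cast
      exact h
    · intro i
      have hu : |u i| ≤ (m : ℤ) := by
        rw [Int.abs_eq_natAbs]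
        have : (u i).natAbs ≤ ∑ i, (u i).natAbs :=
          Finset.single_le_sum (f := fun i => (u i).natAbs) (fun _ _ => Nat.zero_le _)
            (Finset.mem_univ i)
        have : (u i).natAbs ≤ m := by omega
        exact_mod_cast this
      have hx : |x i| ≤ (m : ℤ) := by
        rw [Int.abs_eq_natAbs]
        have : (x i).natAbs ≤ ∑ i, (x i).natAbs :=
          Finset.single_le_sum (f := fun i => (x i).natAbs) (fun _ _ => Nat.zero_le _)
            (Finset.mem_univ i)
        have : (x i).natAbs ≤ m := by omega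
        exact_mod_cast this
      have hn' : ((n : ℕ) : ℤ) ≤ LL m := by exact_mod_cast hnL.le
      calc |(u + (n : ℤ) • x) i| = |u i + (n : ℤ) * x i| := by simp
        _ ≤ |u i| + |(n : ℤ) * x i| := abs_add_le _ _
        _ = |u i| + (n : ℤ) * |x i| := by rw [abs_mul, Nat.abs_cast]
        _ ≤ m + (LL m : ℤ) * m := by
          apply add_le_add hu
          exact mul_le_mul hn' hx (abs_nonneg _) (by positivity)
        _ = ((m * 1 * (LL m + 1) : ℕ) : ℤ) := by push_cast; ring
        _ ≤ RR m := by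
          unfold RR
          have : m * 1 * (LL m + 1) ≤ m * rho m * (LL m + 1) :=
            Nat.mul_le_mul_right _ (Nat.mul_le_mul_left _ (one_le_rho m))
          exact_mod_cast this)
  refine ⟨n, ?_⟩
  intro m h h0
  apply hn m
  rw [Finset.mem_filter]
  refine ⟨Finset.mem_univ _, h, ?_⟩
  rw [map_add, map_zsmul, zsmul_eq_mul] at h0
  push_cast at h0
  exact h0

/-- A basis whose first column is nonvanishing at all levels. -/
theorem exists_basis (ω : Om) (hω : Gen ω) : ∃ g : G, ∀ m, chi ω m (col g 0) ≠ 0 := by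
  obtain ⟨n, hn⟩ := exists_nonvanishing ω hω (col 1 1) (col 1 2) (by
    intro n h
    have := col_indep 1 0 1 n (by rw [zero_smul, zero_add, one_smul]; exact h)
    exact one_ne_zero this.2.1)
  obtain ⟨n', hn'⟩ := exists_nonvanishing ω hω (col 1 0) (col 1 1 + (n : ℤ) • col 1 2) (by
    intro k h
    have := col_indep 1 1 k (k * n) (by
      rw [one_smul, mul_smul, add_assoc, ← smul_add]; exact h)
    exact one_ne_zero this.1)
  refine ⟨1 * E 2 1 n * E 1 0 n', ?_⟩
  intro m
  have hc : col (1 * E 2 1 n * E 1 0 n') 0 = col 1 0 + (n' : ℤ) • (col 1 1 + (n : ℤ) • col 1 2) := by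
    rw [col_mul_E_same (by decide), col_mul_E_ne (by decide) (by decide),
      col_mul_E_same (by decide)]
  rw [hc]
  apply hn' m
  by_contra hcon
  push Not at hcon
  obtain ⟨h0, h1⟩ := hcon
  have h2 : ¬ (chi ω m (col 1 1) ≠ 0 ∨ chi ω m (col 1 2) ≠ 0) := fun h => hn m h h1
  push Not at h2
  apply chi_ne_zero ω m
  apply hom_eq_zero_of_col _ 1
  intro i
  fin_cases i
  · exact h0
  · exact h2.1
  · exact h2.2

theorem Msk_nonempty (ω : Om) (hω : Gen ω) : (Msk ω).Nonempty := by
  obtain ⟨g, hg⟩ := exists_basis ω hω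
  obtain ⟨k, hk⟩ := exists_shift ω hω (col g 0) (col g 1) 0 0 hg
    (by
      intro a b n h
      rw [smul_zero, zero_add] at h
      exact (col_indep g (b * n) b 0 (by
        rw [zero_smul, add_zero, mul_smul, ← h, smul_add, add_comm])).2.1)
    (by
      intro a b n h
      rw [smul_zero, zero_add] at h
      exact (col_indep g (b * n) b 0 (by
        rw [zero_smul, add_zero, mul_smul, ← h, smul_add, add_comm])).2.1)
  have hind : ∀ a b n : ℤ, a • (col g 1 + k • col g 0) + b • (col g 2 + n • col g 0) = 0 →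
      b = 0 := by
    intro a b n h
    exact (col_indep g (a * k + b * n) a b (by
      rw [← h, add_smul, mul_smul, mul_smul, smul_add, smul_add]
      abel)).2.2
  obtain ⟨k', hk'⟩ := exists_shift ω hω (col g 0) (col g 2) (col g 1 + k • col g 0)
    (col g 1 + k • col g 0) hg hind hind
  refine ⟨g * E 0 1 k * E 0 2 k', 1, 2, by decide, ?_⟩
  have c1 : col (g * E 0 1 k * E 0 2 k') 1 = col g 1 + k • col g 0 := by
    rw [col_mul_E_ne (by decide) (by decide), col_mul_E_same (by decide)]
  have c2 : col (g * E 0 1 k * E 0 2 k') 2 = col g 2 + k' • col g 0 := by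
    rw [col_mul_E_same (by decide), col_mul_E_ne (by decide) (by decide),
      col_mul_E_ne (by decide) (by decide)]
  rw [c1, c2]
  intro m a b c ha hb hc hab
  by_cases hb0 : b = 0
  · subst hb0
    have ha0 : a ≠ 0 := by
      rcases hab with h | h
      · exact h
      · exact absurd rfl h
    have := (hk m 0 a c (by rw [abs_zero]; positivity) ha hc ha0).1
    rw [smul_zero, zero_add] at this
    rw [zero_smul, add_zero]
    exact this
  · exact (hk' m a b c ha hb hc hb0).1

theorem Msk_infinite (ω : Om) (hω : Gen ω) : (Msk ω).Infinite := by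
  obtain ⟨g, i, j, hij, hgood⟩ := Msk_nonempty ω hω
  obtain ⟨k, hjk, hik⟩ := exists_third i j hij
  apply Set.infinite_of_injective_forall_mem (f := fun n : ℤ => g * E i k n)
  · intro n n' h
    have h1 : E i k n = E i k n' := mul_left_cancel h
    have h2 : col (1 * E i k n) k = col (1 * E i k n') k := by rw [h1]
    rw [col_mul_E_same hik, col_mul_E_same hik] at h2
    have h3 := congrFun (add_left_cancel h2) i
    have h4 : col 1 i i = 1 := by
      show (1 : G).1 i i = 1
      rw [Matrix.SpecialLinearGroup.coe_one, Matrix.one_apply_eq]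
    simp only [Pi.smul_apply, h4, smul_eq_mul, mul_one] at h3
    exact h3
  · intro n
    refine ⟨i, j, hij, ?_⟩
    rw [col_mul_E_ne hik hik, col_mul_E_ne hik hjk]
    exact hgood

end Pool.Agent.IRP
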