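import Pool.Agent.H.MP_8fbdb2_pr.Levels

set_option autoImplicit false

namespace Pool.Agent.IRP

open MeasureTheory

instance (m : ℕ) : MeasurableSpace (Row m) := ⊤

instance (m : ℕ) : DiscreteMeasurableSpace (Row m) := ⟨fun _ => trivial⟩

noncomputable instance (m : ℕ) : Fintype (Row m) := by
  haveI : NeZero (pr m) := ⟨(pr_prime m).ne_zero⟩
  classical
  unfold Row
  infer_instance

instance (m : ℕ) : Nonempty (Row m) :=
  ⟨⟨fun _ => 1, fun h => one_ne_zero (congrFun h 0)⟩⟩

/-- Uniform measure on the nonzero rows. -/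
noncomputable def nu (m : ℕ) : Measure (Row m) := (PMF.uniformOfFintype (Row m)).toMeasure

instance (m : ℕ) : IsProbabilityMeasure (nu m) := by
  unfold nu
  infer_instance

/-- The product measure. -/
noncomputable def PP : Measure Om := Measure.infinitePi nu

instance : IsProbabilityMeasure PP := by
  unfold PP
  infer_instance

/-- Reduction of the entries of an element of `G` modulo `pr m`. -/
noncomputable def red (m : ℕ) (γ : G) : Matrix (Fin 3) (Fin 3) (ZMod (pr m)) :=
  fun i j => ((γ.1 i j : ℤ) : ZMod (pr m))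

theorem red_mul (m : ℕ) (γ δ : G) : red m (γ * δ) = red m γ * red m δ := by
  ext i j
  show (((γ * δ).1 i j : ℤ) : ZMod (pr m)) = _
  rw [Matrix.SpecialLinearGroup.coe_mul, Matrix.mul_apply, Matrix.mul_apply, Int.cast_sum]
  apply Finset.sum_congr rfl
  intro l _
  rw [Int.cast_mul]
  rfl

theorem red_one (m : ℕ) : red m (1 : G) = 1 := by
  ext i j
  show (((1 : G).1 i j : ℤ) : ZMod (pr m)) = _
  rw [Matrix.SpecialLinearGroup.coe_one, Matrix.one_apply, Matrix.one_apply]
  split_ifs <;> simp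

theorem vecMul_red (m : ℕ) (γ : G) (r : Fin 3 → ZMod (pr m)) :
    (fun j => ∑ i, r i * (((γ : G).1 i j : ℤ) : ZMod (pr m))) = Matrix.vecMul r (red m γ) := by
  funext j
  rfl

theorem actRow_ne (γ : G) (m : ℕ) (r : Row m) :
    (fun j => ∑ i, r.1 i * (((γ⁻¹ : G).1 i j : ℤ) : ZMod (pr m))) ≠ 0 := by
  intro h
  rw [vecMul_red] at h
  apply r.2
  have h2 : Matrix.vecMul (Matrix.vecMul r.1 (red m γ⁻¹)) (red m γ) = 0 := by
    rw [h, Matrix.zero_vecMul]
  rw [Matrix.vecMul_vecMul, ← red_mul, inv_mul_cancel, red_one, Matrix.vecMul_one] at h2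
  exact h2

/-- The action of `γ` on one row: `r ↦ r γ⁻¹`. -/
noncomputable def actRow (γ : G) (m : ℕ) (r : Row m) : Row m :=
  ⟨fun j => ∑ i, r.1 i * (((γ⁻¹ : G).1 i j : ℤ) : ZMod (pr m)), actRow_ne γ m r⟩

/-- The action of `γ` on the sample space. -/
noncomputable def act (γ : G) (ω : Om) : Om := fun m => actRow γ m (ω m)

theorem actRow_val (γ : G) (m : ℕ) (r : Row m) :
    (actRow γ m r).1 = Matrix.vecMul r.1 (red m γ⁻¹) := rfl

theorem actRow_mul (γ δ : G) (m : ℕ) (r : Row m) :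
    actRow (γ * δ) m r = actRow γ m (actRow δ m r) := by
  apply Subtype.ext
  rw [actRow_val, actRow_val, actRow_val, Matrix.vecMul_vecMul, ← red_mul, _root_.mul_inv_rev]

theorem actRow_one (m : ℕ) (r : Row m) : actRow 1 m r = r := by
  apply Subtype.ext
  rw [actRow_val, inv_one, red_one, Matrix.vecMul_one]

theorem chi_eq (ω : Om) (m : ℕ) (v : Fin 3 → ℤ) :
    chi ω m v = ∑ i, (ω m).1 i * (v i : ZMod (pr m)) := rfl

theorem chi_act (γ g : G) (ω : Om) (m : ℕ) (j : Fin 3) :
    chi (act γ ω) m (col (γ * g) j) = chi ω m (col g j) := by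
  have h1 : chi (act γ ω) m (col (γ * g) j) =
      Matrix.vecMul (Matrix.vecMul (ω m).1 (red m γ⁻¹)) (red m (γ * g)) j := rfl
  have h2 : chi ω m (col g j) = Matrix.vecMul (ω m).1 (red m g) j := rfl
  rw [h1, h2, Matrix.vecMul_vecMul, ← red_mul, inv_mul_cancel_left]

end Pool.Agent.IRP
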