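import Pool.Agent.H.MP_8fbdb2_pr.Meas

set_option autoImplicit false

namespace Pool.Agent.IRP

open MeasureTheory

open scoped ENNReal

theorem measurable_actRow (γ : G) (m : ℕ) : Measurable (actRow γ m) :=
  measurable_from_top

theorem measurable_act (γ : G) : Measurable (act γ) := by
  rw [measurable_pi_iff]
  intro m
  exact (measurable_actRow γ m).comp (measurable_pi_apply m)

/-- `actRow γ m` as a permutation of the rows. -/
noncomputable def actEquiv (γ : G) (m : ℕ) : Row m ≃ Row m where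
  toFun := actRow γ m
  invFun := actRow γ⁻¹ m
  left_inv r := by rw [← actRow_mul, inv_mul_cancel, actRow_one]
  right_inv r := by rw [← actRow_mul, mul_inv_cancel, actRow_one]

open Classical in
theorem nu_apply (m : ℕ) (s : Set (Row m)) :
    nu m s = (Finset.univ.filter (fun r : Row m => r ∈ s)).card / Fintype.card (Row m) := by
  unfold nu
  rw [PMF.toMeasure_uniformOfFintype_apply _ (DiscreteMeasurableSpace.forall_measurableSet s),
    Fintype.card_subtype]

theorem map_nu (γ : G) (m : ℕ) : (nu m).map (actRow γ m) = nu m := by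
  classical
  ext s hs
  rw [Measure.map_apply (measurable_actRow γ m) hs, nu_apply, nu_apply]
  congr 2
  apply Finset.card_bij (fun r _ => actRow γ m r)
  · intro r hr
    rw [Finset.mem_filter] at hr ⊢
    exact ⟨Finset.mem_univ _, hr.2⟩
  · intro a _ b _ h
    exact (actEquiv γ m).injective h
  · intro b hb
    rw [Finset.mem_filter] at hb
    obtain ⟨a, ha⟩ := (actEquiv γ m).surjective b
    refine ⟨a, ?_, ha⟩
    rw [Finset.mem_filter]
    refine ⟨Finset.mem_univ _, ?_⟩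
    show actRow γ m a ∈ s
    rw [show actRow γ m a = b from ha]
    exact hb.2

theorem map_act (γ : G) : PP.map (act γ) = PP := by
  unfold PP
  have h := Measure.infinitePi_map_pi (μ := nu) (f := fun m => actRow γ m)
    (fun m => measurable_actRow γ m)
  have h2 : (fun m => (nu m).map (actRow γ m)) = nu := funext fun m => map_nu γ m
  rw [h2] at h
  exact h

/-- The number of rows with a prescribed value of a nonzero linear form. -/
theorem card_fiber_le (m : ℕ) (z : Fin 3 → ZMod (pr m)) (hz : z ≠ 0) (c : ZMod (pr m)) :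
    (Finset.univ.filter (fun r : Row m => ∑ i, r.1 i * z i = c)).card ≤ pr m ^ 2 := by
  classical
  obtain ⟨i0, hi0⟩ : ∃ i, z i ≠ 0 := by
    by_contra h
    push Not at h
    exact hz (funext h)
  have hcard : Fintype.card ({j : Fin 3 // j ≠ i0} → ZMod (pr m)) = pr m ^ 2 := by
    rw [Fintype.card_fun, ZMod.card, Fintype.card_subtype_compl, Fintype.card_fin]
    simp
  rw [← hcard, ← Finset.card_univ]
  apply Finset.card_le_card_of_injOn (fun r j => r.1 j.1)
  · intro r _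
    exact Finset.mem_univ _
  · intro r hr s hs h
    rw [Finset.mem_coe, Finset.mem_filter] at hr hs
    have h1 : ∀ j, j ≠ i0 → r.1 j = s.1 j := fun j hj => congrFun h ⟨j, hj⟩
    have h2 : r.1 i0 * z i0 = s.1 i0 * z i0 := by
      have e1 := Finset.add_sum_erase Finset.univ (fun i => r.1 i * z i) (Finset.mem_univ i0)
      have e2 := Finset.add_sum_erase Finset.univ (fun i => s.1 i * z i) (Finset.mem_univ i0)
      have e3 : ∑ i ∈ Finset.univ.erase i0, r.1 i * z i =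
          ∑ i ∈ Finset.univ.erase i0, s.1 i * z i := by
        apply Finset.sum_congr rfl
        intro i hi
        rw [h1 i (Finset.ne_of_mem_erase hi)]
      have e4 : r.1 i0 * z i0 + ∑ i ∈ Finset.univ.erase i0, r.1 i * z i =
          s.1 i0 * z i0 + ∑ i ∈ Finset.univ.erase i0, s.1 i * z i := by
        rw [e1, e2, hr.2, hs.2]
      rw [e3] at e4
      exact add_right_cancel e4
    apply Subtype.ext
    funext j
    by_cases hj : j = i0
    · rw [hj]
      exact mul_right_cancel₀ hi0 h2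
    · exact h1 j hj

theorem card_row (m : ℕ) : Fintype.card (Row m) + 1 = pr m ^ 3 := by
  classical
  have h1 : Fintype.card (Row m) =
      Fintype.card {r : Fin 3 → ZMod (pr m) // r ≠ 0} := Fintype.card_congr (Equiv.refl _)
  have h2 : Fintype.card {r : Fin 3 → ZMod (pr m) // r ≠ 0} =
      Fintype.card (Fin 3 → ZMod (pr m)) - 1 := by
    rw [Fintype.card_subtype_compl, Fintype.card_subtype_eq]
  have h3 : Fintype.card (Fin 3 → ZMod (pr m)) = pr m ^ 3 := by
    rw [Fintype.card_fun, ZMod.card, Fintype.card_fin]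
  rw [h1, h2, h3]
  have : 0 < pr m ^ 3 := pow_pos (pr_prime m).pos 3
  omega

theorem nu_fiber_le (m : ℕ) (z : Fin 3 → ZMod (pr m)) (hz : z ≠ 0) (c : ZMod (pr m)) :
    nu m {r : Row m | ∑ i, r.1 i * z i = c} ≤ 2 / (pr m : ℝ≥0∞) := by
  classical
  rw [nu_apply]
  have hp := (pr_prime m).two_le
  have h1 := card_fiber_le m z hz c
  have h2 := card_row m
  have h0 : (Finset.univ.filter (fun r : Row m => r ∈ {r : Row m | ∑ i, r.1 i * z i = c})).card
      ≤ pr m ^ 2 := by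
    refine le_trans (le_of_eq ?_) h1
    congr 1
  have h3 : ∀ N : ℕ, N ≤ pr m ^ 2 → (N : ℝ≥0∞) / (Fintype.card (Row m) : ℝ≥0∞) ≤
      2 / (pr m : ℝ≥0∞) := ?_
  · refine h3 _ ?_
    convert h0
  intro N hN
  have hN' : (N : ℝ≥0∞) ≤ ((pr m ^ 2 : ℕ) : ℝ≥0∞) := Nat.cast_le.2 hN
  rw [ENNReal.div_le_iff_le_mul (Or.inl (by
      have : 0 < Fintype.card (Row m) := Fintype.card_pos
      exact_mod_cast this.ne')) (Or.inl (ENNReal.natCast_ne_top _))]
  refine hN'.trans ?_
  have h4 : pr m ^ 2 * pr m ≤ 2 * Fintype.card (Row m) := by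
    have h5 : 2 ≤ pr m ^ 3 := by
      calc 2 ≤ pr m := hp
        _ ≤ pr m ^ 3 := Nat.le_self_pow (by norm_num) _
    have h6 : pr m ^ 2 * pr m = pr m ^ 3 := by ring
    omega
  have hp0 : (pr m : ℝ≥0∞) ≠ 0 := by exact_mod_cast (pr_prime m).ne_zero
  have hpt : (pr m : ℝ≥0∞) ≠ ∞ := ENNReal.natCast_ne_top _
  rw [ENNReal.div_eq_inv_mul, mul_assoc, ← ENNReal.mul_le_mul_iff_right hp0 hpt, ← mul_assoc,
    ENNReal.mul_inv_cancel hp0 hpt, one_mul]
  calc (pr m : ℝ≥0∞) * ((pr m ^ 2 : ℕ) : ℝ≥0∞) = ((pr m ^ 2 * pr m : ℕ) : ℝ≥0∞) := by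
        push_cast; ring
    _ ≤ ((2 * Fintype.card (Row m) : ℕ) : ℝ≥0∞) := Nat.cast_le.2 h4
    _ = 2 * (Fintype.card (Row m) : ℝ≥0∞) := by push_cast; ring

/-- The exceptional rows of level `m`. -/
def badRow (m : ℕ) : Set (Row m) :=
  {r | ∃ z : Fin 3 → ℤ, z ≠ 0 ∧ (∀ i, |z i| ≤ RR m) ∧ ∃ c : ℤ, |c| ≤ RR m ∧
    ∑ i, r.1 i * (z i : ZMod (pr m)) = (c : ZMod (pr m))}

theorem RR_lt_pr (m : ℕ) : RR m < pr m := by
  have h := QQ_le_pr m
  unfold QQ at h
  have h1 : (2 * RR m + 1) ^ 4 ≤ 2 ^ (m + 3) * (KK m + (2 * RR m + 1) ^ 4) := by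
    calc (2 * RR m + 1) ^ 4 ≤ KK m + (2 * RR m + 1) ^ 4 := Nat.le_add_left _ _
      _ ≤ 2 ^ (m + 3) * (KK m + (2 * RR m + 1) ^ 4) :=
          Nat.le_mul_of_pos_left _ (by positivity)
  have h2 : 2 * RR m + 1 ≤ (2 * RR m + 1) ^ 4 := Nat.le_self_pow (by norm_num) _
  omega

theorem cast_ne_zero_of_small (m : ℕ) (z : Fin 3 → ℤ) (hz : z ≠ 0) (hb : ∀ i, |z i| ≤ RR m) :
    (fun i => (z i : ZMod (pr m))) ≠ 0 := by
  intro h
  apply hz
  funext i
  have h1 : ((z i : ℤ) : ZMod (pr m)) = 0 := congrFun h i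
  rw [ZMod.intCast_zmod_eq_zero_iff_dvd] at h1
  apply Int.eq_zero_of_abs_lt_dvd h1
  have h2 := hb i
  have h3 : (RR m : ℤ) < (pr m : ℤ) := by exact_mod_cast RR_lt_pr m
  omega

theorem nu_badRow_le (m : ℕ) :
    nu m (badRow m) ≤ ((2 * RR m + 1) ^ 4 : ℕ) * (2 / (pr m : ℝ≥0∞)) := by
  classical
  set B : Finset ((Fin 3 → ℤ) × ℤ) :=
    (Fintype.piFinset (fun _ : Fin 3 => Finset.Icc (-(RR m : ℤ)) (RR m))) ×ˢ
      (Finset.Icc (-(RR m : ℤ)) (RR m)) with hB
  have hIcc : (Finset.Icc (-(RR m : ℤ)) (RR m)).card = 2 * RR m + 1 := by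
    rw [Int.card_Icc]
    omega
  have hcard : B.card = (2 * RR m + 1) ^ 4 := by
    rw [hB, Finset.card_product, Fintype.card_piFinset]
    simp only [hIcc, Finset.prod_const, Finset.card_univ, Fintype.card_fin]
    ring
  have hsub : badRow m ⊆ ⋃ q ∈ B.filter (fun q => q.1 ≠ 0),
      {r : Row m | ∑ i, r.1 i * (q.1 i : ZMod (pr m)) = (q.2 : ZMod (pr m))} := by
    rintro r ⟨z, hz, hb, c, hc, h⟩
    rw [Set.mem_iUnion₂]
    refine ⟨(z, c), ?_, h⟩
    rw [Finset.mem_filter, hB, Finset.mem_product, Fintype.mem_piFinset]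
    refine ⟨⟨fun i => ?_, ?_⟩, hz⟩
    · rw [Finset.mem_Icc]
      exact abs_le.1 (hb i)
    · rw [Finset.mem_Icc]
      exact abs_le.1 hc
  calc nu m (badRow m) ≤ nu m (⋃ q ∈ B.filter (fun q => q.1 ≠ 0),
      {r : Row m | ∑ i, r.1 i * (q.1 i : ZMod (pr m)) = (q.2 : ZMod (pr m))}) :=
        measure_mono hsub
    _ ≤ ∑ q ∈ B.filter (fun q => q.1 ≠ 0),
      nu m {r : Row m | ∑ i, r.1 i * (q.1 i : ZMod (pr m)) = (q.2 : ZMod (pr m))} :=
        measure_biUnion_finset_le _ _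
    _ ≤ ∑ _q ∈ B.filter (fun q => q.1 ≠ 0), 2 / (pr m : ℝ≥0∞) := by
        apply Finset.sum_le_sum
        intro q hq
        rw [Finset.mem_filter, hB, Finset.mem_product, Fintype.mem_piFinset] at hq
        apply nu_fiber_le m (fun i => (q.1 i : ZMod (pr m)))
        apply cast_ne_zero_of_small m q.1 hq.2
        intro i
        exact abs_le.2 (Finset.mem_Icc.1 (hq.1.1 i))
    _ ≤ ((2 * RR m + 1) ^ 4 : ℕ) * (2 / (pr m : ℝ≥0∞)) := by
        rw [Finset.sum_const, nsmul_eq_mul]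
        gcongr
        rw [← hcard]
        exact Finset.card_filter_le _ _

theorem nu_badRow_le' (m : ℕ) : nu m (badRow m) ≤ (2 : ℝ≥0∞)⁻¹ ^ m := by
  refine (nu_badRow_le m).trans ?_
  have h := QQ_le_pr m
  unfold QQ at h
  have h1 : 2 ^ m * ((2 * RR m + 1) ^ 4 * 2) ≤ pr m := by
    have h2 : 2 ^ m * ((2 * RR m + 1) ^ 4 * 2) ≤
        2 ^ (m + 3) * (KK m + (2 * RR m + 1) ^ 4) := by
      calc 2 ^ m * ((2 * RR m + 1) ^ 4 * 2) = 2 ^ (m + 1) * (2 * RR m + 1) ^ 4 := by ring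
        _ ≤ 2 ^ (m + 3) * (KK m + (2 * RR m + 1) ^ 4) := by
            apply Nat.mul_le_mul
            · exact Nat.pow_le_pow_right (by norm_num) (by omega)
            · exact Nat.le_add_left _ _
    omega
  have hp0 : (pr m : ℝ≥0∞) ≠ 0 := by exact_mod_cast (pr_prime m).ne_zero
  have hpt : (pr m : ℝ≥0∞) ≠ ∞ := ENNReal.natCast_ne_top _
  rw [← mul_div_assoc, ENNReal.div_le_iff hp0 hpt, ← ENNReal.inv_pow, ← ENNReal.div_eq_inv_mul,
    ENNReal.le_div_iff_mul_le (Or.inl (by simp)) (Or.inl (by simp))]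
  calc (((2 * RR m + 1) ^ 4 : ℕ) : ℝ≥0∞) * 2 * 2 ^ m
      = ((2 ^ m * ((2 * RR m + 1) ^ 4 * 2) : ℕ) : ℝ≥0∞) := by push_cast; ring
    _ ≤ (pr m : ℝ≥0∞) := Nat.cast_le.2 h1

theorem ae_gen : ∀ᵐ ω ∂PP, Gen ω := by
  have hPP : ∀ m, PP {ω : Om | ω m ∈ badRow m} = nu m (badRow m) := by
    intro m
    have h := Measure.infinitePi_map_eval (μ := nu) m
    have h2 : PP {ω : Om | ω m ∈ badRow m} = (PP.map (fun ω : Om => ω m)) (badRow m) := by
      rw [Measure.map_apply (measurable_pi_apply m)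
        (DiscreteMeasurableSpace.forall_measurableSet _)]
      rfl
    rw [h2]
    unfold PP
    rw [h]
  have hsum : (∑' m, PP {ω : Om | ω m ∈ badRow m}) ≠ ∞ := by
    apply ne_top_of_le_ne_top (b := ∑' m : ℕ, (2 : ℝ≥0∞)⁻¹ ^ m)
    · rw [ENNReal.tsum_geometric]
      rw [ne_eq, ENNReal.inv_eq_top, ENNReal.one_sub_inv_two]
      simp
    · apply ENNReal.tsum_le_tsum
      intro m
      rw [hPP]
      exact nu_badRow_le' m
  filter_upwards [ae_eventually_notMem hsum] with ω hω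
  rw [Filter.eventually_atTop] at hω
  obtain ⟨m0, hm0⟩ := hω
  refine ⟨m0, ?_⟩
  intro m hm z hz hb c hc h
  apply hm0 m hm
  exact ⟨z, hz, hb, c, hc, h⟩

end Pool.Agent.IRP
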