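import Pool.Agent.H.MP_8fbdb2_pr.Defs
import Pool.Agent.H.MP_8fbdb2_pr.Gen

set_option autoImplicit false

namespace Pool.Agent.IRP

open Pointwise

theorem inv_mem_S_pow {n : ℕ} {s : G} (hs : s ∈ S ^ n) : s⁻¹ ∈ S ^ n := by
  induction n generalizing s with
  | zero =>
    rw [pow_zero, Finset.mem_one] at hs ⊢
    rw [hs, inv_one]
  | succ n ih =>
    rw [pow_succ] at hs
    rw [pow_succ']
    obtain ⟨a, ha, b, hb, rfl⟩ := Finset.mem_mul.1 hs
    rw [mul_inv_rev]
    exact Finset.mul_mem_mul (inv_mem_S hb) (ih ha)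

theorem exists_mem_S_pow (g : G) : ∃ n : ℕ, g ∈ S ^ n := by
  have hg : g ∈ Subgroup.closure {g : G | ∃ i j : Fin 3, i ≠ j ∧ g = E i j 1} := by
    rw [closure_E]
    exact Subgroup.mem_top g
  induction hg using Subgroup.closure_induction with
  | mem x hx =>
    obtain ⟨i, j, _, rfl⟩ := hx
    exact ⟨1, by rw [pow_one]; exact E_mem_S i j⟩
  | one => exact ⟨0, by rw [pow_zero, Finset.mem_one]⟩
  | mul x y _ _ hx hy =>
    obtain ⟨a, ha⟩ := hx
    obtain ⟨b, hb⟩ := hy
    exact ⟨a + b, by rw [pow_add]; exact Finset.mul_mem_mul ha hb⟩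
  | inv x _ hx =>
    obtain ⟨a, ha⟩ := hx
    exact ⟨a, inv_mem_S_pow ha⟩

section

variable {M : Set G} {U0 : ℕ → Set G}

theorem thick_antitone {k l : ℕ} (h : k ≤ l) : thick U0 l ⊆ thick U0 k := by
  rintro g ⟨m, hm, y, hy, b, hb, rfl⟩
  exact ⟨m, h.trans hm, y, hy, b, S_pow_mono (by omega) hb, rfl⟩

theorem thick_step {k : ℕ} {g s : G} (hg : g ∈ thick U0 (k + 1)) (hs : s ∈ S) :
    g * s ∈ thick U0 k := by
  obtain ⟨m, hm, y, hy, b, hb, rfl⟩ := hg
  refine ⟨m, by omega, y, hy, b * s, ?_, by rw [mul_assoc]⟩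
  have : m - k = (m - (k + 1)) + 1 := by omega
  rw [this, pow_succ]
  exact Finset.mul_mem_mul hb hs

theorem U0_sub_thick {k m : ℕ} (h : k ≤ m) : U0 m ⊆ thick U0 k := by
  intro g hg
  refine ⟨m, h, g, hg, 1, ?_, by rw [mul_one]⟩
  exact S_pow_mono (a := 0) (Nat.zero_le _) (by simp)

theorem reach_mono {k a b : ℕ} (h : a ≤ b) : reach M U0 k a ⊆ reach M U0 k b := by
  induction b with
  | zero =>
    have : a = 0 := by omega
    rw [this]
  | succ b ih =>
    rcases Nat.lt_or_ge a (b + 1) with h1 | h1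
    · intro g hg
      exact Or.inl (ih (by omega) hg)
    · have : a = b + 1 := by omega
      rw [this]

theorem M_sub_comp {k : ℕ} : M ⊆ comp M U0 k := fun _ hg => ⟨0, hg⟩

theorem comp_close {k : ℕ} {g s : G} (hs : s ∈ S) (hg : g ∉ thick U0 k)
    (h : g * s ∈ comp M U0 k) : g ∈ comp M U0 k := by
  obtain ⟨n, hn⟩ := h
  exact ⟨n + 1, Or.inr ⟨hg, s, hs, hn⟩⟩

theorem comp_close' {k : ℕ} {g s : G} (hs : s ∈ S) (hg : g * s ∉ thick U0 k)
    (h : g ∈ comp M U0 k) : g * s ∈ comp M U0 k := by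
  apply comp_close (inv_mem_S hs) hg
  rwa [mul_inv_cancel_right]

theorem comp_mono_succ {k : ℕ} : comp M U0 k ⊆ comp M U0 (k + 1) := by
  rintro g ⟨n, hn⟩
  refine ⟨n, ?_⟩
  induction n generalizing g with
  | zero => exact hn
  | succ n ih =>
    rcases hn with h | ⟨h1, s, hs, h2⟩
    · exact Or.inl (ih h)
    · exact Or.inr ⟨fun h => h1 (thick_antitone (Nat.le_succ k) h), s, hs, ih h2⟩

theorem comp_mono {k l : ℕ} (h : k ≤ l) : comp M U0 k ⊆ comp M U0 l := by
  induction l with
  | zero =>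
    have : k = 0 := by omega
    rw [this]
  | succ l ih =>
    rcases Nat.lt_or_ge k (l + 1) with h1 | h1
    · exact (ih (by omega)).trans comp_mono_succ
    · have : k = l + 1 := by omega
      rw [this]

variable (hdisj : ∀ g ∈ M, g ∉ thick U0 0)

include hdisj in
theorem comp_disj {k : ℕ} {g : G} (hg : g ∈ comp M U0 k) : g ∉ thick U0 k := by
  obtain ⟨n, hn⟩ := hg
  induction n generalizing g with
  | zero => exact fun h => hdisj g hn (thick_antitone (Nat.zero_le k) h)
  | succ n ih =>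
    rcases hn with h | ⟨h1, _⟩
    · exact ih h
    · exact h1

include hdisj in
theorem comp_step {k : ℕ} {g s : G} (hs : s ∈ S) (hg : g ∈ comp M U0 k) :
    g * s ∈ comp M U0 (k + 1) := by
  apply comp_close' hs
  · intro h
    have := thick_step h (inv_mem_S hs)
    rw [mul_inv_cancel_right] at this
    exact comp_disj hdisj hg this
  · exact comp_mono_succ hg

variable (hMconn : ConnS M) (hMinf : M.Infinite)

include hMconn hMinf in
theorem connS_comp (k : ℕ) : ConnS (comp M U0 k) := by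
  intro q hq
  obtain ⟨x0, hx0⟩ := hMinf.nonempty
  have hM : ∀ x ∈ M, ∀ y ∈ M, q x → q y := hMconn q (by
    intro x hx s hs hxs
    exact hq x (M_sub_comp hx) s hs (M_sub_comp hxs))
  have key : ∀ n, ∀ g ∈ reach M U0 k n, (q g ↔ q x0) := by
    intro n
    induction n with
    | zero => exact fun g hg => ⟨hM g hg x0 hx0, hM x0 hx0 g hg⟩
    | succ n ih =>
      intro g hg
      rcases hg with h | ⟨h1, s, hs, h2⟩
      · exact ih g h
      · rw [hq g ⟨n + 1, Or.inr ⟨h1, s, hs, h2⟩⟩ s hs ⟨n, h2⟩]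
        exact ih _ h2
  rintro x ⟨a, ha⟩ y ⟨b, hb⟩ hqx
  exact (key b y hb).2 ((key a x ha).1 hqx)

variable (hUconn : ∀ m, ConnS (U0 m)) (hUint : ∀ m m', (U0 m ∩ U0 m').Nonempty)

include hUconn hUint in
theorem connS_thick (k : ℕ) : ConnS (thick U0 k) := by
  intro q hq
  have h1 : ∀ m, k ≤ m → ∀ y ∈ U0 m, ∀ j, j ≤ m - k → ∀ b ∈ S ^ j, (q (y * b) ↔ q y) := by
    intro m hm y hy j
    induction j with
    | zero =>
      intro _ b hb
      rw [pow_zero, Finset.mem_one] at hb
      rw [hb, mul_one]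
    | succ j ih =>
      intro hj b hb
      rw [pow_succ] at hb
      obtain ⟨a, ha, s, hs, rfl⟩ := Finset.mem_mul.1 hb
      rw [← ih (by omega) a ha, ← mul_assoc]
      symm
      apply hq _ _ s hs
      · exact ⟨m, hm, y, hy, a * s, S_pow_mono hj hb, by rw [mul_assoc]⟩
      · exact ⟨m, hm, y, hy, a, S_pow_mono (by omega) ha, rfl⟩
  have h2 : ∀ m, k ≤ m → ∀ x ∈ U0 m, ∀ y ∈ U0 m, q x → q y := fun m hm => hUconn m q (by
    intro x hx s hs hxs
    exact hq x (U0_sub_thick hm hx) s hs (U0_sub_thick hm hxs))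
  rintro x ⟨m, hm, y, hy, b, hb, rfl⟩ x' ⟨m', hm', y', hy', b', hb', rfl⟩ hqx
  rw [h1 m hm y hy (m - k) le_rfl b hb] at hqx
  rw [h1 m' hm' y' hy' (m' - k) le_rfl b' hb']
  obtain ⟨z, hz, hz'⟩ := hUint m m'
  exact h2 m' hm' z hz' y' hy' (h2 m hm y hy z hz hqx)

include hdisj hUconn hUint in
theorem connS_compl (k : ℕ) : ConnS (comp M U0 k)ᶜ := by
  intro q hq
  have hT : thick U0 k ⊆ (comp M U0 k)ᶜ := fun g hg h => comp_disj hdisj h hg
  have h1 : ∀ x ∈ thick U0 k, ∀ y ∈ thick U0 k, q x → q y :=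
    connS_thick hUconn hUint k q (by
      intro x hx s hs hxs
      exact hq x (hT hx) s hs (hT hxs))
  have h2 : ∀ n, ∀ g ∈ (comp M U0 k)ᶜ, ∀ b ∈ S ^ n, g * b ∈ thick U0 k → (q g ↔ q (g * b)) := by
    intro n
    induction n with
    | zero =>
      intro g _ b hb _
      rw [pow_zero, Finset.mem_one] at hb
      rw [hb, mul_one]
    | succ n ih =>
      intro g hg b hb hgb
      rw [pow_succ'] at hb
      obtain ⟨s, hs, b', hb', rfl⟩ := Finset.mem_mul.1 hb
      by_cases hgT : g ∈ thick U0 k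
      · exact ⟨h1 g hgT _ hgb, h1 _ hgb g hgT⟩
      · have hgs : g * s ∈ (comp M U0 k)ᶜ := fun h => hg (comp_close hs hgT h)
        rw [hq g hg s hs hgs, ← mul_assoc]
        rw [← mul_assoc] at hgb
        exact ih (g * s) hgs b' hb' hgb
  obtain ⟨t, ht, -⟩ := hUint k k
  have htT : t ∈ thick U0 k := U0_sub_thick le_rfl ht
  have h3 : ∀ g ∈ (comp M U0 k)ᶜ, (q g ↔ q t) := by
    intro g hg
    obtain ⟨n, hn⟩ := exists_mem_S_pow (g⁻¹ * t)
    have := h2 n g hg _ hn (by rwa [mul_inv_cancel_left])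
    rwa [mul_inv_cancel_left] at this
  intro x hx y hy hqx
  exact (h3 y hy).2 ((h3 x hx).1 hqx)

include hdisj in
theorem mem_comp_of_pow {x0 : G} (hx0 : x0 ∈ M) (n : ℕ) :
    ∀ b ∈ S ^ n, x0 * b ∈ comp M U0 n := by
  induction n with
  | zero =>
    intro b hb
    rw [pow_zero, Finset.mem_one] at hb
    rw [hb, mul_one]
    exact M_sub_comp hx0
  | succ n ih =>
    intro b hb
    rw [pow_succ] at hb
    obtain ⟨a, ha, s, hs, rfl⟩ := Finset.mem_mul.1 hb
    rw [← mul_assoc]
    exact comp_step hdisj hs (ih a ha)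

include hdisj hMinf in
theorem exists_comp (g : G) : ∃ k, g ∈ comp M U0 k := by
  obtain ⟨x0, hx0⟩ := hMinf.nonempty
  obtain ⟨n, hn⟩ := exists_mem_S_pow (x0⁻¹ * g)
  have := mem_comp_of_pow hdisj hx0 n _ hn
  rw [mul_inv_cancel_left] at this
  exact ⟨n, this⟩

include hdisj hUint in
theorem exists_not_comp (k : ℕ) : ∃ g, g ∉ comp M U0 k := by
  obtain ⟨t, ht, -⟩ := hUint k k
  exact ⟨t, fun h => comp_disj hdisj h (U0_sub_thick le_rfl ht)⟩

include hdisj in
/-- Leaving `comp (k+1)` from `comp k` crosses the layer. -/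
theorem cross (k n : ℕ) : ∀ x ∈ comp M U0 k, ∀ b ∈ S ^ n, x * b ∉ comp M U0 (k + 1) →
    ∃ b1 ∈ S ^ n, x * b1 ∈ comp M U0 (k + 1) ∧ x * b1 ∉ comp M U0 k := by
  induction n with
  | zero =>
    intro x hx b hb h
    rw [pow_zero, Finset.mem_one] at hb
    rw [hb, mul_one] at h
    exact absurd (comp_mono_succ hx) h
  | succ n ih =>
    intro x hx b hb h
    rw [pow_succ'] at hb
    obtain ⟨s, hs, b', hb', rfl⟩ := Finset.mem_mul.1 hb
    rw [← mul_assoc] at h
    by_cases h1 : x * s ∈ comp M U0 k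
    · obtain ⟨b1, hb1, h2, h3⟩ := ih (x * s) h1 b' hb' h
      refine ⟨s * b1, ?_, by rwa [← mul_assoc], by rwa [← mul_assoc]⟩
      rw [pow_succ']
      exact Finset.mul_mem_mul hs hb1
    · exact ⟨s, S_pow_mono (a := 1) (by omega) (by rwa [pow_one]), comp_step hdisj hs hx, h1⟩

include hdisj hMinf in
theorem layer_infinite (hcob : ∀ m, ∃ F : Finset G, ∀ g, ∃ h ∈ F, g * h ∈ U0 m) (k : ℕ) :
    (comp M U0 (k + 1) \ comp M U0 k).Infinite := by
  intro hfin
  apply hMinf
  obtain ⟨F, hF⟩ := hcob (k + 1)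
  choose d hd using exists_mem_S_pow
  obtain ⟨N, hN⟩ : ∃ N, ∀ h ∈ F, d h ≤ N := ⟨F.sup d, fun h hh => Finset.le_sup (f := d) hh⟩
  have hsub : M ⊆ (fun q : G × G => q.1 * q.2⁻¹) ''
      ((comp M U0 (k + 1) \ comp M U0 k) ×ˢ ((S ^ N : Finset G) : Set G)) := by
    intro x hx
    obtain ⟨h, hh, hxh⟩ := hF x
    obtain ⟨b1, hb1, h2, h3⟩ := cross hdisj k N x (M_sub_comp hx) h (S_pow_mono (hN h hh) (hd h))
      (fun h' => comp_disj hdisj h' (U0_sub_thick le_rfl hxh))
    exact ⟨(x * b1, b1), ⟨⟨h2, h3⟩, hb1⟩, by simp⟩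
  exact ((hfin.prod (Finset.finite_toSet _)).image _).subset hsub

end

open Classical in
theorem part_iff (M : Set G) (U0 : ℕ → Set G) (g h : G) :
    part M U0 g h = true ↔ ∀ k, g ∈ comp M U0 k ↔ h ∈ comp M U0 k := by
  unfold part
  exact decide_eq_true_iff

/-- From connectedness of a class to finite connected pieces. -/
theorem exists_finset_of_connS (A : Set G) (hA : ConnS A) (g h : G) (hg : g ∈ A) (hh : h ∈ A) :
    ∃ F : Finset G, (cay.induce (F : Set G)).Preconnected ∧ g ∈ F ∧ h ∈ F ∧ ∀ x ∈ F, x ∈ A := by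
  classical
  have h1 := hA (fun z => ∃ w : cay.Walk g z, ∀ x ∈ w.support, x ∈ A) (by
    intro x hx s hs hxs
    by_cases hne : x = x * s
    · rw [← hne]
    · have hadj : cay.Adj x (x * s) := by
        rw [SimpleGraph.fromRel_adj]
        refine ⟨hne, Or.inl ?_⟩
        rw [inv_mul_cancel_left]
        exact hs
      constructor
      · rintro ⟨w, hw⟩
        refine ⟨w.concat hadj, ?_⟩
        intro y hy
        rw [SimpleGraph.Walk.support_concat, List.mem_append,
          List.mem_singleton] at hy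
        rcases hy with hy | rfl
        · exact hw y hy
        · exact hxs
      · rintro ⟨w, hw⟩
        refine ⟨w.concat hadj.symm, ?_⟩
        intro y hy
        rw [SimpleGraph.Walk.support_concat, List.mem_append,
          List.mem_singleton] at hy
        rcases hy with hy | rfl
        · exact hw y hy
        · exact hx) g hg h hh ⟨SimpleGraph.Walk.nil, by
      intro x hx
      rw [SimpleGraph.Walk.support_nil, List.mem_singleton] at hx
      rw [hx]
      exact hg⟩
  obtain ⟨w, hw⟩ := h1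
  refine ⟨w.support.toFinset, ?_, ?_, ?_, ?_⟩
  · have hset : ((w.support.toFinset : Finset G) : Set G) = {v | v ∈ w.support} := by
      ext v
      simp
    rw [hset]
    exact w.connected_induce_support.preconnected
  · rw [List.mem_toFinset]
    exact w.start_mem_support
  · rw [List.mem_toFinset]
    exact w.end_mem_support
  · intro x hx
    rw [List.mem_toFinset] at hx
    exact hw x hx

theorem adj_step {x y : G} (h : cay.Adj x y) : ∃ s ∈ S, y = x * s := by
  rw [SimpleGraph.fromRel_adj] at h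
  refine ⟨x⁻¹ * y, ?_, by rw [mul_inv_cancel_left]⟩
  rcases h.2 with h | h
  · exact h
  · have := inv_mem_S h
    rwa [mul_inv_rev, inv_inv] at this

/-- The deterministic part: the layers form a partition with all required properties. -/
theorem nice_part (M : Set G) (U0 : ℕ → Set G) (hMconn : ConnS M) (hMinf : M.Infinite)
    (hUconn : ∀ m, ConnS (U0 m)) (hUint : ∀ m m', (U0 m ∩ U0 m').Nonempty)
    (hdisj : ∀ g ∈ M, g ∉ thick U0 0)
    (hcob : ∀ m, ∃ F : Finset G, ∀ g, ∃ h ∈ F, g * h ∈ U0 m)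
    (huni : ∀ m, ∀ A B : Set G, (∀ g, g ∈ A ∨ g ∈ B) →
      (∀ g, ∀ s ∈ S, (g ∈ A ∧ g * s ∈ A) ∨ (g ∈ B ∧ g * s ∈ B)) →
      ConnS A → ConnS B → U0 m ⊆ B → ConnS (A ∩ B)) :
    Nice (part M U0) := by
  classical
  have hall : ∀ g, ∃ k, g ∈ comp M U0 k := fun g => exists_comp hdisj hMinf g
  let kap : G → ℕ := fun g => Nat.find (hall g)
  have hkap : ∀ g k, g ∈ comp M U0 k ↔ kap g ≤ k := by
    intro g k
    constructor
    · intro h
      exact Nat.find_min' (hall g) h
    · intro h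
      exact comp_mono h (Nat.find_spec (hall g))
  have hpart : ∀ g h, part M U0 g h = true ↔ kap g = kap h := by
    intro g h
    rw [part_iff]
    constructor
    · intro H
      apply le_antisymm
      · rw [← hkap, H, hkap]
      · rw [← hkap, ← H, hkap]
    · intro H k
      rw [hkap, hkap, H]
  -- the classes
  have hclass0 : ∀ g, kap g = 0 ↔ g ∈ comp M U0 0 := by
    intro g
    rw [hkap]
    omega
  have hclass1 : ∀ g k, kap g = k + 1 ↔ g ∈ comp M U0 (k + 1) ∩ (comp M U0 k)ᶜ := by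
    intro g k
    rw [Set.mem_inter_iff, Set.mem_compl_iff, hkap, hkap]
    omega
  have hconn : ∀ k, ConnS {g | kap g = k} := by
    intro k
    cases k with
    | zero =>
      have : {g | kap g = 0} = comp M U0 0 := by
        ext g
        exact hclass0 g
      rw [this]
      exact connS_comp hMconn hMinf 0
    | succ k =>
      have : {g | kap g = k + 1} = comp M U0 (k + 1) ∩ (comp M U0 k)ᶜ := by
        ext g
        exact hclass1 g k
      rw [this]
      apply huni k
      · intro g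
        by_cases hg : g ∈ comp M U0 k
        · exact Or.inl (comp_mono_succ hg)
        · exact Or.inr hg
      · intro g s hs
        by_cases hg : g ∈ comp M U0 k
        · exact Or.inl ⟨comp_mono_succ hg, comp_step hdisj hs hg⟩
        · by_cases hgs : g * s ∈ comp M U0 k
          · left
            refine ⟨?_, comp_mono_succ hgs⟩
            have := comp_step hdisj (inv_mem_S hs) hgs
            rwa [mul_inv_cancel_right] at this
          · exact Or.inr ⟨hg, hgs⟩
      · exact connS_comp hMconn hMinf (k + 1)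
      · exact connS_compl hdisj hUconn hUint k
      · intro g hg h
        exact comp_disj hdisj h (U0_sub_thick le_rfl hg)
  refine ⟨?_, ?_, ?_, ?_, ?_, ?_, ?_⟩
  · intro g
    rw [hpart]
  · intro g h H
    rw [hpart] at H ⊢
    exact H.symm
  · intro g h l H1 H2
    rw [hpart] at H1 H2 ⊢
    exact H1.trans H2
  · intro F
    obtain ⟨g, hg⟩ := exists_not_comp hdisj hUint (F.sup kap)
    refine ⟨g, ?_⟩
    intro x hx
    rw [Bool.eq_false_iff, ne_eq, hpart]
    intro h
    apply hg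
    rw [hkap, ← h]
    exact Finset.le_sup (f := kap) hx
  · intro g F
    have hinf : {h | kap h = kap g}.Infinite := by
      rcases Nat.eq_zero_or_pos (kap g) with h0 | h0
      · rw [h0]
        apply hMinf.mono
        intro h hh
        exact (hclass0 h).2 (M_sub_comp hh)
      · obtain ⟨k, hk⟩ : ∃ k, kap g = k + 1 := ⟨kap g - 1, by omega⟩
        rw [hk]
        apply (layer_infinite hdisj hMinf hcob k).mono
        intro h hh
        exact (hclass1 h k).2 ⟨hh.1, hh.2⟩
    obtain ⟨h, hh1, hh2⟩ := hinf.exists_notMem_finset F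
    refine ⟨h, hh2, ?_⟩
    rw [hpart]
    exact hh1.symm
  · intro g h H
    rw [hpart] at H
    obtain ⟨F, h1, h2, h3, h4⟩ := exists_finset_of_connS _ (hconn (kap g)) g h rfl H.symm
    refine ⟨F, h1, h2, h3, ?_⟩
    intro x hx
    rw [hpart]
    exact (h4 x hx).symm
  · intro g
    have hrep : ∃ rep : ℕ → G, ∀ y, kap (rep (kap y)) = kap y := by
      refine ⟨fun l => if h : ∃ z, kap z = l then h.choose else 1, ?_⟩
      intro y
      have h : ∃ z, kap z = kap y := ⟨y, rfl⟩
      show kap (if h : ∃ z, kap z = kap y then h.choose else 1) = kap y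
      rw [dif_pos h]
      exact h.choose_spec
    obtain ⟨rep, hrep⟩ := hrep
    refine ⟨(Finset.range (kap g + 2)).image rep, ?_⟩
    intro x y hx hadj
    rw [hpart] at hx
    obtain ⟨s, hs, rfl⟩ := adj_step hadj
    have h1 : x ∈ comp M U0 (kap g) := by rw [hkap, hx]
    have h2 := comp_step hdisj hs h1
    rw [hkap] at h2
    refine ⟨rep (kap (x * s)), Finset.mem_image.2 ⟨_, Finset.mem_range.2 (by omega), rfl⟩, ?_⟩
    rw [hpart]
    exact hrep _

end Pool.Agent.IRP
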