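import Pool.Agent.H.MP_8fbdb2_pr.Defs
import Pool.Agent.H.MP_8fbdb2_pr.Gen
import Pool.Agent.H.MP_8fbdb2_pr.Exact

set_option autoImplicit false

namespace Pool.Agent.IRP

open Pointwise

section

variable (A B : Set G) (u : G → ℤ)

open Classical in
/-- The difference cochain of `u` on `A`, extended by zero. -/
noncomputable def om (x y : G) : ℤ := if x ∈ A ∧ y ∈ A then u y - u x else 0

variable {A B u}

theorem om_of_mem {x y : G} (hx : x ∈ A) (hy : y ∈ A) : om A u x y = u y - u x :=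
  if_pos ⟨hx, hy⟩

theorem om_of_B (hu : ∀ g s, s ∈ S → g ∈ A → g ∈ B → g * s ∈ A → g * s ∈ B → u (g * s) = u g)
    {g s : G} (hs : s ∈ S) (hg : g ∈ B) (hgs : g * s ∈ B) : om A u g (g * s) = 0 := by
  unfold om
  split_ifs with h
  · rw [hu g s hs h.1 hg h.2 hgs, sub_self]
  · rfl

theorem om_self (x : G) : om A u x x = 0 := by
  unfold om
  split_ifs
  · exact sub_self _
  · rfl

theorem om_tri (hedge : ∀ g, ∀ s ∈ S, (g ∈ A ∧ g * s ∈ A) ∨ (g ∈ B ∧ g * s ∈ B))
    (hu : ∀ g s, s ∈ S → g ∈ A → g ∈ B → g * s ∈ A → g * s ∈ B → u (g * s) = u g)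
    (g s t : G) (hs : s ∈ S) (ht : t ∈ S) (hst : s * t ∈ S) :
    om A u g (g * s) + om A u (g * s) (g * s * t) = om A u g (g * s * t) := by
  have e1 := hedge g s hs
  have e2 := hedge (g * s) t ht
  have e3 := hedge g (s * t) hst
  rw [← mul_assoc] at e3
  by_cases hall : g ∈ A ∧ g * s ∈ A ∧ g * s * t ∈ A
  · rw [om_of_mem hall.1 hall.2.1, om_of_mem hall.2.1 hall.2.2, om_of_mem hall.1 hall.2.2]
    ring
  · have hB : g ∈ B ∧ g * s ∈ B ∧ g * s * t ∈ B := by
      tauto
    have h3 := om_of_B (A := A) hu (g := g) hst hB.1 (by rw [← mul_assoc]; exact hB.2.2)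
    rw [← mul_assoc] at h3
    rw [om_of_B hu hs hB.1 hB.2.1, om_of_B hu ht hB.2.1 hB.2.2, h3, add_zero]

end

/-- Unicoherence of `SL_3(ℤ)` relative to the set where two coordinates are `1`. -/
theorem unicoherence {p : ℕ} [Fact p.Prime] (χ : (Fin 3 → ℤ) →+ ZMod p)
    (hχ : χ ≠ 0) (A B : Set G) (_hAB : ∀ g, g ∈ A ∨ g ∈ B)
    (hedge : ∀ g, ∀ s ∈ S, (g ∈ A ∧ g * s ∈ A) ∨ (g ∈ B ∧ g * s ∈ B))
    (hA : ConnS A) (hB : ConnS B)
    (hU : edgeSet (fun v w => χ v = 1 ∧ χ w = 1) ⊆ B) : ConnS (A ∩ B) := by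
  classical
  intro q hq x hx y hy hqx
  let u : G → ℤ := fun g => if q g then 1 else 0
  have hu : ∀ g s, s ∈ S → g ∈ A → g ∈ B → g * s ∈ A → g * s ∈ B → u (g * s) = u g := by
    intro g s hs h1 h2 h3 h4
    have := hq g ⟨h1, h2⟩ s hs ⟨h3, h4⟩
    show (if q (g * s) then (1 : ℤ) else 0) = if q g then 1 else 0
    rw [if_congr this rfl rfl]
  have tri := om_tri (u := u) hedge hu
  have m2 : ∀ i j k l : Fin 3, E i j 1 * E k l 1 ∈ S := by
    intro i j k l
    apply S0_pow_sub_S (a := 2) (by norm_num)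
    rw [pow_two]
    exact Finset.mul_mem_mul (E_mem_S0 _ _) (E_mem_S0 _ _)
  obtain ⟨f, hf⟩ := exact_of_vanish χ
    (by
      intro g
      by_contra hcon
      apply hχ
      apply hom_eq_zero_of_col χ g
      intro i
      by_contra h
      exact hcon ⟨i, h⟩)
    (fun i j g => om A u g (g * E i j 1))
    (by
      intro i j k hij hjk hik g
      show om A u g (g * E i j 1) + om A u (g * E i j 1) (g * E i j 1 * E i k 1) =
        om A u g (g * E i k 1) + om A u (g * E i k 1) (g * E i k 1 * E i j 1)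
      rw [tri g _ _ (E_mem_S _ _) (E_mem_S _ _) (m2 _ _ _ _),
        tri g _ _ (E_mem_S _ _) (E_mem_S _ _) (m2 _ _ _ _), mul_assoc, mul_assoc,
        E_comm_source hij hik hjk])
    (by
      intro i j k hij hjk hik g
      show om A u g (g * E i j 1) + om A u (g * E i j 1) (g * E i j 1 * E k j 1) =
        om A u g (g * E k j 1) + om A u (g * E k j 1) (g * E k j 1 * E i j 1)
      rw [tri g _ _ (E_mem_S _ _) (E_mem_S _ _) (m2 _ _ _ _),
        tri g _ _ (E_mem_S _ _) (E_mem_S _ _) (m2 _ _ _ _), mul_assoc, mul_assoc,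
        E_comm_target hij hjk.symm])
    (by
      intro i j k hij hjk hik g
      show om A u g (g * E i j 1) + om A u (g * E i j 1) (g * E i j 1 * E j k 1) =
        om A u g (g * E j k 1) + om A u (g * E j k 1) (g * E j k 1 * E i j 1) +
          om A u (g * E j k 1 * E i j 1) (g * E j k 1 * E i j 1 * E i k 1)
      have hh := E_heis hij hjk hik 1 1
      rw [mul_one] at hh
      have t3 := tri g (E j k 1 * E i j 1) (E i k 1) (m2 _ _ _ _) (E_mem_S _ _)
        (by rw [← hh]; exact m2 _ _ _ _)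
      have e1 : g * E i j 1 * E j k 1 = g * (E j k 1 * E i j 1) * E i k 1 := by
        rw [mul_assoc, hh, ← mul_assoc]
      rw [tri g _ _ (E_mem_S _ _) (E_mem_S _ _) (m2 _ _ _ _),
        tri g _ _ (E_mem_S _ _) (E_mem_S _ _) (m2 _ _ _ _), mul_assoc g (E j k 1), t3, e1])
    (by
      intro g i j hij h1 h2
      obtain ⟨a, b, hab, h3, h4⟩ := h1
      obtain ⟨c, d, hcd, h5, h6⟩ := h2
      exact om_of_B hu (E_mem_S _ _) (hU ⟨a, b, hab, h3, h4⟩) (hU ⟨c, d, hcd, h5, h6⟩))
  -- `f` is a potential for all steps in `S`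
  have hE : ∀ g : G, ∀ i j : Fin 3, i ≠ j → om A u g (g * E i j 1) = f (g * E i j 1) - f g :=
    fun g i j hij => (hf g i j hij).symm
  have hS0 : ∀ g : G, ∀ s ∈ S0, om A u g (g * s) = f (g * s) - f g := by
    intro g s hs
    rcases mem_S0_cases hs with rfl | ⟨i, j, hij, rfl | rfl⟩
    · rw [mul_one, om_self, sub_self]
    · exact hE g i j hij
    · have t := tri g (E i j (-1)) (E i j 1) (E_neg_mem_S i j) (E_mem_S i j) (by
        rw [E_mul_E hij, neg_add_cancel, E_zero]
        exact one_mem_S)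
      have e : g * E i j (-1) * E i j 1 = g := by
        rw [mul_assoc, E_mul_E hij, neg_add_cancel, E_zero, mul_one]
      have h1 := hE (g * E i j (-1)) i j hij
      rw [e] at h1 t
      rw [om_self, h1] at t
      linarith
  have hSn : ∀ n : ℕ, n ≤ 12 → ∀ g : G, ∀ s ∈ S0 ^ n, om A u g (g * s) = f (g * s) - f g := by
    intro n
    induction n with
    | zero =>
      intro _ g s hs
      rw [pow_zero, Finset.mem_one] at hs
      rw [hs, mul_one, om_self, sub_self]
    | succ n ih =>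
      intro hn g s hs
      have hs' := hs
      rw [pow_succ] at hs
      obtain ⟨a, ha, b, hb, rfl⟩ := Finset.mem_mul.1 hs
      have t := tri g a b (S0_pow_sub_S (by omega) ha) (S0_sub_S hb) (S0_pow_sub_S hn hs')
      rw [ih (by omega) g a ha, hS0 (g * a) b hb] at t
      rw [← mul_assoc, ← t]
      ring
  have hS : ∀ g : G, ∀ s ∈ S, om A u g (g * s) = f (g * s) - f g := by
    intro g s hs
    rw [S_eq] at hs
    exact hSn 12 le_rfl g s hs
  have h1 := hA (fun g => f g - u g = f x - u x) (by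
    intro g hg s hs hgs
    have := hS g s hs
    rw [om_of_mem hg hgs] at this
    constructor
    · intro h; linarith
    · intro h; linarith) x hx.1 y hy.1 rfl
  have h2 := hB (fun g => f g = f x) (by
    intro g hg s hs hgs
    have := hS g s hs
    rw [om_of_B hu hs hg hgs] at this
    constructor
    · intro h; linarith
    · intro h; linarith) x hx.2 y hy.2 rfl
  have h3 : u x = 1 := if_pos hqx
  have h1' : f y - u y = f x - u x := h1
  have h2' : f y = f x := h2
  have h4 : u y = 1 := by linarith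
  by_contra hny
  have h5 : u y = 0 := if_neg hny
  omega

end Pool.Agent.IRP
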